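import Mathlib
import Pool.Agent.Lib.MP_bbe012_lc.Bd

/-!
# Functions on the cube with bounded second derivatives
-/

namespace Pool.Agent.Lib.MP_bbe012_lc.HC

open Set Filter Topology

variable {m : ℕ}

/-- The function `f` is, along all lines in the cube, twice differentiable, and `B` bounds the
values and the first two derivatives. -/
def Bd2 (m : ℕ) (f : (Fin m → ℝ) → ℝ) (B : ℝ) : Prop :=
  ∃ f1 f2 : (Fin m → ℝ) → (Fin m → ℝ) → ℝ, ∀ x ∈ cube m, ∀ u : Fin m → ℝ,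
    |f x| ≤ B ∧ |f1 x u| ≤ B * ‖u‖ ∧ |f2 x u| ≤ B * ‖u‖ ^ 2 ∧
    HasDerivAt (fun τ : ℝ => f (x + τ • u)) (f1 x u) 0 ∧
    HasDerivAt (fun τ : ℝ => f1 (x + τ • u) u) (f2 x u) 0

theorem zero_mem_cube (m : ℕ) : (0 : Fin m → ℝ) ∈ cube m := by
  intro i
  simp

theorem convex_cube (m : ℕ) : Convex ℝ (cube m) := by
  have h : cube m = Set.pi Set.univ (fun _ => Ioo (-1 : ℝ) 1) := by
    ext y
    simp [cube]
  rw [h]
  exact convex_pi fun i _ => convex_Ioo _ _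

/-- Points of a line close to a point of the cube are in the cube.
`isOpen_cube` (Bd.lean) and continuity of `τ ↦ x + τ • u`. -/
theorem eventually_mem_cube {x : Fin m → ℝ} (hx : x ∈ cube m) (u : Fin m → ℝ) :
    ∀ᶠ τ : ℝ in 𝓝 0, x + τ • u ∈ cube m := by
  have hc : Continuous (fun τ : ℝ => x + τ • u) := by fun_prop
  have h0 : (fun τ : ℝ => x + τ • u) 0 ∈ cube m := by simpa using hx
  exact hc.continuousAt.eventually (isOpen_cube.mem_nhds h0)

/-- Take `x = 0`, `u = 0`. -/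
theorem Bd2.nonneg {f : (Fin m → ℝ) → ℝ} {B : ℝ} (h : Bd2 m f B) : 0 ≤ B := by
  obtain ⟨f1, f2, h⟩ := h
  exact (abs_nonneg _).trans (h 0 (zero_mem_cube m) 0).1

theorem Bd2.mono {f : (Fin m → ℝ) → ℝ} {B B' : ℝ} (h : Bd2 m f B) (hB : B ≤ B') : Bd2 m f B' := by
  obtain ⟨f1, f2, h⟩ := h
  refine ⟨f1, f2, fun x hx u => ?_⟩
  obtain ⟨h1, h2, h3, h4, h5⟩ := h x hx u
  exact ⟨h1.trans hB, h2.trans (mul_le_mul_of_nonneg_right hB (norm_nonneg _)),
    h3.trans (mul_le_mul_of_nonneg_right hB (by positivity)), h4, h5⟩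

/-- Same `f1`, `f2`; `HasDerivAt.congr_of_eventuallyEq` with `eventually_mem_cube`. -/
theorem Bd2.congr {f g : (Fin m → ℝ) → ℝ} {B : ℝ} (h : Bd2 m f B) (hfg : ∀ x ∈ cube m, f x = g x) :
    Bd2 m g B := by
  obtain ⟨f1, f2, h⟩ := h
  refine ⟨f1, f2, fun x hx u => ?_⟩
  obtain ⟨h1, h2, h3, h4, h5⟩ := h x hx u
  refine ⟨by rw [← hfg x hx]; exact h1, h2, h3, ?_, h5⟩
  apply h4.congr_of_eventuallyEq
  filter_upwards [eventually_mem_cube hx u] with τ hτ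
  exact (hfg _ hτ).symm

theorem Bd2.const (m : ℕ) (c : ℝ) : Bd2 m (fun _ => c) |c| := by
  refine ⟨fun _ _ => 0, fun _ _ => 0, fun x hx u => ⟨le_refl _, ?_, ?_, ?_, ?_⟩⟩
  · rw [abs_zero]
    positivity
  · rw [abs_zero]
    positivity
  · exact hasDerivAt_const _ _
  · exact hasDerivAt_const _ _

private theorem BdA_line (i : Fin m) (x u : Fin m → ℝ) :
    HasDerivAt (fun τ : ℝ => (x + τ • u) i) (u i) 0 := by
  have h1 : HasDerivAt (fun τ : ℝ => x i + τ * u i) (0 + 1 * u i) 0 :=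
    (hasDerivAt_const (0 : ℝ) (x i)).add ((hasDerivAt_id (0 : ℝ)).mul_const (u i))
  have h2 : (0 : ℝ) + 1 * u i = u i := by ring
  rw [h2] at h1
  exact h1

/-- `f1 x u = u i`, `f2 = 0`; `norm_le_pi_norm`. -/
theorem Bd2.coord (i : Fin m) : Bd2 m (fun x => x i) 1 := by
  refine ⟨fun _ u => u i, fun _ _ => 0, fun x hx u => ⟨?_, ?_, ?_, ?_, ?_⟩⟩
  · have h := hx i
    exact abs_le.2 ⟨h.1.le, h.2.le⟩
  · rw [one_mul]
    exact norm_le_pi_norm u i
  · rw [abs_zero]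
    positivity
  · exact BdA_line i x u
  · exact hasDerivAt_const _ _

theorem Bd2.add {f g : (Fin m → ℝ) → ℝ} {B B' : ℝ} (hf : Bd2 m f B) (hg : Bd2 m g B') :
    Bd2 m (fun x => f x + g x) (B + B') := by
  obtain ⟨f1, f2, hf⟩ := hf
  obtain ⟨g1, g2, hg⟩ := hg
  refine ⟨fun x u => f1 x u + g1 x u, fun x u => f2 x u + g2 x u, fun x hx u => ?_⟩
  obtain ⟨h1, h2, h3, h4, h5⟩ := hf x hx u
  obtain ⟨k1, k2, k3, k4, k5⟩ := hg x hx u
  refine ⟨?_, ?_, ?_, h4.add k4, h5.add k5⟩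
  · exact (abs_add_le _ _).trans (add_le_add h1 k1)
  · rw [add_mul]
    exact (abs_add_le _ _).trans (add_le_add h2 k2)
  · rw [add_mul]
    exact (abs_add_le _ _).trans (add_le_add h3 k3)

private theorem BdA_mul_le {a b A B : ℝ} (ha : |a| ≤ A) (hb : |b| ≤ B) : |a * b| ≤ A * B := by
  rw [abs_mul]
  exact mul_le_mul ha hb (abs_nonneg _) ((abs_nonneg _).trans ha)

/-- `f1 x u * g x + f x * g1 x u` and `f2 x u * g x + 2 * f1 x u * g1 x u + f x * g2 x u`; `HasDerivAt.mul`. -/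
theorem Bd2.mul {f g : (Fin m → ℝ) → ℝ} {B B' : ℝ} (hf : Bd2 m f B) (hg : Bd2 m g B') :
    Bd2 m (fun x => f x * g x) (4 * B * B') := by
  have hB := hf.nonneg
  have hB' := hg.nonneg
  obtain ⟨f1, f2, hf⟩ := hf
  obtain ⟨g1, g2, hg⟩ := hg
  refine ⟨fun x u => f1 x u * g x + f x * g1 x u,
    fun x u => (f2 x u * g x + f1 x u * g1 x u) + (f1 x u * g1 x u + f x * g2 x u), fun x hx u => ?_⟩
  obtain ⟨h1, h2, h3, h4, h5⟩ := hf x hx u
  obtain ⟨k1, k2, k3, k4, k5⟩ := hg x hx u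
  have hBB : 0 ≤ B * B' := mul_nonneg hB hB'
  have hu : 0 ≤ ‖u‖ := norm_nonneg u
  have e0 : x + (0 : ℝ) • u = x := by simp
  refine ⟨?_, ?_, ?_, ?_, ?_⟩
  · have := BdA_mul_le h1 k1
    nlinarith
  · have a1 := BdA_mul_le h2 k1
    have a2 := BdA_mul_le h1 k2
    have a3 := abs_add_le (f1 x u * g x) (f x * g1 x u)
    have a4 : 0 ≤ B * B' * ‖u‖ := mul_nonneg hBB hu
    show |f1 x u * g x + f x * g1 x u| ≤ _
    nlinarith
  · have a1 := BdA_mul_le h3 k1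
    have a2 := BdA_mul_le h2 k2
    have a3 := BdA_mul_le h1 k3
    have a4 := abs_add_le (f2 x u * g x + f1 x u * g1 x u) (f1 x u * g1 x u + f x * g2 x u)
    have a5 := abs_add_le (f2 x u * g x) (f1 x u * g1 x u)
    have a6 := abs_add_le (f1 x u * g1 x u) (f x * g2 x u)
    show |(f2 x u * g x + f1 x u * g1 x u) + (f1 x u * g1 x u + f x * g2 x u)| ≤ _
    nlinarith
  · have h := h4.mul k4
    rw [e0] at h
    exact h
  · have h := (h5.mul k4).add (h4.mul k5)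
    rw [e0] at h
    exact h

theorem Bd2.smul {f : (Fin m → ℝ) → ℝ} {B : ℝ} (hf : Bd2 m f B) (c : ℝ) :
    Bd2 m (fun x => c * f x) (|c| * B) := by
  obtain ⟨f1, f2, hf⟩ := hf
  refine ⟨fun x u => c * f1 x u, fun x u => c * f2 x u, fun x hx u => ?_⟩
  obtain ⟨h1, h2, h3, h4, h5⟩ := hf x hx u
  refine ⟨?_, ?_, ?_, h4.const_mul c, h5.const_mul c⟩
  · exact BdA_mul_le (le_refl _) h1
  · rw [mul_assoc]
    exact BdA_mul_le (le_refl _) h2
  · rw [mul_assoc]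
    exact BdA_mul_le (le_refl _) h3

end Pool.Agent.Lib.MP_bbe012_lc.HC
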