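import Mathlib
import Pool.Agent.Lib.MP_bbe012_lc.HC.BdA

/-!
# Sums, powers, products, polynomials
-/

namespace Pool.Agent.Lib.MP_bbe012_lc.HC

open Set Filter Topology

variable {m : ℕ}

/-- Induction on `R`, `Bd2.add`, `Bd2.const`. -/
theorem Bd2.sum {R : ℕ} {f : ℕ → (Fin m → ℝ) → ℝ} {B : ℝ} (h : ∀ j < R, Bd2 m (f j) B) :
    Bd2 m (fun x => ∑ j ∈ Finset.range R, f j x) (R * B) := by
  induction R with
  | zero =>
    have h0 := Bd2.const m 0
    refine (h0.mono (B' := ((0 : ℕ) : ℝ) * B) ?_).congr fun x _ => ?_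
    · simp
    · simp
  | succ R ih =>
    have h1 := (ih fun j hj => h j (by omega)).add (h R (by omega))
    refine (h1.mono (B' := ((R + 1 : ℕ) : ℝ) * B) ?_).congr fun x _ => ?_
    · push_cast; linarith
    · rw [Finset.sum_range_succ]

/-- Induction on `k`: `4 * (4B)^k * B = (4B)^(k+1)`. -/
theorem Bd2.pow {f : (Fin m → ℝ) → ℝ} {B : ℝ} (h : Bd2 m f B) (k : ℕ) :
    Bd2 m (fun x => f x ^ k) ((4 * B) ^ k) := by
  induction k with
  | zero =>
    refine ((Bd2.const m 1).mono (B' := (4 * B) ^ 0) ?_).congr fun x _ => ?_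
    · simp
    · simp
  | succ k ih =>
    refine ((ih.mul h).mono (B' := (4 * B) ^ (k + 1)) ?_).congr fun x _ => ?_
    · apply le_of_eq; ring
    · rw [pow_succ]

theorem Bd2.prod {R : ℕ} {f : ℕ → (Fin m → ℝ) → ℝ} {B : ℝ} (h : ∀ j < R, Bd2 m (f j) B) :
    Bd2 m (fun x => ∏ j ∈ Finset.range R, f j x) ((4 * B) ^ R) := by
  induction R with
  | zero =>
    refine ((Bd2.const m 1).mono (B' := (4 * B) ^ 0) ?_).congr fun x _ => ?_
    · simp
    · simp
  | succ R ih =>
    have h1 := (ih fun j hj => h j (by omega)).mul (h R (by omega))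
    refine (h1.mono (B' := (4 * B) ^ (R + 1)) ?_).congr fun x _ => ?_
    · apply le_of_eq; ring
    · rw [Finset.prod_range_succ]

/-- A bound for a coded polynomial and its first two derivatives on the cube. -/
def pcK (p : PCode) : ℕ :=
  p.foldr (fun t a => 4 * (t.1.1.1 + t.1.1.2) * 4 ^ t.2.foldr (fun i s => i + s) 0 + a) 0

theorem BdB_aux1 {f : (Fin m → ℝ) → ℝ} {B : ℝ} (h : Bd2 m f B) (i : Fin m) (e : ℕ) :
    Bd2 m (fun x => x i ^ e * f x) (4 ^ e * B) := by
  induction e with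
  | zero =>
    refine (h.mono (B' := 4 ^ 0 * B) ?_).congr fun x _ => ?_
    · simp
    · simp
  | succ e ih =>
    refine (((Bd2.coord i).mul ih).mono (B' := 4 ^ (e + 1) * B) ?_).congr fun x _ => ?_
    · apply le_of_eq; ring
    · ring

theorem BdB_aux2 (e : Fin m → ℕ) (s : Finset (Fin m)) :
    Bd2 m (fun x => ∏ i ∈ s, x i ^ e i) (4 ^ ∑ i ∈ s, e i) := by
  classical
  induction s using Finset.induction_on with
  | empty =>
    refine ((Bd2.const m 1).mono (B' := 4 ^ ∑ i ∈ (∅ : Finset (Fin m)), e i) ?_).congr fun x _ => ?_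
    · simp
    · simp
  | insert a s ha ih =>
    refine ((BdB_aux1 ih a (e a)).mono (B' := 4 ^ ∑ i ∈ insert a s, e i) ?_).congr fun x _ => ?_
    · rw [Finset.sum_insert ha, pow_add]
    · rw [Finset.prod_insert ha]

theorem BdB_aux3 (l : List ℕ) : ∀ m : ℕ, ∑ i : Fin m, l.getD i 0 ≤ l.foldr (fun i s => i + s) 0 := by
  induction l with
  | nil => intro m; simp
  | cons a l ih =>
    intro m
    cases m with
    | zero => simp
    | succ m =>
      rw [Fin.sum_univ_succ]
      simp only [Fin.val_zero, Fin.val_succ, List.getD_cons_zero, List.getD_cons_succ,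
        List.foldr_cons]
      exact Nat.add_le_add_left (ih m) a

theorem BdB_aux4 (c : QCode) : |((qval c : ℚ) : ℝ)| ≤ ((c.1.1 + c.1.2 : ℕ) : ℝ) := by
  have h : ((qval c : ℚ) : ℝ) = ((c.1.1 : ℝ) - c.1.2) / (c.2 + 1) := by
    simp [qval]
  rw [h, abs_div]
  have h1 : (0 : ℝ) ≤ c.1.1 := Nat.cast_nonneg _
  have h2 : (0 : ℝ) ≤ c.1.2 := Nat.cast_nonneg _
  have h3 : (0 : ℝ) ≤ c.2 := Nat.cast_nonneg _
  have h4 : |(c.2 : ℝ) + 1| = c.2 + 1 := abs_of_nonneg (by linarith)
  rw [h4, div_le_iff₀ (by linarith)]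
  push_cast
  have h5 : |(c.1.1 : ℝ) - c.1.2| ≤ c.1.1 + c.1.2 := by
    rw [abs_le]; constructor <;> linarith
  have h6 : 0 ≤ ((c.1.1 : ℝ) + c.1.2) * c.2 := by positivity
  nlinarith

/-- Induction on `p` (`pcEval_cons` in Eval.lean). Auxiliary: from `Bd2 m f B` get `Bd2 m (fun x => f x * x i ^ e) (4 ^ e * B)` by induction on `e`
(`Bd2.mul` with `Bd2.coord`), hence `∏ i, x i ^ e i` has the bound `4 ^ (∑ i, e i)` (induction over a `Finset`), and
`∑ i : Fin m, l.getD i 0 ≤ l.foldr (fun i s => i + s) 0`. Coefficients: `|qval c| = |a - b| / (d + 1) ≤ a + b` (as real numbers), `Bd2.smul`. -/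
theorem bd2_pcEval (m : ℕ) (p : PCode) : Bd2 m (pcEval m p) (pcK p) := by
  induction p with
  | nil =>
    refine ((Bd2.const m 0).mono (B' := (pcK [] : ℝ)) ?_).congr fun x _ => ?_
    · simp
    · simp
  | cons t p ih =>
    have h1 := ((BdB_aux2 (fun i : Fin m => t.2.getD i 0) Finset.univ).smul
      ((qval t.1 : ℚ) : ℝ)).add ih
    refine (h1.mono (B' := (pcK (t :: p) : ℝ)) ?_).congr fun x _ => ?_
    · have hK : pcK (t :: p) = 4 * (t.1.1.1 + t.1.1.2) * 4 ^ t.2.foldr (fun i s => i + s) 0 + pcK p :=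
        rfl
      rw [hK]
      have h2 := BdB_aux4 t.1
      have h3 : (4 : ℝ) ^ (∑ i : Fin m, t.2.getD i 0) ≤ 4 ^ t.2.foldr (fun i s => i + s) 0 :=
        pow_le_pow_right₀ (by norm_num) (BdB_aux3 t.2 m)
      have h4 : |((qval t.1 : ℚ) : ℝ)| * (4 : ℝ) ^ (∑ i : Fin m, t.2.getD i 0) ≤
          ((t.1.1.1 + t.1.1.2 : ℕ) : ℝ) * 4 ^ t.2.foldr (fun i s => i + s) 0 :=
        mul_le_mul h2 h3 (by positivity) (by positivity)
      have h5 : 0 ≤ ((t.1.1.1 + t.1.1.2 : ℕ) : ℝ) * 4 ^ t.2.foldr (fun i s => i + s) 0 := by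
        positivity
      push_cast at h4 h5 ⊢
      nlinarith
    · rw [pcEval_cons]

/-- Symmetrisation in one coordinate.
`g1 x u = f1 (σ x) (σ u)` where `σ x = Function.update x i (-x i)` is linear and maps the cube to itself, `‖σ u‖ = ‖u‖`. -/
theorem Bd2.flip {f : (Fin m → ℝ) → ℝ} {B : ℝ} (h : Bd2 m f B) (i : Fin m) :
    Bd2 m (fun x => f (Function.update x i (-x i))) B := by
  have hB := h.nonneg
  obtain ⟨f1, f2, hf⟩ := h
  have hadd : ∀ (x u : Fin m → ℝ) (τ : ℝ), Function.update (x + τ • u) i (-(x + τ • u) i) =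
      Function.update x i (-x i) + τ • Function.update u i (-u i) := by
    intro x u τ
    ext j
    by_cases hj : j = i
    · subst hj
      simp only [Function.update_self, Pi.add_apply, Pi.smul_apply, smul_eq_mul]
      ring
    · simp only [Function.update_of_ne hj, Pi.add_apply, Pi.smul_apply, smul_eq_mul]
  have hnorm : ∀ u : Fin m → ℝ, ‖Function.update u i (-u i)‖ ≤ ‖u‖ := by
    intro u
    refine (pi_norm_le_iff_of_nonneg (norm_nonneg u)).2 fun j => ?_
    by_cases hj : j = i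
    · subst hj
      rw [Function.update_self, norm_neg]
      exact norm_le_pi_norm u j
    · rw [Function.update_of_ne hj]
      exact norm_le_pi_norm u j
  have hmem : ∀ x ∈ cube m, Function.update x i (-x i) ∈ cube m := by
    intro x hx j
    by_cases hj : j = i
    · subst hj
      rw [Function.update_self]
      have := hx j
      exact ⟨by linarith [this.2], by linarith [this.1]⟩
    · rw [Function.update_of_ne hj]
      exact hx j
  refine ⟨fun x u => f1 (Function.update x i (-x i)) (Function.update u i (-u i)),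
    fun x u => f2 (Function.update x i (-x i)) (Function.update u i (-u i)), ?_⟩
  intro x hx u
  obtain ⟨h1, h2, h3, h4, h5⟩ := hf _ (hmem x hx) (Function.update u i (-u i))
  refine ⟨h1, h2.trans (mul_le_mul_of_nonneg_left (hnorm u) hB),
    h3.trans (mul_le_mul_of_nonneg_left (pow_le_pow_left₀ (norm_nonneg _) (hnorm u) 2) hB), ?_, ?_⟩
  · simp only [hadd]
    exact h4
  · simp only [hadd]
    exact h5

end Pool.Agent.Lib.MP_bbe012_lc.HC
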