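import Mathlib
import Pool.Agent.Lib.MP_bbe012_lc.Check

/-!
# Translation of the exponent in polynomial identities
-/

namespace Pool.Agent.Lib.MP_bbe012_lc.HC

open MvPolynomial

variable {n : ℕ}

theorem CertA_add (e : ℚ) (p q : Pt n) : shiftP e (p + q) = shiftP e p + shiftP e q := map_add _ _ _

theorem CertA_sub (e : ℚ) (p q : Pt n) : shiftP e (p - q) = shiftP e p - shiftP e q := map_sub _ _ _

theorem CertA_mul (e : ℚ) (p q : Pt n) : shiftP e (p * q) = shiftP e p * shiftP e q := map_mul _ _ _

theorem CertA_pow (e : ℚ) (p : Pt n) (k : ℕ) : shiftP e (p ^ k) = shiftP e p ^ k := map_pow _ _ _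

theorem CertA_sum {ι : Type} (e : ℚ) (s : Finset ι) (f : ι → Pt n) :
    shiftP e (∑ i ∈ s, f i) = ∑ i ∈ s, shiftP e (f i) := map_sum _ _ _

theorem CertA_C (e a : ℚ) : shiftP e (C a : Pt n) = C a := by
  rw [shiftP, aeval_C]
  rfl

theorem CertA_natCast (e : ℚ) (k : ℕ) : shiftP e (k : Pt n) = k := by
  rw [shiftP]
  exact map_natCast _ k

theorem CertA_last (e : ℚ) : shiftP e (X (Fin.last n) : Pt n) = X (Fin.last n) + C e := by
  rw [shiftP, aeval_X, Fin.snoc_last]

theorem CertA_castSucc (e : ℚ) (i : Fin n) : shiftP e (X i.castSucc : Pt n) = X i.castSucc := by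
  rw [shiftP, aeval_X, Fin.snoc_castSucc]

/-- `shiftP e` is `aeval` of a family (Sound.lean), `beta n` is `aeval (X (last n))` (Ident.lean). Induction on `b`
(`Polynomial.induction_on'`, compare `evT_beta` in Region.lean), or `Polynomial.ringHom_ext`. -/
theorem shiftP_beta (e : ℚ) (b : Polynomial ℚ) :
    shiftP e (beta n b) = beta n (b.comp (Polynomial.X + Polynomial.C e)) := by
  have h1 : shiftP e (beta n b) = Polynomial.aeval (shiftP e (X (Fin.last n) : Pt n)) b :=
    (Polynomial.aeval_algHom_apply (aeval (Fin.snoc (fun i => X i.castSucc) (X (Fin.last n) + C e) :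
      Fin (n + 1) → Pt n)) (X (Fin.last n) : Pt n) b).symm
  have h2 : beta n (b.comp (Polynomial.X + Polynomial.C e)) =
      Polynomial.aeval (Polynomial.aeval (X (Fin.last n) : Pt n) (Polynomial.X + Polynomial.C e)) b :=
    Polynomial.aeval_comp _
  rw [h1, h2, CertA_last]
  congr 1
  simp [algebraMap_eq]

/-- `hP h = rename castSucc h`; `aeval_rename` and `Fin.snoc_castSucc`; the composite is `rename castSucc = aeval (X ∘ castSucc)`. -/
theorem shiftP_hP (e : ℚ) (h : MvPolynomial (Fin n) ℚ) : shiftP e (hP h) = hP h := by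
  rw [shiftP, hP, aeval_rename]
  congr 1
  refine MvPolynomial.algHom_ext fun i => ?_
  rw [aeval_X, rename_X, Function.comp_apply, Fin.snoc_castSucc]

/-- Both sides are algebra homomorphisms in `G`: `MvPolynomial.algHom_ext`, `Fin.lastCases`. -/
theorem shiftP_shiftP_neg (e : ℚ) (G : Pt n) : shiftP e (shiftP (-e) G) = G := by
  have h1 : ((aeval (Fin.snoc (fun i => X i.castSucc) (X (Fin.last n) + C e) : Fin (n + 1) → Pt n)) :
      Pt n →ₐ[ℚ] Pt n).comp (aeval (Fin.snoc (fun i => X i.castSucc) (X (Fin.last n) + C (-e)) :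
        Fin (n + 1) → Pt n)) = AlgHom.id ℚ (Pt n) := by
    refine MvPolynomial.algHom_ext fun i => ?_
    refine Fin.lastCases ?_ (fun i => ?_) i
    · show shiftP e (shiftP (-e) (X (Fin.last n))) = X (Fin.last n)
      rw [CertA_last, CertA_add, CertA_last, CertA_C, add_assoc, ← C_add, add_neg_cancel, C_0, add_zero]
    · show shiftP e (shiftP (-e) (X i.castSucc)) = X i.castSucc
      rw [CertA_castSucc, CertA_castSucc]
  exact DFunLike.congr_fun h1 G

/-- Induction on `G` (`MvPolynomial.induction_on`), as in the chain rule: `shiftP e (X (last n)) = X (last n) + C e`, whose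
derivative with respect to `castSucc l` is `0`, and `shiftP e (X castSucc i) = X castSucc i`. -/
theorem shiftP_pderiv (e : ℚ) (l : Fin n) (G : Pt n) :
    shiftP e (pderiv l.castSucc G) = pderiv l.castSucc (shiftP e G) := by
  induction G using MvPolynomial.induction_on with
  | C a => rw [pderiv_C, CertA_C, pderiv_C]; exact map_zero _
  | add p q hp hq => rw [map_add, CertA_add, CertA_add, map_add, hp, hq]
  | mul_X p i hp =>
    rw [pderiv_mul, CertA_add, CertA_mul, CertA_mul, CertA_mul, pderiv_mul, hp]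
    congr 2
    refine Fin.lastCases ?_ (fun i => ?_) i
    · rw [CertA_last, map_add, pderiv_C, add_zero, pderiv_X, Pi.single_apply,
        if_neg (Fin.castSucc_lt_last l).ne']
      exact map_zero _
    · rw [CertA_castSucc, pderiv_X, Pi.single_apply]
      split_ifs
      · exact map_one _
      · exact map_zero _

/-- `divg h K g = ∑ l, (hP h * pderiv l.castSucc (g l) + (X (last n) - K) * (pderiv l.castSucc (hP h) * g l))`; apply the
algebra homomorphism `shiftP e`, `shiftP_pderiv`, `shiftP_hP`; `shiftP e (X (last n) - K) = X (last n) + C e - K = X (last n) - K'`. -/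
theorem shiftP_divg {e : ℚ} {K K' : ℕ} (hK : (K : ℚ) = K' + e) (h : MvPolynomial (Fin n) ℚ)
    (g : Fin n → Pt n) : shiftP e (divg h K g) = divg h K' fun l => shiftP e (g l) := by
  rw [divg, divg, CertA_sum]
  refine Finset.sum_congr rfl fun l _ => ?_
  rw [CertA_add, CertA_mul, CertA_mul, CertA_mul, CertA_sub, CertA_last, CertA_natCast, shiftP_pderiv,
    shiftP_pderiv, shiftP_hP]
  have h1 : (X (Fin.last n) + C e - (K : Pt n) : Pt n) = X (Fin.last n) - (K' : Pt n) := by
    have h3 : (K : Pt n) = (K' : Pt n) + C e := by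
      have h4 : C (K : ℚ) = (C ((K' : ℚ) + e) : Pt n) := by rw [hK]
      rw [C_add] at h4
      simpa using h4
    rw [h3]
    ring
  rw [h1]

end Pool.Agent.Lib.MP_bbe012_lc.HC
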