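import Mathlib
import Pool.Agent.Lib.MP_bbe012_lc.HC.CertA

/-!
# Existence of certificates
-/

namespace Pool.Agent.Lib.MP_bbe012_lc.HC

open MvPolynomial

variable {n : ℕ}

/-- The translate of `b` used in the step number `i`. -/
noncomputable def bsh (b : Polynomial ℚ) (k i : ℕ) : Polynomial ℚ :=
  b.comp (Polynomial.X + Polynomial.C ((i : ℚ) - 1 - k))

/-- `Polynomial.comp_X_add_C_eq_zero_iff`, see `prodShift_ne_zero` in Sound.lean. -/
theorem bsh_ne_zero {b : Polynomial ℚ} (hb : b ≠ 0) (k i : ℕ) : bsh b k i ≠ 0 := by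
  intro h0
  exact hb (Polynomial.comp_X_add_C_eq_zero_iff.mp h0)

/-- The product of the first `M` translates. -/
noncomputable def prodB (b : Polynomial ℚ) (k M : ℕ) : Polynomial ℚ :=
  ∏ i ∈ Finset.range M, bsh b k i

theorem prodB_ne_zero {b : Polynomial ℚ} (hb : b ≠ 0) (k M : ℕ) : prodB b k M ≠ 0 :=
  Finset.prod_ne_zero_iff.mpr fun i _ => bsh_ne_zero hb k i

/-- Copy the proof of `natTrailingDegree_prodShift` (Sound.lean) with the shift `i - 1 - k`. -/
theorem natTrailingDegree_prodB {b : Polynomial ℚ} (hb : b ≠ 0) (k M : ℕ) :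
    (prodB b k M).natTrailingDegree ≤ b.natDegree := by
  have h1 : ∀ (s : Finset ℕ), (∏ i ∈ s, bsh b k i).natTrailingDegree =
      ∑ i ∈ s, b.rootMultiplicity ((i : ℚ) - 1 - k) := by
    intro s
    classical
    induction s using Finset.induction_on with
    | empty => simp
    | insert a s ha ih =>
      rw [Finset.prod_insert ha, Finset.sum_insert ha, Polynomial.natTrailingDegree_mul, ih,
        Polynomial.rootMultiplicity_eq_natTrailingDegree]
      · rfl
      · exact bsh_ne_zero hb k a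
      · exact Finset.prod_ne_zero_iff.mpr fun i _ => bsh_ne_zero hb k i
  rw [prodB, h1]
  classical
  have hinj : Function.Injective fun i : ℕ => (i : ℚ) - 1 - k := by
    intro a b hab
    simp only at hab
    have : (a : ℚ) = b := by linarith
    exact_mod_cast this
  have h2 : ∑ i ∈ Finset.range M, b.rootMultiplicity ((i : ℚ) - 1 - k) =
      ∑ a ∈ (Finset.range M).image (fun i : ℕ => (i : ℚ) - 1 - k), b.roots.count a := by
    rw [Finset.sum_image (fun a _ b _ hab => hinj hab)]
    refine Finset.sum_congr rfl fun i _ => ?_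
    rw [Polynomial.count_roots]
  rw [h2]
  refine le_trans ?_ (Polynomial.card_roots' b)
  calc _ ≤ ∑ a ∈ (Finset.range M).image (fun i : ℕ => (i : ℚ) - 1 - k) ∪
        b.roots.toFinset, b.roots.count a :=
        Finset.sum_le_sum_of_subset Finset.subset_union_left
    _ = b.roots.card := by
        refine Multiset.sum_count_eq_card fun a ha => ?_
        exact Finset.mem_union_right _ (Multiset.mem_toFinset.mpr ha)

/-- `FEq h k b` (Sound.lean) for `shiftP (-e) G`, with `e = a - 1 - k`, gives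
`β(b) shiftP(-e)G h^k h^(K0+1) = H0 h^(k+1) h^(K0+1) + divg h K0 g0`. Multiply by `h^a` (`divg_shift` in Codim.lean: exponent `K0 + a`),
then apply `shiftP e` (`shiftP_beta, shiftP_hP, shiftP_shiftP_neg, shiftP_divg` with `K = K0 + a`, `K' = K0 + 1 + k`).
Result with `K := K0 + 1 + k`, `H := shiftP e H0`: the exponents are `k + K0 + 1 + a = a + K` and `k + 1 + K0 + 1 + a = a + 1 + K`. -/
theorem step {h : MvPolynomial (Fin n) ℚ} {k : ℕ} {b : Polynomial ℚ} (hb : FEq h k b) (a : ℕ)
    (G : Pt n) : ∃ (H : Pt n) (K : ℕ) (g : Fin n → Pt n),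
      beta n (bsh b k a) * G * hP h ^ (a + K) = H * hP h ^ (a + 1 + K) + divg h K g := by
  obtain ⟨H0, K0, g0, hid⟩ := hb (shiftP (-((a : ℚ) - 1 - k)) G)
  refine ⟨shiftP ((a : ℚ) - 1 - k) H0, K0 + 1 + k, fun l => shiftP ((a : ℚ) - 1 - k) (g0 l * hP h ^ a), ?_⟩
  have h1 := congrArg (fun F => F * hP h ^ a) hid
  simp only [add_mul, ← divg_shift] at h1
  have h2 := congrArg (shiftP ((a : ℚ) - 1 - k)) h1
  have hK : ((K0 + a : ℕ) : ℚ) = ((K0 + 1 + k : ℕ) : ℚ) + ((a : ℚ) - 1 - k) := by
    push_cast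
    ring
  simp only [CertA_add, CertA_mul, CertA_pow, shiftP_hP, shiftP_beta, shiftP_shiftP_neg] at h2
  rw [shiftP_divg hK] at h2
  beta_reduce at h2
  unfold bsh
  linear_combination h2

/-- Induction on `M`. `M = 0`: `H = G`, `K = 0`, `g = 0`. Step: from `β(c_M) G h^K = H h^(M+K) + divg h K g` and `step` with `a = M`,
`G := H`: `β(b_M) H h^(M+K1) = H1 h^(M+1+K1) + divg h K1 g1`. Multiply the first by `β(b_M) h^K1` and the second by `h^K` (`divg_shift`,
`divg_smul`, `divg_add` in Codim.lean / Ident.lean) and add. New `K` is `K + K1`. -/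
theorem chain {h : MvPolynomial (Fin n) ℚ} {k : ℕ} {b : Polynomial ℚ} (hb : FEq h k b) (M : ℕ)
    (G : Pt n) : ∃ (H : Pt n) (K : ℕ) (g : Fin n → Pt n),
      beta n (prodB b k M) * G * hP h ^ K = H * hP h ^ (M + K) + divg h K g := by
  induction M with
  | zero =>
    refine ⟨G, 0, 0, ?_⟩
    rw [divg_zero, prodB, Finset.range_zero, Finset.prod_empty, map_one]
    ring
  | succ M ih =>
    obtain ⟨H, K, g, h1⟩ := ih
    obtain ⟨H1, K1, g1, h2⟩ := step hb M H
    refine ⟨H1, K + K1, (fun l => g1 l * hP h ^ K) + (fun l => beta n (bsh b k M) * (g l * hP h ^ K1)), ?_⟩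
    have h3 : divg h (K + K1) (fun l => g1 l * hP h ^ K) = divg h K1 g1 * hP h ^ K := by
      rw [add_comm K K1]
      exact divg_shift h K1 K g1
    rw [← divg_add, divg_smul, divg_shift, h3, prodB, Finset.prod_range_succ, ← prodB, map_mul]
    linear_combination (beta n (bsh b k M) * hP h ^ K1) * h1 + hP h ^ K * h2

/-- `functional_equation h0` (Ident2.lean) gives `k, b, hb0, hb : FEq h k b`. `N := 3 * b.natDegree + 3`, `c := prodB b k (N + 1)`,
`chain hb (N + 1) (hP P)`. `normalise` (Check.lean) for `c ≠ 0`: `C a * c = X ^ c.natTrailingDegree * (1 + X * A)`. Take `r := c.natTrailingDegree ≤ b.natDegree`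
and multiply the identity by `β(C a)` (`divg_smul`). See `check_complete` in Check.lean for a model. -/
theorem exists_cert {h : MvPolynomial (Fin n) ℚ} (h0 : h ≠ 0) (P : MvPolynomial (Fin n) ℚ) :
    ∃ (r N K : ℕ) (A : Polynomial ℚ) (w : Pt n) (g : Fin n → Pt n), 3 * r + 3 ≤ N ∧
      beta n (Polynomial.X ^ r * (1 + Polynomial.X * A)) * hP P * hP h ^ K =
        w * hP h ^ (N + 1 + K) + divg h K g := by
  obtain ⟨k, b, hb0, hb⟩ := functional_equation h0
  obtain ⟨H, K, g, hid⟩ := chain (h := h) (k := k) (b := b) hb (3 * b.natDegree + 3 + 1) (hP P)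
  obtain ⟨a, A, hA⟩ := normalise (prodB_ne_zero hb0 k (3 * b.natDegree + 3 + 1))
  have hdeg := natTrailingDegree_prodB hb0 k (3 * b.natDegree + 3 + 1)
  refine ⟨(prodB b k (3 * b.natDegree + 3 + 1)).natTrailingDegree, 3 * b.natDegree + 3, K, A,
    beta n (Polynomial.C a) * H, fun l => beta n (Polynomial.C a) * g l, by omega, ?_⟩
  rw [← hA, divg_smul, map_mul]
  linear_combination beta n (Polynomial.C a) * hid

end Pool.Agent.Lib.MP_bbe012_lc.HC
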