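import Mathlib
import Pool.Agent.Lib.MP_bbe012_lc.HC.CertB
import Pool.Agent.Lib.MP_bbe012_lc.TotalComp

/-!
# The search for certificates
-/

namespace Pool.Agent.Lib.MP_bbe012_lc.HC

open MvPolynomial

/-- Certificate `(((r, N), K), (A, w), gs)`. -/
abbrev HC := ((ℕ × ℕ) × ℕ) × (PCode × PCode) × List PCode

instance instPrimcodableHC : Primcodable HC := inferInstance

/-- The difference of the two sides of the identity to be verified. -/
def hcDiff (n : ℕ) (P Q : PCode) (c : HC) : PCode :=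
  pcMul (pcMul (pcMul (pcPow (pcVar n) c.1.1.1) (pcNat 1 ++ pcMul (pcVar n) (pcShift n 1 c.2.1.1)))
    (pcTrunc n P)) (pcPow (pcTrunc n Q) c.1.2) ++
  pcNeg (pcMul c.2.1.2 (pcPow (pcTrunc n Q) (c.1.1.2 + 1 + c.1.2)) ++
    divCode n (pcTrunc n Q) c.1.2 c.2.2)

/-- The verification of a certificate. -/
def hcCheck (n : ℕ) (P Q : PCode) (c : HC) : Prop :=
  3 * c.1.1.1 + 3 ≤ c.1.1.2 ∧ pcIsZero (n + 1) (hcDiff n P Q c)

instance (n : ℕ) (P Q : PCode) (c : HC) : Decidable (hcCheck n P Q c) := by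
  unfold hcCheck; infer_instance

/-- As `check_iff` in Check.lean: `pcIsZero_iff`, `pcPoly_append, pcPoly_neg, pcPoly_mul, pcPoly_pow, pcPoly_trunc_hP, pcPoly_shift_beta,
pcPoly_divCode n (pcPoly_trunc_hP n Q)`. -/
theorem hcCheck_iff (n : ℕ) (P Q : PCode) (r N K : ℕ) (A w : PCode) (gs : List PCode) :
    hcCheck n P Q (((r, N), K), (A, w), gs) ↔ 3 * r + 3 ≤ N ∧
      beta n (Polynomial.X ^ r * (1 + Polynomial.X * polyOf A)) * hP (pcPoly n P) *
        hP (pcPoly n Q) ^ K =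
      pcPoly (n + 1) w * hP (pcPoly n Q) ^ (N + 1 + K) +
        divg (pcPoly n Q) K fun l => pcPoly (n + 1) (gs.getD l []) := by
  have hb : beta n Polynomial.X = X (Fin.last n) := by simp [beta]
  have e2 : (X ⟨n, Nat.lt_succ_self n⟩ : Pt n) = beta n Polynomial.X := by rw [hb]; rfl
  unfold hcCheck
  rw [pcIsZero_iff]
  refine and_congr Iff.rfl ?_
  unfold hcDiff
  simp only [pcPoly_mul, pcPoly_append, pcPoly_neg, pcPoly_pow, pcPoly_trunc_hP,
    pcPoly_shift_beta, pcPoly_nat, pcPoly_var (Nat.lt_succ_self n),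
    pcPoly_divCode n (pcPoly_trunc_hP n Q)]
  rw [← sub_eq_add_neg, sub_eq_zero, e2]
  simp only [map_mul, map_pow, map_add, map_one, Nat.cast_one]

/-- `exists_cert hQ (pcPoly n P)`; codes by `exists_pcPoly`, `exists_polyOf`, `List.ofFn` as in `check_complete` (Check.lean). -/
theorem exists_hcCheck {n : ℕ} (P : PCode) {Q : PCode} (hQ : pcPoly n Q ≠ 0) :
    ∃ c : HC, hcCheck n P Q c := by
  obtain ⟨r, N, K, A, w, g, hN, hid⟩ := exists_cert hQ (pcPoly n P)
  obtain ⟨Ac, hAc⟩ := exists_polyOf A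
  obtain ⟨wc, hwc⟩ := exists_pcPoly w
  choose gc hgc using fun l : Fin n => exists_pcPoly (g l)
  refine ⟨(((r, N), K), (Ac, wc), List.ofFn gc), ?_⟩
  rw [hcCheck_iff, hAc, hwc]
  refine ⟨hN, ?_⟩
  have hgl : (fun l : Fin n => pcPoly (n + 1) ((List.ofFn gc).getD l [])) = g := by
    ext1 l
    rw [← hgc l]
    congr 1
    simp [List.getD_eq_getElem?_getD]
  rw [hgl]
  exact hid

/-- As `primrec_diffCode`, `primrecPred_check` in CheckComp.lean (`pr_mul, pr_pow, pr_var, pr_append, pr_nat, pr_shift, pr_trunc, pr_neg,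
pr_divCode`, `primrecPred_pcIsZero`, `Primrec.nat_le`). -/
theorem primrecPred_hcCheck :
    PrimrecPred fun x : (ℕ × PCode × PCode) × HC => hcCheck x.1.1 x.1.2.1 x.1.2.2 x.2 := by
  have hn : Primrec fun x : (ℕ × PCode × PCode) × HC => x.1.1 := Primrec.fst.comp Primrec.fst
  have hP : Primrec fun x : (ℕ × PCode × PCode) × HC => x.1.2.1 :=
    Primrec.fst.comp (Primrec.snd.comp Primrec.fst)
  have hQ : Primrec fun x : (ℕ × PCode × PCode) × HC => x.1.2.2 :=
    Primrec.snd.comp (Primrec.snd.comp Primrec.fst)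
  have hr : Primrec fun x : (ℕ × PCode × PCode) × HC => x.2.1.1.1 :=
    Primrec.fst.comp (Primrec.fst.comp (Primrec.fst.comp Primrec.snd))
  have hN : Primrec fun x : (ℕ × PCode × PCode) × HC => x.2.1.1.2 :=
    Primrec.snd.comp (Primrec.fst.comp (Primrec.fst.comp Primrec.snd))
  have hK : Primrec fun x : (ℕ × PCode × PCode) × HC => x.2.1.2 :=
    Primrec.snd.comp (Primrec.fst.comp Primrec.snd)
  have hA : Primrec fun x : (ℕ × PCode × PCode) × HC => x.2.2.1.1 :=
    Primrec.fst.comp (Primrec.fst.comp (Primrec.snd.comp Primrec.snd))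
  have hw : Primrec fun x : (ℕ × PCode × PCode) × HC => x.2.2.1.2 :=
    Primrec.snd.comp (Primrec.fst.comp (Primrec.snd.comp Primrec.snd))
  have hg : Primrec fun x : (ℕ × PCode × PCode) × HC => x.2.2.2 :=
    Primrec.snd.comp (Primrec.snd.comp Primrec.snd)
  have hd : Primrec fun x : (ℕ × PCode × PCode) × HC => hcDiff x.1.1 x.1.2.1 x.1.2.2 x.2 :=
    pr_append (pr_mul (pr_mul (pr_mul (pr_pow (pr_var hn) hr) (pr_append (pr_nat 1)
      (pr_mul (pr_var hn) (pr_shift hn (Primrec.const 1) hA)))) (pr_trunc hn hP))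
      (pr_pow (pr_trunc hn hQ) hK))
      (pr_neg (pr_append (pr_mul hw (pr_pow (pr_trunc hn hQ)
        (Primrec.nat_add.comp (Primrec.succ.comp hN) hK)))
        (pr_divCode hn (pr_trunc hn hQ) hK hg)))
  have h1 : PrimrecPred fun x : (ℕ × PCode × PCode) × HC => 3 * x.2.1.1.1 + 3 ≤ x.2.1.1.2 :=
    Primrec.nat_le.comp (Primrec.nat_add.comp (Primrec.nat_mul.comp (Primrec.const 3) hr)
      (Primrec.const 3)) hN
  have h2 : PrimrecPred fun x : (ℕ × PCode × PCode) × HC =>
      pcIsZero (x.1.1 + 1) (hcDiff x.1.1 x.1.2.1 x.1.2.2 x.2) :=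
    primrecPred_pcIsZero.comp (Primrec.pair (Primrec.succ.comp hn) hd)
  exact h1.and h2

/-- The search for a certificate. -/
def hcSearch (R : ℕ × PCode × PCode) : Part HC :=
  Nat.rfindOpt fun m => (Encodable.decode (α := HC) m).bind fun c =>
    if hcCheck R.1 R.2.1 R.2.2 c then some c else none

/-- As `partrec_search` in Results/MP_bbe012_lc/FixedSupport.lean (or `partrec_decPair` in CheckComp.lean). -/
theorem partrec_hcSearch : Partrec hcSearch := by
  have h1 : Primrec fun y : (ℕ × PCode × PCode) × ℕ => Encodable.decode (α := HC) y.2 :=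
    Primrec.decode.comp Primrec.snd
  have h2 : PrimrecPred fun y : ((ℕ × PCode × PCode) × ℕ) × HC =>
      hcCheck y.1.1.1 y.1.1.2.1 y.1.1.2.2 y.2 :=
    primrecPred_hcCheck.comp (Primrec.pair (Primrec.fst.comp Primrec.fst) Primrec.snd)
  have h : Primrec₂ fun (R : ℕ × PCode × PCode) (m : ℕ) =>
      (Encodable.decode (α := HC) m).bind fun c =>
        if hcCheck R.1 R.2.1 R.2.2 c then some c else none :=
    Primrec.option_bind h1
      ((Primrec.ite h2 (Primrec.option_some.comp Primrec.snd) (Primrec.const none)).to₂)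
  exact Partrec.rfindOpt h.to_comp

/-- As `mem_decPair` in CheckComp.lean (`Nat.rfindOpt_spec`). -/
theorem mem_hcSearch {R : ℕ × PCode × PCode} {c : HC} (h : c ∈ hcSearch R) :
    hcCheck R.1 R.2.1 R.2.2 c := by
  obtain ⟨m, hm⟩ := Nat.rfindOpt_spec h
  obtain ⟨c', _, h2⟩ := Option.bind_eq_some_iff.mp hm
  split_ifs at h2 with hc'
  rw [← Option.some_injective _ h2]
  exact hc'

/-- As `dom_decPair` in CheckComp.lean (`Nat.rfindOpt_dom`, `Encodable.encodek`). -/
theorem dom_hcSearch {R : ℕ × PCode × PCode} (hQ : pcPoly R.1 R.2.2 ≠ 0) : (hcSearch R).Dom := by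
  obtain ⟨c, hc⟩ := exists_hcCheck R.2.1 hQ
  refine Nat.rfindOpt_dom.mpr ⟨Encodable.encode c, c, ?_⟩
  rw [Encodable.encodek]
  change (if hcCheck R.1 R.2.1 R.2.2 c then some c else none) = some c
  rw [if_pos hc]

end Pool.Agent.Lib.MP_bbe012_lc.HC
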