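import Mathlib
import Pool.Agent.Lib.MP_bbe012_lc.HC.Search
import Pool.Agent.Lib.MP_bbe012_lc.HC.BdB

/-!
# The codes used in the reduction (definitions)
-/

namespace Pool.Agent.Lib.MP_bbe012_lc.HC

open Set

/-- The coefficient of `t ^ k`, where `t = x_n`, of a polynomial in `n + 1` variables. -/
def coefT (n k : ℕ) (w : PCode) : PCode :=
  w.flatMap fun t => if t.2.getD n 0 = k then [(t.1, t.2.take n)] else []

/-- The code of `(1 - s_i) + h (1 + s_i)`, where `s_i = x_(n+i)` and `h = Q`. -/
def eCode (n : ℕ) (Q : PCode) (i : ℕ) : PCode :=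
  (pcNat 1 ++ pcNeg (pcVar (n + i))) ++ pcMul (pcTrunc n Q) (pcNat 1 ++ pcVar (n + i))

/-- The code of `1 / (i + 1)`. -/
def qinv (i : ℕ) : QCode := ((1, 0), i)

/-- The code of the constant `1 / (j! 2 ^ (r - j))`. -/
def cstCode (r j : ℕ) : PCode :=
  pcMul (pcProdRange j fun i => [(qinv i, [])]) (pcPow [(qinv 1, [])] (r - j))

/-- The coefficient of the term number `j`. -/
def wTerm (n r : ℕ) (w : PCode) (j : ℕ) : PCode :=
  pcMul (cstCode r j) (pcTrunc n (coefT n (r - j) w))

/-- The term number `j` of the numerator. -/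
def aTerm (n r N : ℕ) (Q w : PCode) (j : ℕ) : PCode :=
  pcMul (wTerm n r w j)
    (pcMul (pcMul (pcPow (pcTrunc n Q) N) (pcPow (pcTrunc n Q ++ pcNeg (pcNat 1)) j))
      (pcProdRange r fun i => if i < j then pcNat 1 else eCode n Q i))

/-- The numerator. -/
def aCode (n r N : ℕ) (Q w : PCode) : PCode := pcSumRange (r + 1) (aTerm n r N Q w)

/-- The denominator. -/
def dCode (n r : ℕ) (Q : PCode) : PCode := pcProdRange r (eCode n Q)

/-- Sums of natural numbers. -/
def natSum (R : ℕ) (g : ℕ → ℕ) : ℕ := (List.range R).foldr (fun i a => g i + a) 0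

/-- A common bound for all polynomials involved. -/
def bB (n r : ℕ) (Q w : PCode) : ℕ :=
  1 + pcK (pcTrunc n Q) + pcK (pcTrunc n Q ++ pcNeg (pcNat 1)) +
    natSum (r + 1) (fun j => pcK (wTerm n r w j)) + natSum r (fun i => pcK (eCode n Q i))

/-- The bound for the quotient and its first two derivatives. -/
def cB (n r N : ℕ) (Q w : PCode) : ℕ := (r + 1) * (4 * (18 * bB n r Q w ^ 6)) ^ (N + 1)

/-- The substitution `x_i ↦ - x_i`. -/
def pcFlip (i : ℕ) (p : PCode) : PCode :=
  p.map fun t => (if t.2.getD i 0 % 2 = 1 then qneg t.1 else t.1, t.2)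

/-- Symmetrisation of a fraction in the coordinate `x_i`. -/
def symStep (i : ℕ) (s : PCode × PCode) : PCode × PCode :=
  (pcMul s.1 (pcFlip i s.2) ++ pcMul (pcFlip i s.1) s.2,
    pcMul (pcNat 2) (pcMul s.2 (pcFlip i s.2)))

/-- Symmetrisation of a fraction in the coordinates `x_0, ..., x_(k-1)`. -/
def symN (k : ℕ) (s : PCode × PCode) : PCode × PCode := k.rec s fun i t => symStep i t

/-- Numerator of the function whose graph bounds the convex body. -/
def nCode (m C : ℕ) (s : PCode × PCode) : PCode :=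
  pcTrunc m (pcMul (pcNat (6 * (m + 1) * C) ++ pcMul (pcNat C) (pcSumRange m fun i =>
    pcNat 1 ++ pcNeg (pcMul (pcNat 3) (pcMul (pcVar i) (pcVar i))))) s.2 ++ pcMul (pcNat 3) s.1)

/-- Denominator of the function whose graph bounds the convex body. -/
def tCode (m C : ℕ) (s : PCode × PCode) : PCode :=
  pcTrunc m (pcMul (pcNat (12 * (m + 1) * C)) s.2)

/-- The polynomial which defines the convex body. -/
def fCode (m C : ℕ) (s : PCode × PCode) : PCode :=
  pcMul (nCode m C s) (nCode m C s) ++
    pcNeg (pcMul (pcMul (tCode m C s) (tCode m C s)) (pcMul (pcVar m) (pcVar m)))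

/-- The fraction attached to a certificate. -/
def ratCert (R : ℕ × PCode × PCode) (c : HC) : PCode × PCode :=
  (aCode R.1 c.1.1.1 c.1.1.2 R.2.2 c.2.1.2, dCode R.1 c.1.1.1 R.2.2)

/-- The number of variables of the fraction attached to a certificate. -/
def mOf (R : ℕ × PCode × PCode) (c : HC) : ℕ := R.1 + c.1.1.1

/-- The bound attached to a certificate. -/
def cOf (R : ℕ × PCode × PCode) (c : HC) : ℕ := cB R.1 c.1.1.1 c.1.1.2 R.2.2 c.2.1.2

/-- The polynomial (with its number of variables) attached to a certificate. -/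
def coinOf (R : ℕ × PCode × PCode) (c : HC) : ℕ × PCode :=
  (mOf R c + 1, fCode (mOf R c) (cOf R c) (symN (mOf R c) (ratCert R c)))

/-- The bounded fraction (with its number of variables) attached to a certificate. -/
def bddOf (R : ℕ × PCode × PCode) (c : HC) : ℕ × PCode × PCode :=
  (mOf R c, ((ratCert R c).1, pcMul (pcNat (cOf R c)) (ratCert R c).2))

/-- The set of the points of the open cube at which a polynomial is positive. -/
def posCube (F : ℕ × PCode) : Set (Fin F.1 → ℝ) := {x | x ∈ cube F.1 ∧ 0 < pcEval F.1 F.2 x}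

theorem one_le_bB (n r : ℕ) (Q w : PCode) : 1 ≤ bB n r Q w := by
  unfold bB; omega

theorem one_le_cB (n r N : ℕ) (Q w : PCode) : 1 ≤ cB n r N Q w := by
  have h := one_le_bB n r Q w
  have h1 : 0 < bB n r Q w ^ 6 := by positivity
  have h2 : 0 < (4 * (18 * bB n r Q w ^ 6)) ^ (N + 1) := by positivity
  unfold cB
  exact Nat.mul_pos (Nat.succ_pos r) h2

end Pool.Agent.Lib.MP_bbe012_lc.HC
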