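import Mathlib
import Pool.Agent.Lib.MP_bbe012_lc.Bd

/-!
# Powers of logarithms as integrals over a cube
-/

namespace Pool.Agent.Lib.MP_bbe012_lc.HC

open MeasureTheory Set

/-- The denominator in the integral for the logarithm. -/
def EE (h s : ℝ) : ℝ := (1 - s) + h * (1 + s)

/-- elementary: `1 - s > 0`, `1 + s > 0`. -/
theorem EE_pos {h s : ℝ} (hh : 0 < h) (hs : s ∈ Ioo (-1 : ℝ) 1) : 0 < EE h s := by
  unfold EE
  have h1 : 0 < 1 - s := by linarith [hs.2]
  have h2 : 0 < 1 + s := by linarith [hs.1]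
  positivity

/-- `h ≤ B * E` when `h ≤ B` and `1 ≤ B`.
If `h ≤ 1` then `EE ≥ 2 h`; if `h > 1` then `EE ≥ 2` and `h ≤ B`. -/
theorem le_mul_EE {h s B : ℝ} (hh : 0 < h) (hB : 1 ≤ B) (hhB : h ≤ B) (hs : s ∈ Ioo (-1 : ℝ) 1) :
    h ≤ B * EE h s := by
  have h1 : 0 < 1 - s := by linarith [hs.2]
  have h2 : 0 < 1 + s := by linarith [hs.1]
  have hE : 0 < EE h s := EE_pos hh hs
  rcases le_total h 1 with h3 | h3
  · have h4 : 2 * h ≤ EE h s := by
      unfold EE
      nlinarith [mul_nonneg (sub_nonneg.2 h3) h1.le]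
    have h5 : EE h s ≤ B * EE h s := by nlinarith
    linarith
  · have h4 : 2 ≤ EE h s := by
      unfold EE
      nlinarith [mul_nonneg (sub_nonneg.2 h3) h2.le]
    have h5 : B * 2 ≤ B * EE h s := by nlinarith
    linarith

/-- `integral_Ioc_eq_integral_Ioo`, `intervalIntegral.integral_eq_sub_of_hasDerivAt` with the antiderivative `s ↦ log (EE h s)` (`EE h s > 0` on `[-1, 1]`):
`log (2 h) - log 2 = log h`. -/
theorem integral_log {h : ℝ} (hh : 0 < h) :
    ∫ s in Ioo (-1 : ℝ) 1, (h - 1) / EE h s = Real.log h := by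
  rw [← integral_Ioc_eq_integral_Ioo, ← intervalIntegral.integral_of_le (by norm_num)]
  have hpos : ∀ s ∈ Icc (-1 : ℝ) 1, 0 < EE h s := by
    intro s hs
    unfold EE
    have h1 : 0 ≤ 1 - s := by linarith [hs.2]
    have h2 : 0 ≤ 1 + s := by linarith [hs.1]
    rcases h1.eq_or_lt with h3 | h3
    · have h4 : 0 < 1 + s := by linarith
      rw [← h3, zero_add]
      positivity
    · positivity
  have hd : ∀ s ∈ uIcc (-1 : ℝ) 1, HasDerivAt (fun s => Real.log (EE h s)) ((h - 1) / EE h s) s := by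
    intro s hs
    rw [uIcc_of_le (by norm_num)] at hs
    have h1 : HasDerivAt (fun s => EE h s) (h - 1) s := by
      have h2 : HasDerivAt (fun s : ℝ => (1 - s) + h * (1 + s)) (-1 + h * 1) s := by
        have h3 : HasDerivAt (fun s : ℝ => 1 - s) (-1) s := by
          simpa using (hasDerivAt_id s).const_sub 1
        have h4 : HasDerivAt (fun s : ℝ => h * (1 + s)) (h * 1) s := by
          have h5 : HasDerivAt (fun s : ℝ => 1 + s) 1 s := by
            simpa using (hasDerivAt_id s).const_add 1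
          exact h5.const_mul h
        exact h3.add h4
      have h6 : h - 1 = -1 + h * 1 := by ring
      rw [h6]
      exact h2
    exact h1.log (hpos s hs).ne'
  have hc : IntervalIntegrable (fun s => (h - 1) / EE h s) volume (-1) 1 := by
    apply ContinuousOn.intervalIntegrable
    rw [uIcc_of_le (by norm_num)]
    apply ContinuousOn.div continuousOn_const
    · unfold EE
      fun_prop
    · intro s hs
      exact (hpos s hs).ne'
  rw [intervalIntegral.integral_eq_sub_of_hasDerivAt hd hc]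
  have e1 : EE h 1 = h * 2 := by unfold EE; ring
  have e2 : EE h (-1) = 2 := by unfold EE; ring
  rw [e1, e2, Real.log_mul hh.ne' (by norm_num)]
  ring

theorem LogA_cube_eq (r : ℕ) : cube r = Set.pi univ fun _ => Ioo (-1 : ℝ) 1 := by
  ext y
  simp [cube]

/-- Integrals over the cube of products of functions of one variable.
Indicators: `∫ s in cube r, ∏ φ_i(s_i) = ∫ s, ∏ (indicator (Ioo (-1) 1) φ_i) (s_i)` (the indicator of the cube is a product), then
`MeasureTheory.integral_fintype_prod_volume_eq_prod` (or the version with this or a similar name), `integral_indicator`. -/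
theorem integral_cube_prod (r : ℕ) (φ : Fin r → ℝ → ℝ) :
    ∫ s in cube r, ∏ i, φ i (s i) = ∏ i, ∫ s in Ioo (-1 : ℝ) 1, φ i s := by
  rw [LogA_cube_eq, volume_pi, Measure.restrict_pi_pi]
  exact integral_fintype_prod_eq_prod (fun i => φ i)

theorem integral_one_Ioo : ∫ _s in Ioo (-1 : ℝ) 1, (1 : ℝ) = 2 := by
  rw [setIntegral_const]
  rw [measureReal_def, Real.volume_Ioo]
  norm_num

/-- `cube m = Set.pi univ fun _ => Ioo (-1) 1`, `Real.volume_pi_Ioo` (or `volume_pi_pi`). -/
theorem volume_cube (m : ℕ) : volume (cube m) = 2 ^ m := by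
  rw [LogA_cube_eq, Real.volume_pi_Ioo]
  norm_num

end Pool.Agent.Lib.MP_bbe012_lc.HC
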