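import Mathlib
import Pool.Agent.Lib.MP_bbe012_lc.HC.Codes
import Pool.Agent.Lib.MP_bbe012_lc.HC.LogA

/-!
# Volumes and bounded integrals over the cube are periods
-/

namespace Pool.Agent.Lib.MP_bbe012_lc.HC

open MeasureTheory Set

/-- The system which defines the open cube. -/
def cubeSys (n : ℕ) : SysCode := (List.range n).map fun i => (true, uCode i)

private theorem Dir_nil (n : ℕ) : sysSet n [] = univ := by
  ext x
  simp [sysSet]

theorem mem_cubeSys (n : ℕ) (x : Fin n → ℝ) : x ∈ sysSet n (cubeSys n) ↔ x ∈ cube n := by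
  have h1 : bdSys n [] = cubeSys n := rfl
  rw [← h1, mem_bdSys, Dir_nil]
  simp

private theorem Dir_int0 (f : (Fin 0 → ℝ) → ℝ) : ∫ x : Fin 0 → ℝ, f x = f 0 := by
  rw [Measure.volume_pi_eq_dirac (0 : Fin 0 → ℝ), integral_dirac]

private theorem Dir_one_ne (n : ℕ) : pcPoly n (pcNat 1) ≠ 0 := by
  refine pcPoly_ne_zero_of_eval (n := n) (p := pcNat 1) (x := 0) ?_
  rw [pcEval_nat]; norm_num

private theorem Dir_zero (P : PCode) : Admissible (0, (P, pcNat 1), []) ∧
    value (0, (P, pcNat 1), []) = pcEval 0 P 0 := by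
  have h1 : domain (0, (P, pcNat 1), []) = univ := Dir_nil 0
  refine ⟨⟨Dir_one_ne 0, ?_⟩, ?_⟩
  · rw [h1, integrableOn_univ]
    show Integrable _ (volume : Measure (Fin 0 → ℝ))
    rw [Measure.volume_pi_eq_dirac (0 : Fin 0 → ℝ)]
    exact integrable_dirac (by simp [enorm_lt_top])
  · unfold value
    rw [h1, setIntegral_univ]
    have h2 := Dir_int0 (integrand (0, (P, pcNat 1), []))
    refine h2.trans ?_
    show pcEval 0 P 0 / pcEval 0 (pcNat 1) 0 = _
    rw [pcEval_nat]
    norm_num

/-- The code of the constant `q` as an explicit integral over `ℝ^0`. -/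
def constInt (q : QCode) : IntCode := (0, ([(q, [])], pcNat 1), [])

theorem constInt_spec (q : QCode) : Admissible (constInt q) ∧ value (constInt q) = qval q := by
  have h := Dir_zero [(q, [])]
  refine ⟨h.1, h.2.trans ?_⟩
  rw [pcEval_cons, pcEval_nil]
  simp

private theorem Dir_zeroInt : Admissible (constInt (qnat 0)) ∧ value (constInt (qnat 0)) = 0 := by
  have h := constInt_spec (qnat 0)
  refine ⟨h.1, h.2.trans ?_⟩
  rw [qval_qnat]
  norm_num

private theorem Dir_period (X : IntCode) : period (X, constInt (qnat 0)) = (value X : ℂ) := by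
  unfold period
  rw [Dir_zeroInt.2]
  rfl

/-- The code of the integral of `2` over the set `posCube F`. -/
def volCode (F : ℕ × PCode) : IntCode := (F.1, (pcNat 2, pcNat 1), (true, F.2) :: cubeSys F.1)

private theorem Dir_mem (F : ℕ × PCode) (x : Fin F.1 → ℝ) :
    x ∈ sysSet F.1 ((true, F.2) :: cubeSys F.1) ↔ x ∈ posCube F := by
  have h1 := mem_cubeSys F.1 x
  unfold sysSet posCube at *
  simp only [mem_setOf_eq] at h1 ⊢
  rw [List.forall_mem_cons, ← h1]
  simp only [forall_const, reduceCtorEq, false_implies, and_true]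
  exact and_comm

private theorem Dir_domain (F : ℕ × PCode) : domain (volCode F) = posCube F :=
  Set.ext fun x => Dir_mem F x

private theorem Dir_vol_lt (F : ℕ × PCode) : volume (posCube F) < ⊤ :=
  lt_of_le_of_lt (measure_mono fun _ hx => hx.1) isBounded_cube.measure_lt_top

/-- The volume is finite as the set is contained in the cube. -/
theorem volCode_spec (F : ℕ × PCode) :
    Admissible (volCode F) ∧ value (volCode F) = 2 * (volume (posCube F)).toReal := by
  have h1 : integrand (volCode F) = fun _ => (2 : ℝ) := by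
    funext x
    show pcEval F.1 (pcNat 2) x / pcEval F.1 (pcNat 1) x = 2
    rw [pcEval_nat, pcEval_nat]
    norm_num
  refine ⟨⟨Dir_one_ne F.1, ?_⟩, ?_⟩
  · rw [Dir_domain, h1]
    exact integrableOn_const (Dir_vol_lt F).ne
  · unfold value
    rw [Dir_domain, h1]
    have h2 : ∫ _x in posCube F, (2 : ℝ) = volume.real (posCube F) • (2 : ℝ) :=
      setIntegral_const (2 : ℝ)
    refine h2.trans ?_
    rw [smul_eq_mul, mul_comm]
    rfl

/-- The code of the constant `2 ^ n`. -/
def powCode (n : ℕ) : IntCode := (0, (pcPow (pcNat 2) n, pcNat 1), [])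

theorem powCode_spec (n : ℕ) : Admissible (powCode n) ∧ value (powCode n) = 2 ^ n := by
  have h := Dir_zero (pcPow (pcNat 2) n)
  refine ⟨h.1, h.2.trans ?_⟩
  rw [pcEval_pow, pcEval_nat]
  norm_num

/-- The pair of periods whose equality means that the polynomial is positive on half of the cube. -/
def coinPair (F : ℕ × PCode) : PeriodCode × PeriodCode :=
  ((volCode F, constInt (qnat 0)), (powCode F.1, constInt (qnat 0)))

private theorem Dir_primrec_cubeSys {α : Type} [Primcodable α] {n : α → ℕ} (hn : Primrec n) :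
    Primrec fun a => cubeSys (n a) := by
  have h1 : Primrec fun a => bdSys (n a) [] := pr_bdSys hn (Primrec.const [])
  exact h1

theorem primrec_coinPair : Primrec coinPair := by
  have h1 : Primrec volCode :=
    Primrec.pair Primrec.fst (Primrec.pair (Primrec.const (pcNat 2, pcNat 1))
      (Primrec.list_cons.comp (Primrec.pair (Primrec.const true) Primrec.snd)
        (Dir_primrec_cubeSys Primrec.fst)))
  have h2 : Primrec fun F : ℕ × PCode => powCode F.1 :=
    Primrec.pair (Primrec.const 0) (Primrec.pair (Primrec.pair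
      (pr_pow (Primrec.const (pcNat 2)) Primrec.fst) (Primrec.const (pcNat 1))) (Primrec.const []))
  exact Primrec.pair (Primrec.pair h1 (Primrec.const (constInt (qnat 0))))
    (Primrec.pair h2 (Primrec.const (constInt (qnat 0))))

/-- `2 * volume = 2 ^ n` in `ENNReal` iff the real numbers are equal. -/
theorem coinPair_spec (F : ℕ × PCode) :
    (PeriodAdmissible (coinPair F).1 ∧ PeriodAdmissible (coinPair F).2) ∧
      (period (coinPair F).1 = period (coinPair F).2 ↔ 2 * volume (posCube F) = 2 ^ F.1) := by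
  refine ⟨⟨⟨(volCode_spec F).1, Dir_zeroInt.1⟩, ⟨(powCode_spec F.1).1, Dir_zeroInt.1⟩⟩, ?_⟩
  show period (volCode F, constInt (qnat 0)) = period (powCode F.1, constInt (qnat 0)) ↔ _
  rw [Dir_period, Dir_period, Complex.ofReal_inj, (volCode_spec F).2, (powCode_spec F.1).2]
  have hfin := (Dir_vol_lt F).ne
  have h2 : (2 * volume (posCube F)).toReal = 2 * (volume (posCube F)).toReal := by
    rw [ENNReal.toReal_mul]
    norm_num
  have h3 : ((2 : ENNReal) ^ F.1).toReal = 2 ^ F.1 := by
    rw [ENNReal.toReal_pow]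
    norm_num
  rw [← h2, ← h3]
  exact ENNReal.toReal_eq_toReal_iff' (ENNReal.mul_ne_top (by norm_num) hfin)
    (ENNReal.pow_ne_top (by norm_num))

/-- The integral of a fraction over the cube as a period. -/
def bddPair (R : ℕ × PCode × PCode) : PeriodCode × PeriodCode :=
  (((R.1, (R.2.1, R.2.2), cubeSys R.1), constInt (qnat 0)), (constInt (qnat 0), constInt (qnat 0)))

theorem primrec_bddPair : Primrec bddPair :=
  Primrec.pair (Primrec.pair
    (Primrec.pair Primrec.fst (Primrec.pair (Primrec.pair (Primrec.fst.comp Primrec.snd)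
      (Primrec.snd.comp Primrec.snd)) (Dir_primrec_cubeSys Primrec.fst)))
    (Primrec.const (constInt (qnat 0))))
    (Primrec.const (constInt (qnat 0), constInt (qnat 0)))

/-- The fraction is bounded by `1` on the cube, hence integrable. -/
theorem bddPair_spec (R : ℕ × PCode × PCode) (h : ∀ x ∈ cube R.1, 0 < pcEval R.1 R.2.2 x ∧
      |pcEval R.1 R.2.1 x| ≤ pcEval R.1 R.2.2 x) :
    (PeriodAdmissible (bddPair R).1 ∧ PeriodAdmissible (bddPair R).2) ∧
      (period (bddPair R).1 = period (bddPair R).2 ↔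
        ∫ x in cube R.1, pcEval R.1 R.2.1 x / pcEval R.1 R.2.2 x = 0) := by
  have hdom : domain (R.1, (R.2.1, R.2.2), cubeSys R.1) = cube R.1 :=
    Set.ext fun x => mem_cubeSys R.1 x
  have hne : pcPoly R.1 R.2.2 ≠ 0 := by
    refine pcPoly_ne_zero_of_eval (n := R.1) (p := R.2.2) (x := 0) ?_
    exact (h 0 (fun i => by simp)).1.ne'
  have hmeas : MeasurableSet (cube R.1) := isOpen_cube.measurableSet
  have hint : IntegrableOn (fun x : Fin R.1 → ℝ => pcEval R.1 R.2.1 x / pcEval R.1 R.2.2 x)
      (cube R.1) := by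
    refine Measure.integrableOn_of_bounded (M := 1) isBounded_cube.measure_lt_top.ne
      ((measurable_pcEval _ _).div (measurable_pcEval _ _)).aestronglyMeasurable ?_
    refine (ae_restrict_mem hmeas).mono fun x hx => ?_
    have h1 := h x hx
    rw [Real.norm_eq_abs, abs_div, abs_of_pos h1.1, div_le_one h1.1]
    exact h1.2
  have hadm : Admissible (R.1, (R.2.1, R.2.2), cubeSys R.1) := by
    refine ⟨hne, ?_⟩
    rw [hdom]
    exact hint
  refine ⟨⟨⟨hadm, Dir_zeroInt.1⟩, ⟨Dir_zeroInt.1, Dir_zeroInt.1⟩⟩, ?_⟩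
  show period ((R.1, (R.2.1, R.2.2), cubeSys R.1), constInt (qnat 0)) =
    period (constInt (qnat 0), constInt (qnat 0)) ↔ _
  rw [Dir_period, Dir_period, Complex.ofReal_inj, Dir_zeroInt.2]
  have hval : value (R.1, (R.2.1, R.2.2), cubeSys R.1) =
      ∫ x in cube R.1, pcEval R.1 R.2.1 x / pcEval R.1 R.2.2 x := by
    unfold value
    rw [hdom]
    rfl
  rw [hval]

end Pool.Agent.Lib.MP_bbe012_lc.HC
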