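import Mathlib
import Pool.Agent.Lib.MP_bbe012_lc.Split
import Pool.Agent.Lib.MP_bbe012_lc.HC.LogA

/-!
# Powers of logarithms as integrals over a cube, Fubini's theorem
-/

namespace Pool.Agent.Lib.MP_bbe012_lc.HC

open MeasureTheory Set

theorem LogB_aux1 {r j : ℕ} (hj : j ≤ r) (a b : ℝ) :
    ∏ i : Fin r, (if (i : ℕ) < j then a else b) = a ^ j * b ^ (r - j) := by
  rw [Fin.prod_univ_eq_prod_range (fun i => if i < j then a else b) r]
  obtain ⟨k, rfl⟩ := Nat.exists_eq_add_of_le hj
  rw [Finset.prod_range_add, Nat.add_sub_cancel_left]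
  congr 1
  · rw [Finset.prod_congr rfl (fun i hi => if_pos (Finset.mem_range.1 hi)), Finset.prod_const, Finset.card_range]
  · rw [Finset.prod_congr rfl (fun i _ => if_neg (by omega)), Finset.prod_const, Finset.card_range]

theorem LogB_aux2 (m : ℕ) {f : (Fin m → ℝ) → ℝ} (hf : Continuous f) : IntegrableOn f (cube m) := by
  have hsub : cube m ⊆ Icc (fun _ => (-1 : ℝ)) (fun _ => (1 : ℝ)) := by
    intro z hz
    exact ⟨fun i => (hz i).1.le, fun i => (hz i).2.le⟩
  exact (hf.continuousOn.integrableOn_compact isCompact_Icc).mono_set hsub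

theorem LogB_aux3 : ∫ s in Ioo (-1 : ℝ) 1, (1 / 3 - s ^ 2) = 0 := by
  rw [← integral_Ioc_eq_integral_Ioo, ← intervalIntegral.integral_of_le (by norm_num),
    intervalIntegral.integral_sub (Continuous.intervalIntegrable (by fun_prop) _ _)
      (Continuous.intervalIntegrable (by fun_prop) _ _), intervalIntegral.integral_const, integral_pow]
  norm_num

/-- `integral_cube_prod` with `φ i s = if i < j then (h - 1) / EE h s else 1`; the product of the `(h - 1)` over `i < j` is `(h - 1)^j`
(`Finset.prod_ite`, `Fin` cardinalities), the product of the integrals is `log h ^ j * 2 ^ (r - j)`. -/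
theorem integral_log_pow {h : ℝ} (hh : 0 < h) {r j : ℕ} (hj : j ≤ r) :
    ∫ s in cube r, (h - 1) ^ j / ∏ i : Fin r, (if (i : ℕ) < j then EE h (s i) else 1) =
      Real.log h ^ j * 2 ^ (r - j) := by
  have h1 : ∀ s : Fin r → ℝ, (h - 1) ^ j / ∏ i : Fin r, (if (i : ℕ) < j then EE h (s i) else 1)
      = ∏ i : Fin r, (fun (i : Fin r) (t : ℝ) => if (i : ℕ) < j then (h - 1) / EE h t else 1) i (s i) := by
    intro s
    have h2 : (h - 1) ^ j = ∏ i : Fin r, (if (i : ℕ) < j then (h - 1) else 1) := by
      rw [LogB_aux1 hj, one_pow, mul_one]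
    rw [h2, ← Finset.prod_div_distrib]
    refine Finset.prod_congr rfl fun i _ => ?_
    by_cases hi : (i : ℕ) < j
    · simp only [if_pos hi]
    · simp only [if_neg hi, div_one]
  rw [integral_congr_ae (Filter.Eventually.of_forall h1),
    integral_cube_prod r (fun (i : Fin r) (t : ℝ) => if (i : ℕ) < j then (h - 1) / EE h t else 1), ← LogB_aux1 hj]
  refine Finset.prod_congr rfl fun i _ => ?_
  by_cases hi : (i : ℕ) < j
  · simp only [if_pos hi]
    exact integral_log hh
  · simp only [if_neg hi]
    exact integral_one_Ioo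

/-- The mean of `1/3 - z_i ^ 2` over the cube is zero.
For each `i`: `integral_cube_prod` with `φ i s = 1/3 - s^2` and `φ l = 1` for `l ≠ i`; the factor `∫ s in Ioo (-1) 1, (1/3 - s^2)` is `0`.
`integral_finsetSum` (continuous functions are integrable on the bounded cube). -/
theorem integral_third (m : ℕ) :
    ∫ z in cube m, ∑ i : Fin m, (1 / 3 - z i ^ 2) = 0 := by
  rw [integral_finsetSum _ fun i _ => LogB_aux2 m (by fun_prop)]
  refine Finset.sum_eq_zero fun i _ => ?_
  have h1 : ∀ z : Fin m → ℝ, (1 / 3 - z i ^ 2)
      = ∏ l : Fin m, (fun (l : Fin m) (t : ℝ) => if l = i then 1 / 3 - t ^ 2 else 1) l (z l) := by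
    intro z
    rw [Finset.prod_eq_single i]
    · simp
    · intro l _ hl
      simp [hl]
    · intro h
      exact absurd (Finset.mem_univ _) h
  rw [integral_congr_ae (Filter.Eventually.of_forall h1),
    integral_cube_prod m (fun (l : Fin m) (t : ℝ) => if l = i then 1 / 3 - t ^ 2 else 1)]
  refine Finset.prod_eq_zero (Finset.mem_univ i) ?_
  simp only [if_true]
  exact LogB_aux3

/-- Fubini's theorem for the cube.
`split a b`, `split_apply`, `measurePreserving_split` (Split.lean; import it), `integral_prod` for the indicators; `Fin.append_left`, `Fin.append_right`. -/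
theorem integral_cube_add (a b : ℕ) (G : (Fin (a + b) → ℝ) → ℝ) (hG : IntegrableOn G (cube (a + b))) :
    ∫ z in cube (a + b), G z = ∫ x in cube a, ∫ s in cube b, G (Fin.append x s) := by
  have hm : ∀ m : ℕ, MeasurableSet (cube m) := by
    intro m
    have : cube m = Set.pi univ fun _ => Ioo (-1 : ℝ) 1 := by
      ext z
      simp [cube]
    rw [this]
    exact MeasurableSet.univ_pi fun _ => measurableSet_Ioo
  have hsymm : ∀ (x : Fin a → ℝ) (s : Fin b → ℝ), (split a b).symm (x, s) = Fin.append x s := by
    intro x s
    rw [MeasurableEquiv.symm_apply_eq, split_apply]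
    ext i
    · simp
    · simp
  have hind : ∀ (x : Fin a → ℝ) (s : Fin b → ℝ), (cube (a + b)).indicator G (Fin.append x s)
      = (cube a).indicator (fun x => (cube b).indicator (fun s => G (Fin.append x s)) s) x := by
    intro x s
    have h1 : Fin.append x s ∈ cube (a + b) ↔ x ∈ cube a ∧ s ∈ cube b := by
      constructor
      · intro h
        refine ⟨fun i => ?_, fun i => ?_⟩
        · have := h (Fin.castAdd b i)
          rwa [Fin.append_left] at this
        · have := h (Fin.natAdd a i)
          rwa [Fin.append_right] at this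
      · rintro ⟨h1, h2⟩ i
        refine Fin.addCases (fun i => ?_) (fun i => ?_) i
        · rw [Fin.append_left]
          exact h1 i
        · rw [Fin.append_right]
          exact h2 i
    by_cases hx : x ∈ cube a
    · by_cases hs : s ∈ cube b
      · rw [indicator_of_mem (h1.2 ⟨hx, hs⟩), indicator_of_mem hx, indicator_of_mem hs]
      · rw [indicator_of_notMem (fun h => hs (h1.1 h).2), indicator_of_mem hx, indicator_of_notMem hs]
    · rw [indicator_of_notMem (fun h => hx (h1.1 h).1), indicator_of_notMem hx]
  have hF : Integrable ((cube (a + b)).indicator G) := (integrable_indicator_iff (hm _)).2 hG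
  have hmp := (measurePreserving_split a b).symm
  have hF2 : Integrable (fun w : (Fin a → ℝ) × (Fin b → ℝ) => (cube (a + b)).indicator G ((split a b).symm w)) :=
    hmp.integrable_comp_of_integrable hF
  rw [← integral_indicator (hm _), ← hmp.integral_comp (MeasurableEquiv.measurableEmbedding _)]
  rw [Measure.volume_eq_prod] at hF2 ⊢
  rw [integral_prod _ hF2, ← integral_indicator (hm a)]
  refine integral_congr_ae (Filter.Eventually.of_forall fun x => ?_)
  show ∫ s, (cube (a + b)).indicator G ((split a b).symm (x, s)) = _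
  simp only [hsymm, hind]
  by_cases hx : x ∈ cube a
  · rw [indicator_of_mem hx]
    simp only [indicator_of_mem hx]
    rw [integral_indicator (hm b)]
  · rw [indicator_of_notMem hx]
    simp only [indicator_of_notMem hx]
    exact integral_zero _ _

end Pool.Agent.Lib.MP_bbe012_lc.HC
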