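import Mathlib
import Pool.Agent.Lib.MP_bbe012_lc.HC.Codes
import Pool.Agent.Lib.MP_bbe012_lc.HC.LogA

/-!
# The values of the polynomials used in the reduction
-/

namespace Pool.Agent.Lib.MP_bbe012_lc.HC

open Set

theorem Eval_coefT_cons (n k : ℕ) (a : QCode × List ℕ) (w : PCode) :
    coefT n k (a :: w) =
      (if a.2.getD n 0 = k then [(a.1, a.2.take n)] else []) ++ coefT n k w := by
  rw [coefT, coefT, List.flatMap_cons]

/-- The expansion in powers of the last variable.
Induction on `w` (`pcEval_cons` in Eval.lean, `Fin.prod_univ_castSucc`, `Fin.snoc_castSucc`, `Fin.snoc_last`, `getD_take`): a term whose exponent of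
`x_n` is `e ≤ pcDeg w < R` contributes to the summand `k = e` only. -/
theorem pcEval_coefT (n : ℕ) (w : PCode) {R : ℕ} (hR : pcDeg w < R) (x : Fin n → ℝ) (t : ℝ) :
    pcEval (n + 1) w (Fin.snoc x t : Fin (n + 1) → ℝ) =
      ∑ k ∈ Finset.range R, t ^ k * pcEval n (coefT n k w) x := by
  induction w with
  | nil =>
    have h : ∀ k, coefT n k [] = [] := fun k => rfl
    simp [h]
  | cons a w ih =>
    have hd : pcDeg (a :: w) = max (a.2.foldr max 0) (pcDeg w) := rfl
    have h1 : a.2.getD n 0 < R :=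
      lt_of_le_of_lt ((getD_le_foldr_max _ _).trans (hd ▸ le_max_left _ _)) hR
    have h2 : pcDeg w < R := lt_of_le_of_lt (hd ▸ le_max_right _ _) hR
    have hk : ∀ k, pcEval n (coefT n k (a :: w)) x =
        (if a.2.getD n 0 = k then (qval a.1 : ℝ) * ∏ i : Fin n, x i ^ a.2.getD i 0 else 0) +
          pcEval n (coefT n k w) x := by
      intro k
      rw [Eval_coefT_cons, pcEval_append]
      congr 1
      split_ifs with h
      · rw [pcEval_cons, pcEval_nil, add_zero]
        congr 1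
        refine Finset.prod_congr rfl fun i _ => ?_
        rw [getD_take, if_pos i.2]
      · exact pcEval_nil _ _
    rw [pcEval_cons, ih h2, Fin.prod_univ_castSucc]
    simp only [hk, mul_add, Finset.sum_add_distrib, Fin.snoc_castSucc, Fin.snoc_last,
      Fin.val_castSucc, Fin.val_last]
    congr 1
    have h3 : ∀ k ∈ Finset.range R, t ^ k * (if a.2.getD n 0 = k then
        (qval a.1 : ℝ) * ∏ i : Fin n, x i ^ a.2.getD i 0 else 0) =
        if a.2.getD n 0 = k then (qval a.1 : ℝ) *
          ((∏ i : Fin n, x i ^ a.2.getD i 0) * t ^ a.2.getD n 0) else 0 := by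
      intro k _
      split_ifs with h
      · rw [← h]; ring
      · ring
    rw [Finset.sum_congr rfl h3, Finset.sum_ite_eq, if_pos (Finset.mem_range.mpr h1)]

theorem Eval_trunc (n r : ℕ) (Q : PCode) (z : Fin (n + r) → ℝ) :
    pcEval (n + r) (pcTrunc n Q) z = pcEval n Q fun l => z (Fin.castAdd r l) := by
  rw [pcEval_trunc (Nat.le_add_right n r)]
  rfl

/-- `pcEval_append, pcEval_neg, pcEval_nat, pcEval_mul, pcEval_var, pcEval_trunc`. -/
theorem pcEval_eCode (n r : ℕ) (Q : PCode) (i : Fin r) (z : Fin (n + r) → ℝ) :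
    pcEval (n + r) (eCode n Q i) z =
      EE (pcEval n Q fun l => z (Fin.castAdd r l)) (z (Fin.natAdd n i)) := by
  have h : n + (i : ℕ) < n + r := by have := i.2; omega
  have h2 : (⟨n + (i : ℕ), h⟩ : Fin (n + r)) = Fin.natAdd n i := rfl
  rw [eCode, pcEval_append, pcEval_append, pcEval_neg, pcEval_mul, pcEval_append, pcEval_nat,
    pcEval_var h, Eval_trunc, h2, EE]
  push_cast
  ring

theorem Eval_qinv (m i : ℕ) (z : Fin m → ℝ) :
    pcEval m [(qinv i, [])] z = 1 / ((i : ℝ) + 1) := by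
  rw [pcEval_cons, pcEval_nil]
  simp [qinv, qval]

/-- `pcEval_mul, pcEval_pow, pcEval_prodRange, pcEval_cons`; `∏ i : Fin j, 1 / (i + 1) = 1 / j!`. -/
theorem pcEval_cst (m r j : ℕ) (z : Fin m → ℝ) :
    pcEval m (cstCode r j) z = 1 / ((j.factorial : ℝ) * 2 ^ (r - j)) := by
  have h : ∀ j : ℕ, (∏ i : Fin j, pcEval m [(qinv i, [])] z) = 1 / (j.factorial : ℝ) := by
    intro j
    induction j with
    | zero => simp
    | succ j ih =>
      rw [Fin.prod_univ_castSucc]
      simp only [Fin.val_castSucc, Fin.val_last]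
      rw [ih, Eval_qinv, Nat.factorial_succ]
      push_cast
      rw [one_div_mul_one_div, mul_comm]
  rw [cstCode, pcEval_mul, pcEval_prodRange, pcEval_pow, h, Eval_qinv]
  rw [one_div_pow, one_div_mul_one_div]
  norm_num

theorem pcEval_wTerm (n r : ℕ) (w : PCode) (j : ℕ) (z : Fin (n + r) → ℝ) :
    pcEval (n + r) (wTerm n r w j) z = 1 / ((j.factorial : ℝ) * 2 ^ (r - j)) *
      pcEval n (coefT n (r - j) w) fun l => z (Fin.castAdd r l) := by
  rw [wTerm, pcEval_mul, pcEval_cst, Eval_trunc]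

theorem pcEval_dCode (n r : ℕ) (Q : PCode) (z : Fin (n + r) → ℝ) :
    pcEval (n + r) (dCode n r Q) z =
      ∏ i : Fin r, EE (pcEval n Q fun l => z (Fin.castAdd r l)) (z (Fin.natAdd n i)) := by
  rw [dCode, pcEval_prodRange]
  exact Finset.prod_congr rfl fun i _ => pcEval_eCode n r Q i z

theorem Eval_sumRange (m R : ℕ) (g : ℕ → PCode) (z : Fin m → ℝ) :
    pcEval m (pcSumRange R g) z = ∑ j ∈ Finset.range R, pcEval m (g j) z := by
  rw [pcEval, pcPoly_sumRange, map_sum, Finset.sum_range]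
  rfl

/-- `pcPoly_sumRange` (DerCode.lean), `pcEval_prodRange`. -/
theorem pcEval_aCode (n r N : ℕ) (Q w : PCode) (z : Fin (n + r) → ℝ) :
    pcEval (n + r) (aCode n r N Q w) z = ∑ j ∈ Finset.range (r + 1),
      pcEval (n + r) (wTerm n r w j) z *
        ((pcEval n Q fun l => z (Fin.castAdd r l)) ^ N *
          ((pcEval n Q fun l => z (Fin.castAdd r l)) - 1) ^ j *
          ∏ i : Fin r, if (i : ℕ) < j then 1 else
            EE (pcEval n Q fun l => z (Fin.castAdd r l)) (z (Fin.natAdd n i))) := by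
  rw [aCode, Eval_sumRange]
  refine Finset.sum_congr rfl fun j _ => ?_
  rw [aTerm, pcEval_mul, pcEval_mul, pcEval_mul, pcEval_pow, pcEval_pow, pcEval_append,
    pcEval_neg, pcEval_nat, Eval_trunc, pcEval_prodRange]
  have h : ∀ i : Fin r, pcEval (n + r) (if (i : ℕ) < j then pcNat 1 else eCode n Q i) z =
      if (i : ℕ) < j then 1 else
            EE (pcEval n Q fun l => z (Fin.castAdd r l)) (z (Fin.natAdd n i)) := by
    intro i
    split_ifs with h
    · rw [pcEval_nat]; norm_num
    · exact pcEval_eCode n r Q i z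
  rw [Finset.prod_congr rfl fun i _ => h i]
  push_cast
  ring

theorem Eval_EE_pos (n r : ℕ) (Q : PCode) (hQ : ∀ y ∈ cube n, 0 < pcEval n Q y)
    {z : Fin (n + r) → ℝ} (hz : z ∈ cube (n + r)) (i : Fin r) :
    0 < EE (pcEval n Q fun l => z (Fin.castAdd r l)) (z (Fin.natAdd n i)) :=
  EE_pos (hQ _ fun l => hz (Fin.castAdd r l)) (hz (Fin.natAdd n i))

/-- The quotient. On the cube all `EE` are positive (`EE_pos`), and
`∏ i, EE_i = (∏ i, if i < j then 1 else EE_i) * (∏ i, if i < j then EE_i else 1)`. -/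
theorem ratio_eq (n r N : ℕ) (Q w : PCode) (hQ : ∀ y ∈ cube n, 0 < pcEval n Q y)
    {z : Fin (n + r) → ℝ} (hz : z ∈ cube (n + r)) :
    pcEval (n + r) (aCode n r N Q w) z / pcEval (n + r) (dCode n r Q) z =
      ∑ j ∈ Finset.range (r + 1), pcEval (n + r) (wTerm n r w j) z *
        ((pcEval n Q fun l => z (Fin.castAdd r l)) ^ N *
          (((pcEval n Q fun l => z (Fin.castAdd r l)) - 1) ^ j /
          ∏ i : Fin r, if (i : ℕ) < j then
            EE (pcEval n Q fun l => z (Fin.castAdd r l)) (z (Fin.natAdd n i)) else 1)) := by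
  have hE := Eval_EE_pos n r Q hQ hz
  rw [pcEval_aCode, pcEval_dCode, Finset.sum_div]
  refine Finset.sum_congr rfl fun j _ => ?_
  have hs : (∏ i : Fin r, EE (pcEval n Q fun l => z (Fin.castAdd r l)) (z (Fin.natAdd n i))) =
      (∏ i : Fin r, if (i : ℕ) < j then 1 else
        EE (pcEval n Q fun l => z (Fin.castAdd r l)) (z (Fin.natAdd n i))) *
      ∏ i : Fin r, if (i : ℕ) < j then
        EE (pcEval n Q fun l => z (Fin.castAdd r l)) (z (Fin.natAdd n i)) else 1 := by
    rw [← Finset.prod_mul_distrib]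
    refine Finset.prod_congr rfl fun i _ => ?_
    split_ifs <;> ring
  have h1 : (∏ i : Fin r, if (i : ℕ) < j then 1 else
      EE (pcEval n Q fun l => z (Fin.castAdd r l)) (z (Fin.natAdd n i))) ≠ 0 := by
    refine Finset.prod_ne_zero_iff.mpr fun i _ => ?_
    split_ifs
    · exact one_ne_zero
    · exact (hE i).ne'
  have h2 : (∏ i : Fin r, if (i : ℕ) < j then
      EE (pcEval n Q fun l => z (Fin.castAdd r l)) (z (Fin.natAdd n i)) else 1) ≠ 0 := by
    refine Finset.prod_ne_zero_iff.mpr fun i _ => ?_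
    split_ifs
    · exact (hE i).ne'
    · exact one_ne_zero
  rw [hs]
  field_simp

theorem dCode_pos (n r : ℕ) (Q : PCode) (hQ : ∀ y ∈ cube n, 0 < pcEval n Q y)
    {z : Fin (n + r) → ℝ} (hz : z ∈ cube (n + r)) : 0 < pcEval (n + r) (dCode n r Q) z := by
  rw [pcEval_dCode]
  exact Finset.prod_pos fun i _ => Eval_EE_pos n r Q hQ hz i

end Pool.Agent.Lib.MP_bbe012_lc.HC
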