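import Mathlib
import Pool.Agent.Lib.MP_bbe012_lc.Sound

/-!
# The limit formula attached to a certificate
-/

namespace Pool.Agent.Lib.MP_bbe012_lc.HC

open MeasureTheory MvPolynomial Set Filter Topology

variable {n : ℕ} {h : MvPolynomial (Fin n) ℚ} {U : Set (Fin n → ℝ)}

/-- The identity of integrals for large exponents.
As `e2` in the proof of `Region.sound` (Sound.lean): `H.integral_divg K g ht = 0`, multiply the identity (evaluated with `evT_add, evT_mul, evT_pow,
evT_hP, evT_beta`) by `evR h x ^ (t - K - 1)`: `P h^K h^(t-K-1) = (P / h) h^t`, `h^(N+1+K) h^(t-K-1) = h^(N+t)` (`Real.rpow_natCast`, `Real.rpow_add`).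
Integrability: `H.integrable (continuous_evT _ t)`, exponents `≥ 0`. -/
theorem eq_large (H : Region h U) {r N K : ℕ} {A : Polynomial ℚ} {P : MvPolynomial (Fin n) ℚ}
    {w : Pt n} {g : Fin n → Pt n}
    (hid : beta n (Polynomial.X ^ r * (1 + Polynomial.X * A)) * hP P * hP h ^ K =
      w * hP h ^ (N + 1 + K) + divg h K g)
    (hu : IntegrableOn (fun x => evR P x / evR h x) U) {t : ℝ} (ht : (K : ℝ) + 1 < t) :
    t ^ r * (1 + t * Polynomial.aeval t A) * ∫ x in U, evR P x / evR h x * evR h x ^ t =
      ∫ x in U, evT w t x * evR h x ^ ((N : ℝ) + t) := by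
  have hdiv := H.integral_divg K g ht
  have hK : (0 : ℝ) ≤ K := Nat.cast_nonneg K
  have hN : (0 : ℝ) ≤ N := Nat.cast_nonneg N
  have i1 : IntegrableOn (fun x => evT w t x * evR h x ^ ((N : ℝ) + t)) U :=
    H.integrable (continuous_evT w t) (by linarith)
  have i2 : IntegrableOn (fun x => evT (divg h K g) t x * evR h x ^ (t - K - 1)) U :=
    H.integrable (continuous_evT _ t) (by linarith)
  rw [← integral_const_mul]
  have e1 : ∫ x in U, t ^ r * (1 + t * Polynomial.aeval t A) *
        (evR P x / evR h x * evR h x ^ t) =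
      ∫ x in U, (evT w t x * evR h x ^ ((N : ℝ) + t) +
        evT (divg h K g) t x * evR h x ^ (t - K - 1)) := by
    refine setIntegral_congr_fun H.measurableSet fun x hx => ?_
    have hp := H.pos x hx
    have h1 := congrArg (fun F => evT F t x) hid
    simp only [evT_add, evT_mul, evT_pow, evT_hP, evT_beta, map_mul, map_pow, map_add, map_one,
      Polynomial.aeval_X] at h1
    have hone : evT (1 : Pt n) t x = 1 := map_one _
    rw [hone] at h1
    have r1 : evR P x / evR h x * evR h x ^ t = evR P x * evR h x ^ K * evR h x ^ (t - K - 1) := by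
      have r3 : evR h x ^ t = evR h x * evR h x ^ K * evR h x ^ (t - K - 1) := by
        rw [← pow_succ', ← Real.rpow_natCast, ← Real.rpow_add hp]
        congr 1; push_cast; ring
      rw [r3]
      field_simp
    have r2 : evR h x ^ ((N : ℝ) + t) = evR h x ^ (N + 1 + K) * evR h x ^ (t - K - 1) := by
      rw [← Real.rpow_natCast, ← Real.rpow_add hp]
      congr 1; push_cast; ring
    rw [r1, r2]
    linear_combination (evR h x ^ (t - K - 1)) * h1
  rw [e1, integral_add i1 i2, hdiv, add_zero]

/-- The identity of integrals for all positive exponents.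
As `hall` in the proof of `Region.sound`: both sides are restrictions of analytic functions on the right half plane (`H.analytic_Phi`, `H.Phi_ofReal`,
`H.exists_analytic` with `G := w * hP h ^ (N - 1)`, for which `evT G t x * h^(t+1) = evT w t x * h^(N+t)` on `U`) which agree for large `t` (`eq_large`);
`eq_zero_of_large` (Mellin.lean). -/
theorem eq_pos (H : Region h U) {r N K : ℕ} (hN : 1 ≤ N) {A : Polynomial ℚ}
    {P : MvPolynomial (Fin n) ℚ} {w : Pt n} {g : Fin n → Pt n}
    (hid : beta n (Polynomial.X ^ r * (1 + Polynomial.X * A)) * hP P * hP h ^ K =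
      w * hP h ^ (N + 1 + K) + divg h K g)
    (hu : IntegrableOn (fun x => evR P x / evR h x) U) {t : ℝ} (ht : 0 < t) :
    t ^ r * (1 + t * Polynomial.aeval t A) * ∫ x in U, evR P x / evR h x * evR h x ^ t =
      ∫ x in U, evT w t x * evR h x ^ ((N : ℝ) + t) := by
  have hm : Measurable fun x => evR P x / evR h x :=
    (continuous_evR P).measurable.div (continuous_evR h).measurable
  obtain ⟨⟨F, hF, hF2⟩, -⟩ := H.exists_analytic (w * hP h ^ (N - 1))
  have hG : ∀ s : ℝ, ∫ x in U, evT (w * hP h ^ (N - 1)) s x * evR h x ^ (s + 1) =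
      ∫ x in U, evT w s x * evR h x ^ ((N : ℝ) + s) := by
    intro s
    refine setIntegral_congr_fun H.measurableSet fun x hx => ?_
    have hp := H.pos x hx
    simp only [evT_mul, evT_pow, evT_hP]
    have r1 : evR h x ^ ((N : ℝ) + s) = evR h x ^ (N - 1) * evR h x ^ (s + 1) := by
      rw [← Real.rpow_natCast, ← Real.rpow_add hp]
      congr 1
      push_cast [Nat.cast_sub hN]
      ring
    rw [r1]
    ring
  set D : Polynomial ℚ := Polynomial.X ^ r * (1 + Polynomial.X * A) with hD
  have hDv : ∀ s : ℝ, Polynomial.aeval s D = s ^ r * (1 + s * Polynomial.aeval s A) := by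
    intro s
    simp [hD]
  set f : ℂ → ℂ := fun z => Polynomial.aeval z D * Phi h U (fun x => evR P x / evR h x) z -
    F z with hf
  have hfan : AnalyticOnNhd ℂ f {z | 0 < z.re} := by
    intro z hz
    refine AnalyticAt.sub (AnalyticAt.mul ?_ (H.analytic_Phi hm hu z hz)) (hF z hz)
    exact AnalyticAt.aeval_polynomial analyticAt_id D
  have hval : ∀ s : ℝ, 0 < s → f s = ((Polynomial.aeval s D *
      (∫ x in U, evR P x / evR h x * evR h x ^ s) -
      ∫ x in U, evT w s x * evR h x ^ ((N : ℝ) + s) : ℝ) : ℂ) := by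
    intro s hs
    simp only [hf]
    rw [H.Phi_ofReal hm hu hs.le, hF2 s hs.le, hG s]
    have : Polynomial.aeval (s : ℂ) D = ((Polynomial.aeval s D : ℝ) : ℂ) := by
      rw [← Complex.coe_algebraMap, Polynomial.aeval_algebraMap_apply]
    rw [this]
    push_cast
    ring
  have hz := eq_zero_of_large hfan (T := (K : ℝ) + 1) (fun s hs => by
    have hs0 : 0 < s := by
      have hK : (0 : ℝ) ≤ K := Nat.cast_nonneg K
      linarith
    rw [hval s hs0, hDv s, eq_large H hid hu hs, sub_self, Complex.ofReal_zero]) ht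
  rw [hval t ht, hDv t] at hz
  exact sub_eq_zero.mp (by exact_mod_cast hz)

/-- The limit formula.
From `eq_pos`: for `t > 0` the quotient is `(1 + t A(t)) * ∫ u h^t`; `H.tendsto_zero hu` (Mellin.lean) and continuity of the polynomial. -/
theorem lim_zero (H : Region h U) {r N K : ℕ} (hN : 1 ≤ N) {A : Polynomial ℚ}
    {P : MvPolynomial (Fin n) ℚ} {w : Pt n} {g : Fin n → Pt n}
    (hid : beta n (Polynomial.X ^ r * (1 + Polynomial.X * A)) * hP P * hP h ^ K =
      w * hP h ^ (N + 1 + K) + divg h K g)
    (hu : IntegrableOn (fun x => evR P x / evR h x) U) :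
    Tendsto (fun t : ℝ => (∫ x in U, evT w t x * evR h x ^ ((N : ℝ) + t)) / t ^ r) (𝓝[>] 0)
      (𝓝 (∫ x in U, evR P x / evR h x)) := by
  have h1 : Tendsto (fun t : ℝ => (1 + t * Polynomial.aeval t A) *
      ∫ x in U, evR P x / evR h x * evR h x ^ t) (𝓝[>] 0)
      (𝓝 ((1 + 0 * Polynomial.aeval (0 : ℝ) A) * ∫ x in U, evR P x / evR h x)) := by
    refine Tendsto.mul ?_ (H.tendsto_zero hu)
    have h2 : Continuous fun t : ℝ => 1 + t * Polynomial.aeval t A :=
      continuous_const.add (continuous_id.mul (Polynomial.continuous_aeval A))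
    exact (h2.tendsto 0).mono_left nhdsWithin_le_nhds
  rw [zero_mul, add_zero, one_mul] at h1
  refine h1.congr' ?_
  filter_upwards [self_mem_nhdsWithin] with t ht
  have ht0 : (0 : ℝ) < t := ht
  rw [← eq_pos H hN hid hu ht0, mul_assoc, mul_div_cancel_left₀ _ (pow_ne_zero r ht0.ne')]

end Pool.Agent.Lib.MP_bbe012_lc.HC
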