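import Mathlib

/-!
# Limits of polynomials and bounds for logarithms
-/

namespace Pool.Agent.Lib.MP_bbe012_lc.HC

open Filter Topology Set

/-- A polynomial divided by `t ^ r` with a finite limit.
Induction on `r` for all `q`, `p`. `r = 0`: continuity of `q` at `0`, `q.eval 0 = q.coeff 0`. `r + 1`: `q(t) = (q(t) / t^(r+1)) * t^(r+1) → 0`, so
`q.coeff 0 = 0`, `q = X * q.divX`, `q(t) / t^(r+1) = q.divX(t) / t^r` for `t > 0`. -/
theorem poly_lim (r : ℕ) (q : Polynomial ℝ) (p : ℝ)
    (h : Tendsto (fun t : ℝ => q.eval t / t ^ r) (𝓝[>] 0) (𝓝 p)) : q.coeff r = p := by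
  induction r generalizing q p with
  | zero =>
    simp only [pow_zero, div_one] at h
    have h1 : Tendsto (fun t : ℝ => q.eval t) (𝓝[>] 0) (𝓝 (q.eval 0)) :=
      (q.continuous.tendsto 0).mono_left nhdsWithin_le_nhds
    rw [Polynomial.coeff_zero_eq_eval_zero]
    exact tendsto_nhds_unique h1 h
  | succ r ih =>
    have h0 : q.coeff 0 = 0 := by
      have h1 : Tendsto (fun t : ℝ => q.eval t) (𝓝[>] 0) (𝓝 (q.eval 0)) :=
        (q.continuous.tendsto 0).mono_left nhdsWithin_le_nhds
      have h2 : Tendsto (fun t : ℝ => q.eval t / t ^ (r + 1) * t ^ (r + 1)) (𝓝[>] 0)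
          (𝓝 (p * 0 ^ (r + 1))) :=
        h.mul (((continuous_pow (r + 1)).tendsto 0).mono_left nhdsWithin_le_nhds)
      rw [zero_pow (Nat.succ_ne_zero r), mul_zero] at h2
      have h3 : (fun t : ℝ => q.eval t / t ^ (r + 1) * t ^ (r + 1)) =ᶠ[𝓝[>] 0]
          fun t => q.eval t := by
        filter_upwards [self_mem_nhdsWithin] with t ht
        exact div_mul_cancel₀ _ (pow_ne_zero _ (ne_of_gt ht))
      rw [Polynomial.coeff_zero_eq_eval_zero]
      exact tendsto_nhds_unique h1 (h2.congr' h3)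
    have h4 : ∀ t : ℝ, q.eval t = q.divX.eval t * t := by
      intro t
      have h5 := congrArg (Polynomial.eval t) q.divX_mul_X_add
      rw [h0] at h5
      simp only [Polynomial.eval_mul, Polynomial.eval_X, map_zero, add_zero] at h5
      exact h5.symm
    rw [← Polynomial.coeff_divX]
    apply ih
    refine h.congr' ?_
    filter_upwards [self_mem_nhdsWithin] with t ht
    have ht0 : t ≠ 0 := ne_of_gt ht
    rw [h4 t, pow_succ]
    exact mul_div_mul_right _ _ ht0

/-- The same for a function which is close to a polynomial.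
`|F t / t^r - q t / t^r| ≤ C t` for `0 < t < 1/2`, squeeze, `poly_lim`. -/
theorem poly_lim' (r : ℕ) (q : Polynomial ℝ) (p C : ℝ) (F : ℝ → ℝ)
    (h : Tendsto (fun t : ℝ => F t / t ^ r) (𝓝[>] 0) (𝓝 p))
    (hF : ∀ t : ℝ, 0 < t → t < 1 / 2 → |F t - q.eval t| ≤ C * t ^ (r + 1)) : q.coeff r = p := by
  apply poly_lim r q p
  have h1 : Tendsto (fun t : ℝ => C * t) (𝓝[>] 0) (𝓝 (C * 0)) :=
    ((continuous_const.mul continuous_id).tendsto 0).mono_left nhdsWithin_le_nhds
  rw [mul_zero] at h1
  have h2 : Tendsto (fun t : ℝ => F t / t ^ r - q.eval t / t ^ r) (𝓝[>] 0) (𝓝 0) := by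
    refine squeeze_zero_norm' ?_ h1
    have h3 : ∀ᶠ t : ℝ in 𝓝[>] 0, t < 1 / 2 :=
      nhdsWithin_le_nhds (Iio_mem_nhds (by norm_num))
    filter_upwards [self_mem_nhdsWithin, h3] with t ht ht2
    have ht0 : (0 : ℝ) < t := ht
    have h4 : (0 : ℝ) < t ^ r := pow_pos ht0 r
    rw [← sub_div, Real.norm_eq_abs, abs_div, abs_of_pos h4, div_le_iff₀ h4]
    calc |F t - q.eval t| ≤ C * t ^ (r + 1) := hF t ht0 ht2
      _ = C * t * t ^ r := by rw [pow_succ]; ring
  have h5 := h.sub h2
  rw [sub_zero] at h5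
  refine h5.congr fun t => ?_
  ring

/-- Powers of logarithms are bounded after multiplication by a positive power.
For `x ≤ 1`: `exp (t |log x|) = x^(-t) ≤ x^(-1/2)`, so the product is at most `x^(1/2) |log x|^j` (as `x^N ≤ x`), and
`Real.abs_log_mul_self_rpow_lt` with exponent `1 / (2 (j + 1))`, raised to the power `j`. For `1 ≤ x ≤ B`: `x^N ≤ B^N`, `|log x| ≤ log B`, `exp (t log x) ≤ B`. -/
theorem log_bound (N j : ℕ) (hN : 1 ≤ N) {B : ℝ} (hB : 1 ≤ B) : ∃ C : ℝ, 0 ≤ C ∧ ∀ x : ℝ, 0 < x → x ≤ B →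
    ∀ t : ℝ, 0 ≤ t → t ≤ 1 / 2 →
      x ^ N * |Real.log x| ^ j * Real.exp (t * |Real.log x|) ≤ C := by
  refine ⟨2 ^ j * (j.factorial : ℝ) + B ^ N * (Real.log B) ^ j * B, ?_, ?_⟩
  · have h1 : 0 ≤ Real.log B := Real.log_nonneg hB
    positivity
  · intro x hx hxB t ht ht2
    have hlB : 0 ≤ Real.log B := Real.log_nonneg hB
    rcases le_total x 1 with hx1 | hx1
    · have hL : |Real.log x| = -Real.log x := abs_of_nonpos (Real.log_nonpos hx.le hx1)
      have hx2 : Real.exp (-|Real.log x|) = x := by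
        rw [hL, neg_neg, Real.exp_log hx]
      have hL0 : 0 ≤ |Real.log x| := abs_nonneg _
      set L := |Real.log x| with hLdef
      have h1 : x ^ N ≤ Real.exp (-L) := by
        rw [hx2]
        calc x ^ N ≤ x ^ 1 := pow_le_pow_of_le_one hx.le hx1 hN
          _ = x := pow_one x
      have h2 : Real.exp (t * L) ≤ Real.exp (L / 2) := by
        apply Real.exp_le_exp.2
        nlinarith
      have h3 : (L / 2) ^ j / (j.factorial : ℝ) ≤ Real.exp (L / 2) :=
        Real.pow_div_factorial_le_exp _ (by positivity) j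
      have hf : (0 : ℝ) < (j.factorial : ℝ) := by exact_mod_cast Nat.factorial_pos j
      rw [div_le_iff₀ hf, div_pow, div_le_iff₀ (by positivity)] at h3
      have h4 : x ^ N * L ^ j * Real.exp (t * L) ≤ Real.exp (-L) *
          (Real.exp (L / 2) * (j.factorial : ℝ) * 2 ^ j) * Real.exp (L / 2) := by
        gcongr
      have h5 : Real.exp (-L) *
          (Real.exp (L / 2) * (j.factorial : ℝ) * 2 ^ j) * Real.exp (L / 2) =
          2 ^ j * (j.factorial : ℝ) := by
        have h6 : Real.exp (-L) * Real.exp (L / 2) * Real.exp (L / 2) = 1 := by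
          rw [← Real.exp_add, ← Real.exp_add]
          have : -L + L / 2 + L / 2 = 0 := by ring
          rw [this, Real.exp_zero]
        linear_combination ((j.factorial : ℝ) * 2 ^ j) * h6
      have h7 : 0 ≤ B ^ N * (Real.log B) ^ j * B := by positivity
      linarith
    · have hL : |Real.log x| = Real.log x := abs_of_nonneg (Real.log_nonneg hx1)
      have h0 : 0 ≤ Real.log x := Real.log_nonneg hx1
      have h1 : Real.log x ≤ Real.log B := Real.log_le_log hx hxB
      rw [hL]
      have h2 : Real.exp (t * Real.log x) ≤ B := by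
        calc Real.exp (t * Real.log x) ≤ Real.exp (Real.log B) := by
              apply Real.exp_le_exp.2
              nlinarith
          _ = B := Real.exp_log (by linarith)
      have h4 : x ^ N * Real.log x ^ j * Real.exp (t * Real.log x) ≤
          B ^ N * (Real.log B) ^ j * B := by
        gcongr
      have h7 : 0 ≤ (2 : ℝ) ^ j * (j.factorial : ℝ) := by positivity
      linarith

/-- The remainder of the exponential series.
`Complex.norm_exp_sub_sum_le_norm_mul_exp (y : ℂ) (r + 1)`, cast to the reals (`Complex.ofReal_exp`, `Complex.norm_real`). -/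
theorem exp_rem (y : ℝ) (r : ℕ) :
    |Real.exp y - ∑ j ∈ Finset.range (r + 1), y ^ j / (j.factorial : ℝ)| ≤
      |y| ^ (r + 1) * Real.exp |y| := by
  have h1 := Complex.norm_exp_sub_sum_le_norm_mul_exp (y : ℂ) (r + 1)
  rw [Complex.norm_real, Real.norm_eq_abs] at h1
  have h2 : Complex.exp (y : ℂ) - ∑ m ∈ Finset.range (r + 1), (y : ℂ) ^ m / (m.factorial : ℂ) =
      ((Real.exp y - ∑ j ∈ Finset.range (r + 1), y ^ j / (j.factorial : ℝ) : ℝ) : ℂ) := by
    push_cast
    rfl
  rw [h2, Complex.norm_real, Real.norm_eq_abs] at h1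
  exact h1

end Pool.Agent.Lib.MP_bbe012_lc.HC
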