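import Mathlib
import Pool.Agent.Lib.MP_bbe012_lc.Region
import Pool.Agent.Lib.MP_bbe012_lc.HC.LimA

/-!
# Expansion at the exponent zero
-/

namespace Pool.Agent.Lib.MP_bbe012_lc.HC

open MeasureTheory MvPolynomial Set Filter Topology

variable {n : ℕ} {h : MvPolynomial (Fin n) ℚ} {U : Set (Fin n → ℝ)}

theorem Taylor_bd (H : Region h U) {N : ℕ} (hN : 1 ≤ N) (j : ℕ) : ∃ C : ℝ, 0 ≤ C ∧ ∀ x ∈ U,
    ∀ t : ℝ, 0 ≤ t → t ≤ 1 / 2 →
      evR h x ^ N * |Real.log (evR h x)| ^ j * Real.exp (t * |Real.log (evR h x)|) ≤ C := by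
  obtain ⟨B, hB, hB2⟩ := exists_bound H.bdd (continuous_evR h)
  obtain ⟨C, hC, hC2⟩ := log_bound N j hN (le_max_right B 1)
  refine ⟨C, hC, fun x hx t ht ht' => ?_⟩
  exact hC2 _ (H.pos x hx) (((le_abs_self _).trans (hB2 x hx)).trans (le_max_left _ _)) t ht ht'

/-- Bounded measurable function on a bounded set: `Measure.integrableOn_of_bounded` as in `Region.integrable` (Region.lean); `exists_bound H.bdd` for
`W` and `evR h`, and `log_bound` with `t = 0`. -/
theorem integrable_log (H : Region h U) {N : ℕ} (hN : 1 ≤ N) (j : ℕ) {W : (Fin n → ℝ) → ℝ}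
    (hW : Continuous W) :
    IntegrableOn (fun x => W x * evR h x ^ N * Real.log (evR h x) ^ j) U := by
  obtain ⟨C1, hC1, h1⟩ := exists_bound H.bdd hW
  obtain ⟨C2, hC2, h2⟩ := Taylor_bd H hN j
  refine Measure.integrableOn_of_bounded (M := C1 * C2) H.volume_lt_top.ne ?_ ?_
  · have hm : Measurable (evR h) := (continuous_evR h).measurable
    exact ((hW.measurable.mul (hm.pow_const N)).mul ((Real.measurable_log.comp hm).pow_const j)).aestronglyMeasurable
  · refine (ae_restrict_mem H.measurableSet).mono fun x hx => ?_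
    rw [mul_assoc, norm_mul]
    have h3 := h2 x hx 0 le_rfl (by norm_num)
    rw [zero_mul, Real.exp_zero, mul_one] at h3
    have h4 : ‖evR h x ^ N * Real.log (evR h x) ^ j‖ ≤ C2 := by
      rw [norm_mul, norm_pow, norm_pow, Real.norm_of_nonneg (H.pos x hx).le, Real.norm_eq_abs]
      exact h3
    exact mul_le_mul (h1 x hx) h4 (norm_nonneg _) hC1.le

theorem Taylor_rpow (H : Region h U) (N : ℕ) (t : ℝ) {x : Fin n → ℝ} (hx : x ∈ U) :
    evR h x ^ ((N : ℝ) + t) = evR h x ^ N * Real.exp (t * Real.log (evR h x)) := by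
  have hp := H.pos x hx
  rw [Real.rpow_add hp, Real.rpow_natCast, Real.rpow_def_of_pos hp t, mul_comm t]

/-- The polynomial of the expansion. -/
noncomputable def Taylor_q (a : ℕ → ℕ → ℝ) (R r : ℕ) : Polynomial ℝ :=
  ∑ m ∈ Finset.range R, ∑ j ∈ Finset.range (r + 1),
    Polynomial.C (a m j / (j.factorial : ℝ)) * Polynomial.X ^ (m + j)

theorem Taylor_q_eval (a : ℕ → ℕ → ℝ) (R r : ℕ) (t : ℝ) : (Taylor_q a R r).eval t =
    ∑ m ∈ Finset.range R, ∑ j ∈ Finset.range (r + 1), a m j / (j.factorial : ℝ) * t ^ (m + j) := by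
  unfold Taylor_q
  rw [Polynomial.eval_finsetSum]
  refine Finset.sum_congr rfl fun m _ => ?_
  rw [Polynomial.eval_finsetSum]
  refine Finset.sum_congr rfl fun j _ => ?_
  rw [Polynomial.eval_mul, Polynomial.eval_C, Polynomial.eval_pow, Polynomial.eval_X]

theorem Taylor_q_coeff (a : ℕ → ℕ → ℝ) {R r : ℕ} (hR : r < R) : (Taylor_q a R r).coeff r =
    ∑ j ∈ Finset.range (r + 1), a (r - j) j / (j.factorial : ℝ) := by
  unfold Taylor_q
  rw [Polynomial.finsetSum_coeff]
  have e1 : ∀ m ∈ Finset.range R, (∑ j ∈ Finset.range (r + 1),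
      Polynomial.C (a m j / (j.factorial : ℝ)) * Polynomial.X ^ (m + j) : Polynomial ℝ).coeff r =
      ∑ j ∈ Finset.range (r + 1), if r = m + j then a m j / (j.factorial : ℝ) else 0 := by
    intro m _
    rw [Polynomial.finsetSum_coeff]
    refine Finset.sum_congr rfl fun j _ => ?_
    rw [Polynomial.coeff_C_mul_X_pow]
  rw [Finset.sum_congr rfl e1, Finset.sum_comm]
  refine Finset.sum_congr rfl fun j hj => ?_
  rw [Finset.mem_range] at hj
  rw [Finset.sum_eq_single (r - j)]
  · rw [if_pos (by omega)]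
  · intro m _ hm
    rw [if_neg (by omega)]
  · intro hm
    rw [Finset.mem_range] at hm
    omega

theorem Taylor_int (H : Region h U) {N : ℕ} (r R : ℕ) (hN : 1 ≤ N) (W : ℕ → (Fin n → ℝ) → ℝ)
    (hW : ∀ m, Continuous (W m)) (t : ℝ) :
    IntegrableOn (fun x => ∑ m ∈ Finset.range R, ∑ j ∈ Finset.range (r + 1),
      W m x * evR h x ^ N * Real.log (evR h x) ^ j * (t ^ (m + j) / (j.factorial : ℝ))) U ∧
    (Taylor_q (fun m j => ∫ x in U, W m x * evR h x ^ N * Real.log (evR h x) ^ j) R r).eval t =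
      ∫ x in U, ∑ m ∈ Finset.range R, ∑ j ∈ Finset.range (r + 1),
        W m x * evR h x ^ N * Real.log (evR h x) ^ j * (t ^ (m + j) / (j.factorial : ℝ)) := by
  have i1 : ∀ m j, IntegrableOn (fun x => W m x * evR h x ^ N * Real.log (evR h x) ^ j *
      (t ^ (m + j) / (j.factorial : ℝ))) U := fun m j =>
    (integrable_log H hN j (hW m)).mul_const _
  have i2 : ∀ m, IntegrableOn (fun x => ∑ j ∈ Finset.range (r + 1),
      W m x * evR h x ^ N * Real.log (evR h x) ^ j * (t ^ (m + j) / (j.factorial : ℝ))) U := fun m =>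
    integrable_finsetSum _ fun j _ => i1 m j
  refine ⟨integrable_finsetSum _ fun m _ => i2 m, ?_⟩
  rw [Taylor_q_eval, integral_finsetSum _ fun m _ => i2 m]
  refine Finset.sum_congr rfl fun m _ => ?_
  rw [integral_finsetSum _ fun j _ => i1 m j]
  refine Finset.sum_congr rfl fun j _ => ?_
  rw [integral_mul_const]
  ring

theorem Taylor_factor (N r R : ℕ) (W : ℕ → (Fin n → ℝ) → ℝ) (t : ℝ) (x : Fin n → ℝ) :
    ∑ m ∈ Finset.range R, ∑ j ∈ Finset.range (r + 1),
      W m x * evR h x ^ N * Real.log (evR h x) ^ j * (t ^ (m + j) / (j.factorial : ℝ)) =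
    (∑ m ∈ Finset.range R, t ^ m * W m x) * (evR h x ^ N *
      ∑ j ∈ Finset.range (r + 1), (t * Real.log (evR h x)) ^ j / (j.factorial : ℝ)) := by
  rw [Finset.sum_mul]
  refine Finset.sum_congr rfl fun m _ => ?_
  rw [Finset.mul_sum, Finset.mul_sum]
  refine Finset.sum_congr rfl fun j _ => ?_
  rw [mul_pow, pow_add]
  ring

/-- If the integral of `∑ t ^ m W_m h ^ (N + t)`, divided by `t ^ r`, tends to `p`, then `p` is the
coefficient of `t ^ r` in the expansion.
For `x ∈ U`, `h^(N+t) = h^N exp (t log h)`, and `exp_rem` with `y = t log h`. Put `a m j := ∫ x in U, W m x * h^N * (log h)^j` (`integrable_log`),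
`q := ∑ m ∈ range R, ∑ j ∈ range (r+1), C (a m j / j!) * X^(m+j)`. Then `|∫ (∑ t^m W_m) h^(N+t) - q.eval t| ≤ C t^(r+1)` for `0 < t < 1/2`
(`log_bound` with exponent `r + 1`, `|∑ t^m W_m| ≤ ∑ |W_m|` bounded). `poly_lim'` gives `q.coeff r = p`; the coefficient of `X^r` is
`∑ j ∈ range (r+1), a (r-j) j / j!` because `r - j < R`; then `integral_finsetSum`. -/
theorem taylor (H : Region h U) {N r R : ℕ} (hN : 1 ≤ N) (hR : r < R) (W : ℕ → (Fin n → ℝ) → ℝ)
    (hW : ∀ m, Continuous (W m)) (p : ℝ)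
    (hlim : Tendsto (fun t : ℝ => (∫ x in U, (∑ m ∈ Finset.range R, t ^ m * W m x) *
      evR h x ^ ((N : ℝ) + t)) / t ^ r) (𝓝[>] 0) (𝓝 p)) :
    p = ∫ x in U, ∑ j ∈ Finset.range (r + 1),
      W (r - j) x * evR h x ^ N * Real.log (evR h x) ^ j / (j.factorial : ℝ) := by
  have hS : Continuous fun x => ∑ m ∈ Finset.range R, |W m x| :=
    continuous_finsetSum _ fun m _ => (hW m).abs
  obtain ⟨C1, hC1, h1⟩ := exists_bound H.bdd hS
  obtain ⟨C2, hC2, h2⟩ := Taylor_bd H hN (r + 1)
  set a : ℕ → ℕ → ℝ := fun m j => ∫ x in U, W m x * evR h x ^ N * Real.log (evR h x) ^ j with ha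
  have key := poly_lim' r (Taylor_q a R r) p (C1 * C2 * volume.real U)
    (fun t : ℝ => ∫ x in U, (∑ m ∈ Finset.range R, t ^ m * W m x) * evR h x ^ ((N : ℝ) + t)) hlim ?_
  · rw [Taylor_q_coeff a hR] at key
    rw [← key, integral_finsetSum]
    · refine Finset.sum_congr rfl fun j _ => ?_
      rw [integral_div]
    · intro j _
      exact (integrable_log H hN j (hW (r - j))).div_const _
  · intro t ht ht'
    obtain ⟨i1, e1⟩ := Taylor_int H r R hN W hW t
    have hWt : Continuous fun x => ∑ m ∈ Finset.range R, t ^ m * W m x :=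
      continuous_finsetSum _ fun m _ => continuous_const.mul (hW m)
    have i2 : IntegrableOn (fun x => (∑ m ∈ Finset.range R, t ^ m * W m x) * evR h x ^ ((N : ℝ) + t)) U :=
      H.integrable hWt (by positivity)
    rw [ha, e1, ← integral_sub i2 i1, ← Real.norm_eq_abs]
    have hb : ∀ x ∈ U, ‖(∑ m ∈ Finset.range R, t ^ m * W m x) * evR h x ^ ((N : ℝ) + t) -
        ∑ m ∈ Finset.range R, ∑ j ∈ Finset.range (r + 1),
        W m x * evR h x ^ N * Real.log (evR h x) ^ j * (t ^ (m + j) / (j.factorial : ℝ))‖ ≤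
        C1 * C2 * t ^ (r + 1) := by
      intro x hx
      have hp := H.pos x hx
      rw [Taylor_factor, Taylor_rpow H N t hx, ← mul_sub, ← mul_sub, norm_mul, norm_mul, Real.norm_eq_abs,
        Real.norm_eq_abs, Real.norm_eq_abs, abs_of_nonneg (pow_nonneg hp.le N)]
      have b1 : |∑ m ∈ Finset.range R, t ^ m * W m x| ≤ C1 := by
        refine le_trans ?_ ((le_abs_self _).trans (h1 x hx))
        refine (Finset.abs_sum_le_sum_abs _ _).trans (Finset.sum_le_sum fun m _ => ?_)
        rw [abs_mul, abs_of_nonneg (pow_nonneg ht.le m)]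
        exact mul_le_of_le_one_left (abs_nonneg _) (pow_le_one₀ ht.le (by linarith))
      have b2 := exp_rem (t * Real.log (evR h x)) r
      have b3 : evR h x ^ N * |Real.exp (t * Real.log (evR h x)) -
          ∑ j ∈ Finset.range (r + 1), (t * Real.log (evR h x)) ^ j / (j.factorial : ℝ)| ≤ C2 * t ^ (r + 1) := by
        have b4 := h2 x hx t ht.le ht'.le
        rw [abs_mul, abs_of_nonneg ht.le] at b2
        calc _ ≤ evR h x ^ N * ((t * |Real.log (evR h x)|) ^ (r + 1) * Real.exp (t * |Real.log (evR h x)|)) :=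
              mul_le_mul_of_nonneg_left b2 (pow_nonneg hp.le N)
          _ = (evR h x ^ N * |Real.log (evR h x)| ^ (r + 1) * Real.exp (t * |Real.log (evR h x)|)) * t ^ (r + 1) := by
              rw [mul_pow]; ring
          _ ≤ C2 * t ^ (r + 1) := mul_le_mul_of_nonneg_right b4 (pow_nonneg ht.le _)
      calc _ ≤ C1 * (C2 * t ^ (r + 1)) :=
            mul_le_mul b1 b3 (mul_nonneg (pow_nonneg hp.le N) (abs_nonneg _)) hC1.le
        _ = C1 * C2 * t ^ (r + 1) := by ring
    have hfin := norm_setIntegral_le_of_norm_le_const (μ := volume) H.volume_lt_top hb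
    refine hfin.trans (le_of_eq ?_)
    ring

end Pool.Agent.Lib.MP_bbe012_lc.HC
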