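import Mathlib
import Pool.Agent.Lib.MP_bbe012_lc.HC.Ana
import Pool.Agent.Lib.MP_bbe012_lc.HC.Taylor
import Pool.Agent.Lib.MP_bbe012_lc.HC.LogB
import Pool.Agent.Lib.MP_bbe012_lc.HC.Eval

/-!
# The integral of the quotient attached to a certificate
-/

namespace Pool.Agent.Lib.MP_bbe012_lc.HC

open MeasureTheory Set Filter Topology

theorem Sum_cube_eq_pi (r : ℕ) : (cube r : Set (Fin r → ℝ)) = Set.pi univ fun _ => Ioo (-1 : ℝ) 1 := by
  ext y
  simp [cube]

theorem Sum_cube_meas (r : ℕ) : MeasurableSet (cube r : Set (Fin r → ℝ)) := by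
  rw [Sum_cube_eq_pi]
  exact MeasurableSet.univ_pi fun _ => measurableSet_Ioo

theorem Sum_EE_pos {h s : ℝ} (hh : 0 < h) (hs : s ∈ Icc (-1 : ℝ) 1) : 0 < EE h s := by
  unfold EE
  rcases lt_or_eq_of_le hs.2 with h1 | h1
  · have h2 : 0 ≤ h * (1 + s) := mul_nonneg hh.le (by linarith [hs.1])
    linarith
  · rw [h1]
    linarith

/-- Integrability of the inner factors. -/
theorem Sum_integrable {h : ℝ} (hh : 0 < h) (r j : ℕ) :
    IntegrableOn (fun s : Fin r → ℝ => (h - 1) ^ j /
      ∏ i : Fin r, (if (i : ℕ) < j then EE h (s i) else 1)) (cube r) := by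
  have hK : IsCompact (Set.pi univ fun _ : Fin r => Icc (-1 : ℝ) 1) :=
    isCompact_univ_pi fun _ => isCompact_Icc
  have hc : ContinuousOn (fun s : Fin r → ℝ => (h - 1) ^ j /
      ∏ i : Fin r, (if (i : ℕ) < j then EE h (s i) else 1)) (Set.pi univ fun _ : Fin r => Icc (-1 : ℝ) 1) := by
    refine ContinuousOn.div continuousOn_const ?_ ?_
    · refine Continuous.continuousOn ?_
      refine continuous_finsetProd _ fun i _ => ?_
      by_cases hi : (i : ℕ) < j
      · simp only [if_pos hi, EE]
        fun_prop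
      · simp only [if_neg hi]
        exact continuous_const
    · intro s hs
      rw [Finset.prod_ne_zero_iff]
      intro i _
      by_cases hi : (i : ℕ) < j
      · rw [if_pos hi]
        exact (Sum_EE_pos hh (hs i (mem_univ i))).ne'
      · rw [if_neg hi]
        exact one_ne_zero
  refine (hc.integrableOn_compact hK).mono_set ?_
  rw [Sum_cube_eq_pi]
  exact Set.pi_mono fun _ _ => Ioo_subset_Icc_self

theorem Sum_append_mem {n r : ℕ} {x : Fin n → ℝ} {s : Fin r → ℝ} (hx : x ∈ cube n) (hs : s ∈ cube r) :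
    (Fin.append x s : Fin (n + r) → ℝ) ∈ cube (n + r) := by
  intro i
  refine Fin.addCases (fun l => ?_) (fun l => ?_) i
  · rw [Fin.append_left]
    exact hx l
  · rw [Fin.append_right]
    exact hs l

/-- The formula with logarithms.
`hcCheck_iff`, `lim_zero` (Ana.lean, with `P := pcPoly n P`, `h := pcPoly n Q`, `U := cube n`; `evR (pcPoly n P) x = pcEval n P x` is `rfl`), and `taylor` with
`W k := pcEval n (coefT n k w)`, `R := pcDeg w + r + 1` (`pcEval_coefT`; `evT (pcPoly (n+1) w) t x = pcEval (n+1) w (Fin.snoc x t)` is `rfl`). -/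
theorem value_log {n : ℕ} {P Q : PCode} {r N K : ℕ} {A w : PCode} {gs : List PCode}
    (hc : hcCheck n P Q (((r, N), K), (A, w), gs)) (H : Region (pcPoly n Q) (cube n))
    (hint : IntegrableOn (fun x => pcEval n P x / pcEval n Q x) (cube n)) :
    ∫ x in cube n, pcEval n P x / pcEval n Q x =
      ∫ x in cube n, ∑ j ∈ Finset.range (r + 1), pcEval n (coefT n (r - j) w) x *
        pcEval n Q x ^ N * Real.log (pcEval n Q x) ^ j / (j.factorial : ℝ) := by
  obtain ⟨hN, hid⟩ := (hcCheck_iff n P Q r N K A w gs).1 hc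
  have hN1 : 1 ≤ N := by omega
  have hlim := lim_zero H hN1 hid hint
  have hR : r < pcDeg w + r + 1 := by omega
  have hW : ∀ m, Continuous (fun x : Fin n → ℝ => pcEval n (coefT n m w) x) := fun m =>
    continuous_evR _
  have ht := taylor H hN1 hR (fun k x => pcEval n (coefT n k w) x) hW
    (∫ x in cube n, pcEval n P x / pcEval n Q x) (by
      refine Tendsto.congr (fun t => ?_) hlim
      congr 1
      refine integral_congr_ae (Eventually.of_forall fun x => ?_)
      simp only
      congr 1
      exact pcEval_coefT n w (by omega) x t)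
  exact ht

/-- The inner integral: `ratio_eq` at `z = Fin.append x s`, `pcEval_wTerm`, `integral_log_pow` (with `h = pcEval n Q x > 0`), `integral_finsetSum`
(each term is bounded on the cube, or use that each term is continuous on the cube and bounded by a constant as `EE ≥` a positive constant for fixed `x`),
and `1 / (j! 2^(r-j)) * (log h ^ j * 2^(r-j)) = log h ^ j / j!`. -/
theorem inner_integral {n r N : ℕ} {Q w : PCode} (hQ : ∀ y ∈ cube n, 0 < pcEval n Q y)
    {x : Fin n → ℝ} (hx : x ∈ cube n) :
    ∫ s in cube r, pcEval (n + r) (aCode n r N Q w) (Fin.append x s) /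
        pcEval (n + r) (dCode n r Q) (Fin.append x s) =
      ∑ j ∈ Finset.range (r + 1), pcEval n (coefT n (r - j) w) x *
        pcEval n Q x ^ N * Real.log (pcEval n Q x) ^ j / (j.factorial : ℝ) := by
  have hh : 0 < pcEval n Q x := hQ x hx
  have hleft : ∀ s : Fin r → ℝ, (fun l => (Fin.append x s : Fin (n + r) → ℝ) (Fin.castAdd r l)) = x :=
    fun s => funext fun l => Fin.append_left _ _ _
  have e1 : ∫ s in cube r, pcEval (n + r) (aCode n r N Q w) (Fin.append x s) /
        pcEval (n + r) (dCode n r Q) (Fin.append x s)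
      = ∫ s in cube r, ∑ j ∈ Finset.range (r + 1), (1 / ((j.factorial : ℝ) * 2 ^ (r - j)) *
          pcEval n (coefT n (r - j) w) x * pcEval n Q x ^ N) *
          ((pcEval n Q x - 1) ^ j / ∏ i : Fin r, (if (i : ℕ) < j then EE (pcEval n Q x) (s i) else 1)) := by
    refine setIntegral_congr_fun (Sum_cube_meas r) fun s hs => ?_
    rw [ratio_eq n r N Q w hQ (Sum_append_mem hx hs)]
    refine Finset.sum_congr rfl fun j _ => ?_
    rw [pcEval_wTerm, hleft s]
    simp only [Fin.append_right]
    ring
  rw [e1, integral_finsetSum _ fun j _ => ((Sum_integrable hh r j).const_mul _)]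
  refine Finset.sum_congr rfl fun j hj => ?_
  rw [integral_const_mul, integral_log_pow hh (by rw [Finset.mem_range] at hj; omega)]
  have h1 : (j.factorial : ℝ) ≠ 0 := by positivity
  have h2 : (2 : ℝ) ^ (r - j) ≠ 0 := by positivity
  field_simp

/-- `integral_cube_add` (LogB.lean), `inner_integral`, `value_log`. -/
theorem integral_ratio {n : ℕ} {P Q : PCode} {r N K : ℕ} {A w : PCode} {gs : List PCode}
    (hc : hcCheck n P Q (((r, N), K), (A, w), gs)) (H : Region (pcPoly n Q) (cube n))
    (hint : IntegrableOn (fun x => pcEval n P x / pcEval n Q x) (cube n))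
    (hG : IntegrableOn (fun z => pcEval (n + r) (aCode n r N Q w) z /
      pcEval (n + r) (dCode n r Q) z) (cube (n + r))) :
    ∫ z in cube (n + r), pcEval (n + r) (aCode n r N Q w) z / pcEval (n + r) (dCode n r Q) z =
      ∫ x in cube n, pcEval n P x / pcEval n Q x := by
  rw [integral_cube_add n r _ hG, value_log hc H hint]
  exact setIntegral_congr_fun (Sum_cube_meas n) fun x hx => inner_integral (fun y hy => H.pos y hy) hx

end Pool.Agent.Lib.MP_bbe012_lc.HC
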