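import Mathlib
import Pool.Agent.Lib.MP_bbe012_lc.HC.Codes

/-!
# The reduction is primitive recursive
-/

namespace Pool.Agent.Lib.MP_bbe012_lc.HC

open Primrec

variable {α : Type} [Primcodable α]

/-- `list_flatMap` and `Primrec.ite`. -/
theorem pr_coefT {n k : α → ℕ} {w : α → PCode} (hn : Primrec n) (hk : Primrec k)
    (hw : Primrec w) : Primrec fun a => coefT (n a) (k a) (w a) := by
  have hc : PrimrecPred fun q : α × (QCode × List ℕ) => q.2.2.getD (n q.1) 0 = k q.1 :=
    Primrec.eq.comp ((list_getD 0).comp (snd.comp snd) (hn.comp fst)) (hk.comp fst)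
  have h : Primrec₂ fun (a : α) (t : QCode × List ℕ) =>
      if t.2.getD (n a) 0 = k a then ([(t.1, t.2.take (n a))] : PCode) else [] :=
    Primrec.ite hc (list_cons.comp (pair (fst.comp snd)
      (list_take.comp (hn.comp fst) (snd.comp snd))) (const [])) (const [])
  exact list_flatMap hw h

theorem pr_eCode {n i : α → ℕ} {Q : α → PCode} (hn : Primrec n) (hQ : Primrec Q)
    (hi : Primrec i) : Primrec fun a => eCode (n a) (Q a) (i a) := by
  have h1 : Primrec fun a => pcVar (n a + i a) := pr_var (nat_add.comp hn hi)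
  exact pr_append (pr_append (pr_nat 1) (pr_neg h1))
    (pr_mul (pr_trunc hn hQ) (pr_append (pr_nat 1) h1))

theorem pr_cst {r j : α → ℕ} (hr : Primrec r) (hj : Primrec j) :
    Primrec fun a => cstCode (r a) (j a) := by
  have h1 : Primrec fun q : α × ℕ => ([(qinv q.2, [])] : PCode) :=
    list_cons.comp (pair (pair (const (1, 0)) snd) (const [])) (const [])
  exact pr_mul (pr_prodRange (g := fun _ i => [(qinv i, [])]) hj h1.to₂)
    (pr_pow (const _) (nat_sub.comp hr hj))

theorem pr_wTerm {n r j : α → ℕ} {w : α → PCode} (hn : Primrec n) (hr : Primrec r)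
    (hw : Primrec w) (hj : Primrec j) : Primrec fun a => wTerm (n a) (r a) (w a) (j a) :=
  pr_mul (pr_cst hr hj) (pr_trunc hn (pr_coefT hn (nat_sub.comp hr hj) hw))

theorem Prim_aTerm {n r N j : α → ℕ} {Q w : α → PCode} (hn : Primrec n) (hr : Primrec r)
    (hN : Primrec N) (hQ : Primrec Q) (hw : Primrec w) (hj : Primrec j) :
    Primrec fun a => aTerm (n a) (r a) (N a) (Q a) (w a) (j a) := by
  have hp : Primrec fun a => pcProdRange (r a) fun i =>
      if i < j a then pcNat 1 else eCode (n a) (Q a) i := by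
    refine pr_prodRange (g := fun a i => if i < j a then pcNat 1 else eCode (n a) (Q a) i) hr ?_
    exact Primrec.ite (nat_lt.comp snd (hj.comp fst)) (pr_nat 1)
      (pr_eCode (hn.comp fst) (hQ.comp fst) snd)
  exact pr_mul (pr_wTerm hn hr hw hj) (pr_mul (pr_mul (pr_pow (pr_trunc hn hQ) hN)
    (pr_pow (pr_append (pr_trunc hn hQ) (pr_neg (pr_nat 1))) hj)) hp)

/-- `pr_sumRange` (CheckComp.lean), `pr_prodRange` (Comp.lean). -/
theorem pr_aCode {n r N : α → ℕ} {Q w : α → PCode} (hn : Primrec n) (hr : Primrec r)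
    (hN : Primrec N) (hQ : Primrec Q) (hw : Primrec w) :
    Primrec fun a => aCode (n a) (r a) (N a) (Q a) (w a) :=
  pr_sumRange (g := fun a j => aTerm (n a) (r a) (N a) (Q a) (w a) j) (succ.comp hr)
    (Prim_aTerm (hn.comp fst) (hr.comp fst) (hN.comp fst) (hQ.comp fst) (hw.comp fst) snd).to₂

theorem pr_dCode {n r : α → ℕ} {Q : α → PCode} (hn : Primrec n) (hr : Primrec r)
    (hQ : Primrec Q) : Primrec fun a => dCode (n a) (r a) (Q a) :=
  pr_prodRange (g := fun a j => eCode (n a) (Q a) j) hr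
    (pr_eCode (hn.comp fst) (hQ.comp fst) snd).to₂

theorem pr_natSum {R : α → ℕ} {g : α → ℕ → ℕ} (hR : Primrec R) (hg : Primrec₂ g) :
    Primrec fun a => natSum (R a) (g a) :=
  list_foldr (list_range.comp hR) (const 0)
    (nat_add.comp (hg.comp fst (fst.comp snd)) (snd.comp snd)).to₂

/-- Powers of natural numbers by `nat_rec'` (or a lemma of Mathlib). -/
theorem pr_natPow {x k : α → ℕ} (hx : Primrec x) (hk : Primrec k) :
    Primrec fun a => x a ^ k a := by
  have h : Primrec fun a => (Nat.rec (motive := fun _ => ℕ) 1 (fun _ r => r * x a) (k a) : ℕ) :=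
    nat_rec' (f := k) (g := fun _ => 1) (h := fun a (q : ℕ × ℕ) => q.2 * x a) hk (const 1)
      (nat_mul.comp (snd.comp snd) (hx.comp fst)).to₂
  refine h.of_eq fun a => ?_
  induction k a with
  | zero => simp
  | succ m ih => rw [pow_succ, ← ih]

theorem Prim_expSum : Primrec fun l : List ℕ => l.foldr (fun i s => i + s) 0 :=
  list_foldr Primrec.id (const 0) (nat_add.comp (fst.comp snd) (snd.comp snd)).to₂

theorem primrec_pcK : Primrec pcK := by
  refine list_foldr (f := fun p : PCode => p) (g := fun _ => 0)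
    (h := fun (_ : PCode) (q : (QCode × List ℕ) × ℕ) =>
      4 * (q.1.1.1.1 + q.1.1.1.2) * 4 ^ q.1.2.foldr (fun i s => i + s) 0 + q.2)
    Primrec.id (const 0) ?_
  have ht : Primrec fun z : PCode × ((QCode × List ℕ) × ℕ) => z.2.1 := fst.comp snd
  have h1 : Primrec fun z : PCode × ((QCode × List ℕ) × ℕ) => z.2.1.1.1.1 :=
    fst.comp (fst.comp (fst.comp ht))
  have h2 : Primrec fun z : PCode × ((QCode × List ℕ) × ℕ) => z.2.1.1.1.2 :=
    snd.comp (fst.comp (fst.comp ht))
  have h3 : Primrec fun z : PCode × ((QCode × List ℕ) × ℕ) =>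
      z.2.1.2.foldr (fun i s => i + s) 0 := Prim_expSum.comp (snd.comp ht)
  exact nat_add.comp (nat_mul.comp (nat_mul.comp (const 4) (nat_add.comp h1 h2))
    (pr_natPow (const 4) h3)) (snd.comp snd)

theorem Prim_bB {n r : α → ℕ} {Q w : α → PCode} (hn : Primrec n) (hr : Primrec r)
    (hQ : Primrec Q) (hw : Primrec w) :
    Primrec fun a => bB (n a) (r a) (Q a) (w a) := by
  have h1 : Primrec fun a => pcK (pcTrunc (n a) (Q a)) := primrec_pcK.comp (pr_trunc hn hQ)
  have h2 : Primrec fun a => pcK (pcTrunc (n a) (Q a) ++ pcNeg (pcNat 1)) :=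
    primrec_pcK.comp (pr_append (pr_trunc hn hQ) (pr_neg (pr_nat 1)))
  have h3 : Primrec fun a => natSum (r a + 1) (fun j => pcK (wTerm (n a) (r a) (w a) j)) :=
    pr_natSum (g := fun a j => pcK (wTerm (n a) (r a) (w a) j)) (succ.comp hr)
      (primrec_pcK.comp (pr_wTerm (hn.comp fst) (hr.comp fst) (hw.comp fst) snd)).to₂
  have h4 : Primrec fun a => natSum (r a) (fun i => pcK (eCode (n a) (Q a) i)) :=
    pr_natSum (g := fun a i => pcK (eCode (n a) (Q a) i)) hr
      (primrec_pcK.comp (pr_eCode (hn.comp fst) (hQ.comp fst) snd)).to₂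
  exact nat_add.comp (nat_add.comp (nat_add.comp (nat_add.comp (const 1) h1) h2) h3) h4

theorem pr_cB {n r N : α → ℕ} {Q w : α → PCode} (hn : Primrec n) (hr : Primrec r)
    (hN : Primrec N) (hQ : Primrec Q) (hw : Primrec w) :
    Primrec fun a => cB (n a) (r a) (N a) (Q a) (w a) := by
  have h1 : Primrec fun a => 4 * (18 * bB (n a) (r a) (Q a) (w a) ^ 6) :=
    nat_mul.comp (const 4) (nat_mul.comp (const 18) (pr_natPow (Prim_bB hn hr hQ hw) (const 6)))
  exact nat_mul.comp (succ.comp hr) (pr_natPow h1 (succ.comp hN))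

end Pool.Agent.Lib.MP_bbe012_lc.HC
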