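import Mathlib
import Pool.Agent.Lib.MP_bbe012_lc.HC.Prim

/-!
# The reduction is primitive recursive, second part
-/

namespace Pool.Agent.Lib.MP_bbe012_lc.HC

open Primrec

theorem primrec_pcFlip : Primrec₂ pcFlip := by
  have hc : PrimrecPred fun q : (ℕ × PCode) × (QCode × List ℕ) => q.2.2.getD q.1.1 0 % 2 = 1 :=
    Primrec.eq.comp (nat_mod.comp ((list_getD 0).comp (snd.comp snd) (fst.comp fst)) (const 2))
      (const 1)
  have h : Primrec₂ fun (p : ℕ × PCode) (t : QCode × List ℕ) =>
      (if t.2.getD p.1 0 % 2 = 1 then qneg t.1 else t.1, t.2) :=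
    pair (Primrec.ite hc (primrec_qneg.comp (fst.comp snd)) (fst.comp snd)) (snd.comp snd)
  exact list_map snd h

theorem primrec_symStep : Primrec₂ symStep := by
  have h1 : Primrec fun p : ℕ × (PCode × PCode) => pcFlip p.1 p.2.1 :=
    primrec_pcFlip.comp fst (fst.comp snd)
  have h2 : Primrec fun p : ℕ × (PCode × PCode) => pcFlip p.1 p.2.2 :=
    primrec_pcFlip.comp fst (snd.comp snd)
  exact pair (pr_append (pr_mul (fst.comp snd) h2) (pr_mul h1 (snd.comp snd)))
    (pr_mul (pr_nat 2) (pr_mul (snd.comp snd) h2))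

/-- `Primrec.nat_rec'` with the argument `(k, s)`. -/
theorem primrec_symN : Primrec₂ symN :=
  nat_rec' (f := fun p : ℕ × (PCode × PCode) => p.1) (g := fun p : ℕ × (PCode × PCode) => p.2)
    (h := fun (_ : ℕ × (PCode × PCode)) (q : ℕ × (PCode × PCode)) => symStep q.1 q.2) fst snd
    (primrec_symStep.comp (fst.comp snd) (snd.comp snd))

section
variable {α : Type} [Primcodable α]

theorem pr_nCode {m C : α → ℕ} {s : α → PCode × PCode} (hm : Primrec m) (hC : Primrec C)
    (hs : Primrec s) : Primrec fun a => nCode (m a) (C a) (s a) := by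
  have hS : Primrec fun a => pcSumRange (m a) fun i =>
      pcNat 1 ++ pcNeg (pcMul (pcNat 3) (pcMul (pcVar i) (pcVar i))) :=
    pr_sumRange (g := fun _ i => pcNat 1 ++ pcNeg (pcMul (pcNat 3) (pcMul (pcVar i) (pcVar i)))) hm
      (pr_append (pr_nat 1) (pr_neg (pr_mul (pr_nat 3) (pr_mul (pr_var snd) (pr_var snd))))).to₂
  have hk : Primrec fun a => 6 * (m a + 1) * C a :=
    nat_mul.comp (nat_mul.comp (const 6) (succ.comp hm)) hC
  exact pr_trunc hm (pr_append (pr_mul (pr_append (pr_natv hk) (pr_mul (pr_natv hC) hS))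
    (snd.comp hs)) (pr_mul (pr_nat 3) (fst.comp hs)))

theorem pr_tCode {m C : α → ℕ} {s : α → PCode × PCode} (hm : Primrec m) (hC : Primrec C)
    (hs : Primrec s) : Primrec fun a => tCode (m a) (C a) (s a) := by
  have hk : Primrec fun a => 12 * (m a + 1) * C a :=
    nat_mul.comp (nat_mul.comp (const 12) (succ.comp hm)) hC
  exact pr_trunc hm (pr_mul (pr_natv hk) (snd.comp hs))

theorem pr_fCode {m C : α → ℕ} {s : α → PCode × PCode} (hm : Primrec m) (hC : Primrec C)
    (hs : Primrec s) : Primrec fun a => fCode (m a) (C a) (s a) := by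
  have h1 := pr_nCode hm hC hs
  have h2 := pr_tCode hm hC hs
  exact pr_append (pr_mul h1 h1) (pr_neg (pr_mul (pr_mul h2 h2) (pr_mul (pr_var hm) (pr_var hm))))

end

private theorem PrimB_n : Primrec fun x : (ℕ × PCode × PCode) × HC => x.1.1 := fst.comp fst

private theorem PrimB_r : Primrec fun x : (ℕ × PCode × PCode) × HC => x.2.1.1.1 :=
  fst.comp (fst.comp (fst.comp snd))

private theorem PrimB_N : Primrec fun x : (ℕ × PCode × PCode) × HC => x.2.1.1.2 :=
  snd.comp (fst.comp (fst.comp snd))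

private theorem PrimB_Q : Primrec fun x : (ℕ × PCode × PCode) × HC => x.1.2.2 :=
  snd.comp (snd.comp fst)

private theorem PrimB_w : Primrec fun x : (ℕ × PCode × PCode) × HC => x.2.2.1.2 :=
  snd.comp (fst.comp (snd.comp snd))

theorem primrec_ratCert : Primrec₂ ratCert :=
  pair (pr_aCode PrimB_n PrimB_r PrimB_N PrimB_Q PrimB_w) (pr_dCode PrimB_n PrimB_r PrimB_Q)

theorem primrec_mOf : Primrec₂ mOf := nat_add.comp PrimB_n PrimB_r

theorem primrec_cOf : Primrec₂ cOf := pr_cB PrimB_n PrimB_r PrimB_N PrimB_Q PrimB_w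

theorem primrec_coinOf : Primrec₂ coinOf :=
  pair (succ.comp primrec_mOf)
    (pr_fCode primrec_mOf primrec_cOf (primrec_symN.comp primrec_mOf primrec_ratCert))

theorem primrec_bddOf : Primrec₂ bddOf :=
  pair primrec_mOf (pair (fst.comp primrec_ratCert)
    (pr_mul (pr_natv primrec_cOf) (snd.comp primrec_ratCert)))

end Pool.Agent.Lib.MP_bbe012_lc.HC
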