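import Mathlib
import Pool.Agent.Lib.MP_bbe012_lc.Defs

/-!
# Transfer of decision procedures
-/

namespace Pool.Agent.Lib.MP_bbe012_lc.HC

/-- Transfer along a primitive recursive map. -/
theorem transfer {α β : Type} [Primcodable α] [Primcodable β] {adm p : α → Prop}
    {adm' p' : β → Prop} (f : α → β) (hf : Primrec f) (h1 : ∀ a, adm a → adm' (f a))
    (h2 : ∀ a, adm a → (p' (f a) ↔ p a)) (h : DecidableOn adm' p') : DecidableOn adm p := by
  obtain ⟨d, hd, hd'⟩ := h
  refine ⟨fun a => d (f a), hd.comp hf.to_comp, fun a ha => ?_⟩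
  obtain ⟨b, hb, hb'⟩ := hd' (f a) (h1 a ha)
  exact ⟨b, hb, hb'.trans (h2 a ha)⟩

/-- Transfer with a search: `s` finds a certificate, and `mk` produces from the input and any
certificate found an equivalent instance of the other problem. (`Partrec.bind`, `Part.mem_bind_iff`.) -/
theorem transfer_search {α β γ δ : Type} [Primcodable α] [Primcodable β] [Primcodable γ] [Primcodable δ]
    {adm p : α → Prop} {adm' p' : β → Prop} (f : α → δ) (hf : Primrec f) (s : δ →. γ) (hs : Partrec s)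
    (mk : δ → γ → β) (hmk : Primrec₂ mk) (hdom : ∀ a, adm a → (s (f a)).Dom)
    (h1 : ∀ a, adm a → ∀ c ∈ s (f a), adm' (mk (f a) c))
    (h2 : ∀ a, adm a → ∀ c ∈ s (f a), (p' (mk (f a) c) ↔ p a)) (h : DecidableOn adm' p') :
    DecidableOn adm p := by
  obtain ⟨d, hd, hd'⟩ := h
  refine ⟨fun a => (s (f a)).bind fun c => d (mk (f a) c), ?_, fun a ha => ?_⟩
  · have h3 : Partrec₂ fun (a : α) (c : γ) => d (mk (f a) c) :=
      hd.comp (hmk.comp (hf.comp Primrec.fst) Primrec.snd).to_comp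
    exact (hs.comp hf.to_comp).bind h3
  · obtain ⟨c, hc⟩ := Part.dom_iff_mem.mp (hdom a ha)
    obtain ⟨b, hb, hb'⟩ := hd' (mk (f a) c) (h1 a ha c hc)
    exact ⟨b, Part.mem_bind_iff.mpr ⟨c, hc, hb⟩, hb'.trans (h2 a ha c hc)⟩

end Pool.Agent.Lib.MP_bbe012_lc.HC
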