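import Mathlib
import Pool.Agent.Lib.MP_bbe012_lc.HC.BdA

/-!
# Quotients, and concavity
-/

namespace Pool.Agent.Lib.MP_bbe012_lc.HC

open Set Filter Topology

variable {m : ℕ}

theorem BdC_aux1 {H E : ℝ → ℝ} {a c t : ℝ} (hH : HasDerivAt H a t) (hE : HasDerivAt E c t)
    (h0 : E t ≠ 0) :
    HasDerivAt (fun τ => H τ ^ 3 / E τ) (3 * H t ^ 2 * a / E t - H t ^ 3 * c / E t ^ 2) t := by
  have h := (hH.fun_pow 3).fun_div hE h0
  refine h.congr_deriv ?_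
  push_cast
  field_simp

theorem BdC_aux2 {H H1 E E1 : ℝ → ℝ} {a b c d t : ℝ} (hH : HasDerivAt H a t)
    (hH1 : HasDerivAt H1 b t) (hE : HasDerivAt E c t) (hE1 : HasDerivAt E1 d t) (h0 : E t ≠ 0) :
    HasDerivAt (fun τ => 3 * H τ ^ 2 * H1 τ / E τ - H τ ^ 3 * E1 τ / E τ ^ 2)
      ((6 * H t * a * H1 t + 3 * H t ^ 2 * b) / E t - 3 * H t ^ 2 * H1 t * c / E t ^ 2
        - ((3 * H t ^ 2 * a * E1 t + H t ^ 3 * d) / E t ^ 2
          - 2 * H t ^ 3 * E1 t * c / E t ^ 3)) t := by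
  have h2 : E t ^ 2 ≠ 0 := pow_ne_zero 2 h0
  have h3 := (((hH.fun_pow 2).const_mul 3).fun_mul hH1).fun_div hE h0
  have h4 := ((hH.fun_pow 3).fun_mul hE1).fun_div (hE.fun_pow 2) h2
  refine (h3.fun_sub h4).congr_deriv ?_
  push_cast
  field_simp
  ring

theorem BdC_aux3 {h h1 E E1 θ κ B n : ℝ} (hθ : h = θ * E) (hE0 : 0 < E) (hθκ : |θ| ≤ κ)
    (hB : 1 ≤ B) (hκ1 : 1 ≤ κ) (hn : 0 ≤ n) (hb : |h| ≤ B) (hb1 : |h1| ≤ B * n)
    (hE1 : |E1| ≤ B * n) :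
    |3 * h ^ 2 * h1 / E - h ^ 3 * E1 / E ^ 2| ≤ 18 * κ ^ 3 * B ^ 3 * n := by
  have e : 3 * h ^ 2 * h1 / E - h ^ 3 * E1 / E ^ 2 = 3 * (h * θ * h1) - h * θ ^ 2 * E1 := by
    rw [hθ]; field_simp
  rw [e]
  have hκ0 : 0 ≤ κ := by linarith
  have hB0 : 0 ≤ B := by linarith
  have a1 : |h * θ * h1| ≤ B * κ * (B * n) := by
    rw [abs_mul, abs_mul]
    exact mul_le_mul (mul_le_mul hb hθκ (abs_nonneg _) hB0) hb1 (abs_nonneg _) (by positivity)
  have a2 : |h * θ ^ 2 * E1| ≤ B * κ ^ 2 * (B * n) := by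
    rw [abs_mul, abs_mul, abs_pow]
    exact mul_le_mul (mul_le_mul hb (pow_le_pow_left₀ (abs_nonneg _) hθκ 2) (by positivity) hB0)
      hE1 (abs_nonneg _) (by positivity)
  have a3 : |3 * (h * θ * h1) - h * θ ^ 2 * E1| ≤ 3 * (B * κ * (B * n)) + B * κ ^ 2 * (B * n) := by
    rw [abs_le] at a1 a2 ⊢
    constructor <;> linarith [a1.1, a1.2, a2.1, a2.2]
  refine a3.trans ?_
  have k1 : κ ≤ κ ^ 3 := by nlinarith [mul_nonneg hκ0 hκ0, mul_nonneg (mul_nonneg hκ0 hκ0) (sub_nonneg.2 hκ1), mul_nonneg hκ0 (sub_nonneg.2 hκ1)]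
  have k2 : κ ^ 2 ≤ κ ^ 3 := by nlinarith [mul_nonneg (mul_nonneg hκ0 hκ0) (sub_nonneg.2 hκ1)]
  have k3 : B ^ 2 ≤ B ^ 3 := by nlinarith [mul_nonneg (mul_nonneg hB0 hB0) (sub_nonneg.2 hB)]
  have k4 : κ * (B ^ 2 * n) ≤ κ ^ 3 * (B ^ 3 * n) :=
    mul_le_mul k1 (mul_le_mul_of_nonneg_right k3 hn) (by positivity) (by positivity)
  have k5 : κ ^ 2 * (B ^ 2 * n) ≤ κ ^ 3 * (B ^ 3 * n) :=
    mul_le_mul k2 (mul_le_mul_of_nonneg_right k3 hn) (by positivity) (by positivity)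
  have k6 : 0 ≤ κ ^ 3 * (B ^ 3 * n) := by positivity
  nlinarith

theorem BdC_aux4 {h h1 h2 E E1 E2 θ κ B n : ℝ} (hθ : h = θ * E) (hE0 : 0 < E) (hθκ : |θ| ≤ κ)
    (hB : 1 ≤ B) (hκ1 : 1 ≤ κ) (hn : 0 ≤ n) (hb : |h| ≤ B) (hb1 : |h1| ≤ B * n)
    (hb2 : |h2| ≤ B * n ^ 2) (hE1 : |E1| ≤ B * n) (hE2 : |E2| ≤ B * n ^ 2) :
    |(6 * h * h1 * h1 + 3 * h ^ 2 * h2) / E - 3 * h ^ 2 * h1 * E1 / E ^ 2
        - ((3 * h ^ 2 * h1 * E1 + h ^ 3 * E2) / E ^ 2
          - 2 * h ^ 3 * E1 * E1 / E ^ 3)| ≤ 18 * κ ^ 3 * B ^ 3 * n ^ 2 := by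
  have e : (6 * h * h1 * h1 + 3 * h ^ 2 * h2) / E - 3 * h ^ 2 * h1 * E1 / E ^ 2
        - ((3 * h ^ 2 * h1 * E1 + h ^ 3 * E2) / E ^ 2
          - 2 * h ^ 3 * E1 * E1 / E ^ 3) =
      6 * (θ * h1 * h1) + 3 * (h * θ * h2) - 6 * (θ ^ 2 * h1 * E1) - h * θ ^ 2 * E2 +
        2 * (θ ^ 3 * E1 * E1) := by
    rw [hθ]; field_simp; ring
  rw [e]
  have hκ0 : 0 ≤ κ := by linarith
  have hB0 : 0 ≤ B := by linarith
  have t2 : |θ ^ 2| ≤ κ ^ 2 := by
    rw [abs_pow]; exact pow_le_pow_left₀ (abs_nonneg _) hθκ 2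
  have t3 : |θ ^ 3| ≤ κ ^ 3 := by
    rw [abs_pow]; exact pow_le_pow_left₀ (abs_nonneg _) hθκ 3
  have a1 : |θ * h1 * h1| ≤ κ * (B * n) * (B * n) := by
    rw [abs_mul, abs_mul]
    exact mul_le_mul (mul_le_mul hθκ hb1 (abs_nonneg _) hκ0) hb1 (abs_nonneg _) (by positivity)
  have a2 : |h * θ * h2| ≤ B * κ * (B * n ^ 2) := by
    rw [abs_mul, abs_mul]
    exact mul_le_mul (mul_le_mul hb hθκ (abs_nonneg _) hB0) hb2 (abs_nonneg _) (by positivity)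
  have a3 : |θ ^ 2 * h1 * E1| ≤ κ ^ 2 * (B * n) * (B * n) := by
    rw [abs_mul, abs_mul]
    exact mul_le_mul (mul_le_mul t2 hb1 (abs_nonneg _) (by positivity)) hE1 (abs_nonneg _)
      (by positivity)
  have a4 : |h * θ ^ 2 * E2| ≤ B * κ ^ 2 * (B * n ^ 2) := by
    rw [abs_mul, abs_mul]
    exact mul_le_mul (mul_le_mul hb t2 (abs_nonneg _) hB0) hE2 (abs_nonneg _) (by positivity)
  have a5 : |θ ^ 3 * E1 * E1| ≤ κ ^ 3 * (B * n) * (B * n) := by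
    rw [abs_mul, abs_mul]
    exact mul_le_mul (mul_le_mul t3 hE1 (abs_nonneg _) (by positivity)) hE1 (abs_nonneg _)
      (by positivity)
  have a6 : |6 * (θ * h1 * h1) + 3 * (h * θ * h2) - 6 * (θ ^ 2 * h1 * E1) - h * θ ^ 2 * E2 +
        2 * (θ ^ 3 * E1 * E1)| ≤ 6 * (κ * (B * n) * (B * n)) + 3 * (B * κ * (B * n ^ 2)) +
        6 * (κ ^ 2 * (B * n) * (B * n)) + B * κ ^ 2 * (B * n ^ 2) +
        2 * (κ ^ 3 * (B * n) * (B * n)) := by
    rw [abs_le] at a1 a2 a3 a4 a5 ⊢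
    constructor <;> linarith [a1.1, a1.2, a2.1, a2.2, a3.1, a3.2, a4.1, a4.2, a5.1, a5.2]
  refine a6.trans ?_
  have k1 : κ ≤ κ ^ 3 := by nlinarith [mul_nonneg hκ0 hκ0, mul_nonneg (mul_nonneg hκ0 hκ0) (sub_nonneg.2 hκ1), mul_nonneg hκ0 (sub_nonneg.2 hκ1)]
  have k2 : κ ^ 2 ≤ κ ^ 3 := by nlinarith [mul_nonneg (mul_nonneg hκ0 hκ0) (sub_nonneg.2 hκ1)]
  have k3 : B ^ 2 ≤ B ^ 3 := by nlinarith [mul_nonneg (mul_nonneg hB0 hB0) (sub_nonneg.2 hB)]
  have k4 : κ * (B ^ 2 * n ^ 2) ≤ κ ^ 3 * (B ^ 3 * n ^ 2) :=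
    mul_le_mul k1 (mul_le_mul_of_nonneg_right k3 (by positivity)) (by positivity) (by positivity)
  have k5 : κ ^ 2 * (B ^ 2 * n ^ 2) ≤ κ ^ 3 * (B ^ 3 * n ^ 2) :=
    mul_le_mul k2 (mul_le_mul_of_nonneg_right k3 (by positivity)) (by positivity) (by positivity)
  have k6 : κ ^ 3 * (B ^ 2 * n ^ 2) ≤ κ ^ 3 * (B ^ 3 * n ^ 2) :=
    mul_le_mul_of_nonneg_left (mul_le_mul_of_nonneg_right k3 (by positivity)) (by positivity)
  nlinarith

/-- The function `h ^ 3 / E`, where `E > 0` and `h ≤ κ E`.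
With `θ = h / E`, `|θ| ≤ κ`: first derivative `3 h θ h1 - h θ^2 E1`, second derivative
`6 θ h1^2 + 3 h θ h2 - 6 θ^2 h1 E1 - h θ^2 E2 + 2 θ^3 E1^2`. (As functions: `3 h^2 h1 / E - h^3 E1 / E^2` and its derivative.) -/
theorem Bd2.cube_div {h E : (Fin m → ℝ) → ℝ} {B κ : ℝ} (hh : Bd2 m h B) (hE : Bd2 m E B)
    (hpos : ∀ x ∈ cube m, 0 < E x) (hκ : ∀ x ∈ cube m, |h x| ≤ κ * E x) (hB : 1 ≤ B)
    (hκ1 : 1 ≤ κ) : Bd2 m (fun x => h x ^ 3 / E x) (18 * κ ^ 3 * B ^ 3) := by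
  obtain ⟨h1, h2, hh⟩ := hh
  obtain ⟨E1, E2, hE⟩ := hE
  refine ⟨fun x u => 3 * h x ^ 2 * h1 x u / E x - h x ^ 3 * E1 x u / E x ^ 2,
    fun x u => (6 * h x * h1 x u * h1 x u + 3 * h x ^ 2 * h2 x u) / E x
      - 3 * h x ^ 2 * h1 x u * E1 x u / E x ^ 2
        - ((3 * h x ^ 2 * h1 x u * E1 x u + h x ^ 3 * E2 x u) / E x ^ 2
          - 2 * h x ^ 3 * E1 x u * E1 x u / E x ^ 3), ?_⟩
  intro x hx u
  obtain ⟨a1, a2, a3, a4, a5⟩ := hh x hx u
  obtain ⟨b1, b2, b3, b4, b5⟩ := hE x hx u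
  have hEx := hpos x hx
  have hE0 : E x ≠ 0 := hEx.ne'
  have hκ0 : 0 ≤ κ := by linarith
  have hB0 : 0 ≤ B := by linarith
  have hθ : h x = h x / E x * E x := by field_simp
  have hθκ : |h x / E x| ≤ κ := by
    rw [abs_div, abs_of_pos hEx, div_le_iff₀ hEx]
    exact hκ x hx
  have hx0 : x + (0 : ℝ) • u = x := by simp
  refine ⟨?_, ?_, ?_, ?_, ?_⟩
  · have e : h x ^ 3 / E x = h x ^ 2 * (h x / E x) := by field_simp
    change |h x ^ 3 / E x| ≤ 18 * κ ^ 3 * B ^ 3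
    rw [e, abs_mul, abs_pow]
    have c1 : |h x| ^ 2 * |h x / E x| ≤ B ^ 2 * κ :=
      mul_le_mul (pow_le_pow_left₀ (abs_nonneg _) a1 2) hθκ (abs_nonneg _) (by positivity)
    refine c1.trans ?_
    have k1 : κ ≤ κ ^ 3 := by nlinarith [mul_nonneg hκ0 hκ0, mul_nonneg (mul_nonneg hκ0 hκ0) (sub_nonneg.2 hκ1), mul_nonneg hκ0 (sub_nonneg.2 hκ1)]
    have k3 : B ^ 2 ≤ B ^ 3 := by nlinarith [mul_nonneg (mul_nonneg hB0 hB0) (sub_nonneg.2 hB)]
    have k4 : B ^ 2 * κ ≤ B ^ 3 * κ ^ 3 := mul_le_mul k3 k1 hκ0 (by positivity)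
    have k5 : 0 ≤ B ^ 3 * κ ^ 3 := by positivity
    nlinarith
  · exact BdC_aux3 hθ hEx hθκ hB hκ1 (norm_nonneg u) a1 a2 b2
  · exact BdC_aux4 hθ hEx hθκ hB hκ1 (norm_nonneg u) a1 a2 a3 b2 b3
  · have := BdC_aux1 a4 b4 (by rw [hx0]; exact hE0)
    simp only [hx0] at this
    exact this
  · have := BdC_aux2 a4 a5 b4 b5 (by rw [hx0]; exact hE0)
    simp only [hx0] at this
    exact this

/-- Concavity after subtraction of a multiple of the square of the norm.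
For `x, y` in the cube put `u = y - x` and `g τ = f (x + τ u) - B ∑ (x + τ u)_i^2` on the set `D` of the `τ` with `x + τ u` in the cube (open, convex,
contains `[0, 1]`). `g' τ = f1 (x + τ u) u - 2 B ∑ (x + τ u)_i u_i`, `g'' τ = f2 (x + τ u) u - 2 B ∑ u_i^2 ≤ B ‖u‖^2 - 2 B ∑ u_i^2 ≤ 0`
(`‖u‖^2 ≤ ∑ u_i^2` for the sup norm). `concaveOn_of_deriv2_nonpos` or `concaveOn_of_deriv2_nonpos'` in Mathlib, then specialise to `0, 1`.
(The derivative at `τ` from the one at `0` for the base point `x + τ u`: compose with a translation.) -/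
theorem Bd2.concave {f : (Fin m → ℝ) → ℝ} {B : ℝ} (hf : Bd2 m f B) :
    ConcaveOn ℝ (cube m) fun x => f x - B * ∑ i, x i ^ 2 := by
  have hB := hf.nonneg
  obtain ⟨f1, f2, hf⟩ := hf
  refine ⟨convex_cube m, ?_⟩
  intro x hx y hy a b ha hb hab
  set u : Fin m → ℝ := y - x with hu
  set D : Set ℝ := {τ : ℝ | x + τ • u ∈ cube m} with hD
  have hDc : Convex ℝ D := by
    intro s hs t ht c d hc hd hcd
    have e : x + (c • s + d • t) • u = c • (x + s • u) + d • (x + t • u) := by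
      have : x = (c + d) • x := by rw [hcd, one_smul]
      nth_rewrite 1 [this]
      module
    change x + (c • s + d • t) • u ∈ cube m
    rw [e]
    exact convex_cube m hs ht hc hd hcd
  have hcomp : ∀ (t : ℝ) (g : (Fin m → ℝ) → ℝ) (v : ℝ),
      HasDerivAt (fun τ : ℝ => g (x + t • u + τ • u)) v 0 →
      HasDerivAt (fun τ : ℝ => g (x + τ • u)) v t := by
    intro t g v hg
    have h1 : HasDerivAt (fun τ : ℝ => τ - t) 1 t := (hasDerivAt_id t).sub_const t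
    have h2 : HasDerivAt (fun τ : ℝ => g (x + t • u + τ • u)) v (t - t) := by
      rw [sub_self]; exact hg
    have h3 := HasDerivAt.comp (h := fun τ : ℝ => τ - t)
      (h₂ := fun τ : ℝ => g (x + t • u + τ • u)) t h2 h1
    rw [mul_one] at h3
    refine h3.congr_of_eventuallyEq (Filter.Eventually.of_forall fun τ => ?_)
    change g (x + τ • u) = g (x + t • u + (τ - t) • u)
    congr 1
    module
  have hlin : ∀ (t : ℝ) (i : Fin m), HasDerivAt (fun τ : ℝ => (x + τ • u) i) (u i) t := by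
    intro t i
    have h1 : HasDerivAt (fun τ : ℝ => x i + τ * u i) (1 * u i) t :=
      ((hasDerivAt_id t).mul_const (u i)).const_add (x i)
    rw [one_mul] at h1
    exact h1
  have hconc : ConcaveOn ℝ D fun τ : ℝ => f (x + τ • u) - B * ∑ i, (x + τ • u) i ^ 2 := by
    refine concaveOn_of_hasDerivWithinAt2_nonpos hDc
      (f' := fun τ => f1 (x + τ • u) u - B * ∑ i, 2 * (x + τ • u) i * u i)
      (f'' := fun τ => f2 (x + τ • u) u - B * ∑ i, 2 * u i * u i) ?_ ?_ ?_ ?_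
    · intro t ht
      have h1 := hcomp t f _ (hf _ ht u).2.2.2.1
      have h2 : Continuous fun τ : ℝ => B * ∑ i, (x + τ • u) i ^ 2 := by fun_prop
      exact (h1.continuousAt.sub h2.continuousAt).continuousWithinAt
    · intro t ht
      have ht' := interior_subset ht
      have h1 := hcomp t f _ (hf _ ht' u).2.2.2.1
      have h2 : HasDerivAt (fun τ : ℝ => ∑ i, (x + τ • u) i ^ 2)
          (∑ i, 2 * (x + t • u) i * u i) t := by
        refine HasDerivAt.fun_sum fun i _ => ?_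
        have h3 := (hlin t i).fun_pow 2
        refine h3.congr_deriv ?_
        push_cast
        ring
      exact (h1.fun_sub (h2.const_mul B)).hasDerivWithinAt
    · intro t ht
      have ht' := interior_subset ht
      have h1 := hcomp t (fun z => f1 z u) _ (hf _ ht' u).2.2.2.2
      have h2 : HasDerivAt (fun τ : ℝ => ∑ i, 2 * (x + τ • u) i * u i)
          (∑ i, 2 * u i * u i) t := by
        refine HasDerivAt.fun_sum fun i _ => ?_
        exact ((hlin t i).const_mul 2).mul_const (u i)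
      exact (h1.fun_sub (h2.const_mul B)).hasDerivWithinAt
    · intro t ht
      have ht' := interior_subset ht
      have h1 := (abs_le.1 (hf _ ht' u).2.2.1).2
      have h2 : ‖u‖ ^ 2 ≤ ∑ i, 2 * u i * u i := by
        have h3 : ∀ i, |u i| ^ 2 ≤ ∑ j, u j * u j := by
          intro i
          rw [sq_abs, pow_two]
          exact Finset.single_le_sum (f := fun j => u j * u j) (fun j _ => mul_self_nonneg (u j))
            (Finset.mem_univ i)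
        have h4 : 0 ≤ ∑ j, u j * u j := Finset.sum_nonneg fun j _ => mul_self_nonneg (u j)
        have h5 : ‖u‖ ≤ Real.sqrt (∑ j, u j * u j) := by
          refine (pi_norm_le_iff_of_nonneg (Real.sqrt_nonneg _)).2 fun i => ?_
          rw [Real.norm_eq_abs]
          exact Real.le_sqrt_of_sq_le (h3 i)
        have h6 : ‖u‖ ^ 2 ≤ ∑ j, u j * u j := by
          calc ‖u‖ ^ 2 ≤ Real.sqrt (∑ j, u j * u j) ^ 2 := pow_le_pow_left₀ (norm_nonneg _) h5 2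
            _ = _ := Real.sq_sqrt h4
        have h7 : ∑ i, 2 * u i * u i = 2 * ∑ i, u i * u i := by
          rw [Finset.mul_sum]
          exact Finset.sum_congr rfl fun i _ => by ring
        rw [h7]
        linarith
      have h8 := mul_le_mul_of_nonneg_left h2 hB
      change f2 (x + t • u) u - B * ∑ i, 2 * u i * u i ≤ 0
      linarith
  have h0 : (0 : ℝ) ∈ D := by
    change x + (0 : ℝ) • u ∈ cube m
    rw [zero_smul, add_zero]; exact hx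
  have h1 : (1 : ℝ) ∈ D := by
    change x + (1 : ℝ) • u ∈ cube m
    rw [one_smul, hu, add_sub_cancel]; exact hy
  have h2 := hconc.2 h0 h1 ha hb hab
  have e0 : x + (0 : ℝ) • u = x := by rw [zero_smul, add_zero]
  have e1 : x + (1 : ℝ) • u = y := by rw [one_smul, hu, add_sub_cancel]
  have e2 : x + (a • (0 : ℝ) + b • (1 : ℝ)) • u = a • x + b • y := by
    have : x = (a + b) • x := by rw [hab, one_smul]
    nth_rewrite 1 [this]
    rw [hu]
    module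
  simp only [e0, e1, e2] at h2
  exact h2

end Pool.Agent.Lib.MP_bbe012_lc.HC
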