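import Mathlib
import Pool.Agent.Lib.MP_bbe012_lc.HC.Eval
import Pool.Agent.Lib.MP_bbe012_lc.HC.BdC

/-!
# The quotient attached to a certificate has bounded second derivatives
-/

namespace Pool.Agent.Lib.MP_bbe012_lc.HC

open Set

theorem BdG_foldr (g : ℕ → ℕ) (l : List ℕ) {i : ℕ} (hi : i ∈ l) :
    g i ≤ l.foldr (fun i a => g i + a) 0 := by
  induction l with
  | nil => simp at hi
  | cons a l ih =>
    rw [List.foldr_cons]
    rcases List.mem_cons.1 hi with h | h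
    · rw [h]
      exact Nat.le_add_right _ _
    · exact (ih h).trans (Nat.le_add_left _ _)

/-- `g i ≤ natSum R g` for `i < R`. -/
theorem le_natSum {R : ℕ} (g : ℕ → ℕ) {i : ℕ} (hi : i < R) : g i ≤ natSum R g := by
  unfold natSum
  exact BdG_foldr g _ (List.mem_range.2 hi)

/-- The polynomials `h`, `h - 1`, `EE_i`, and the coefficients have the bound `bB`.
`bd2_pcEval` and `Bd2.mono`. -/
theorem bd2_parts (n r : ℕ) (Q w : PCode) :
    Bd2 (n + r) (pcEval (n + r) (pcTrunc n Q)) (bB n r Q w) ∧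
    Bd2 (n + r) (fun z => pcEval (n + r) (pcTrunc n Q) z - 1) (bB n r Q w) ∧
    (∀ j < r + 1, Bd2 (n + r) (pcEval (n + r) (wTerm n r w j)) (bB n r Q w)) ∧
    ∀ i < r, Bd2 (n + r) (pcEval (n + r) (eCode n Q i)) (bB n r Q w) := by
  refine ⟨?_, ?_, fun j hj => ?_, fun i hi => ?_⟩
  · refine (bd2_pcEval (n + r) (pcTrunc n Q)).mono ?_
    exact_mod_cast (by unfold bB; omega : pcK (pcTrunc n Q) ≤ bB n r Q w)
  · have h1 := (bd2_pcEval (n + r) (pcTrunc n Q ++ pcNeg (pcNat 1))).mono (B' := (bB n r Q w : ℝ))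
      (by exact_mod_cast (by unfold bB; omega : pcK (pcTrunc n Q ++ pcNeg (pcNat 1)) ≤ bB n r Q w))
    refine h1.congr fun z _ => ?_
    rw [pcEval_append, pcEval_neg, pcEval_nat]
    push_cast
    ring
  · refine (bd2_pcEval (n + r) (wTerm n r w j)).mono ?_
    have h1 : pcK (wTerm n r w j) ≤ natSum (r + 1) (fun j => pcK (wTerm n r w j)) :=
      le_natSum (fun j => pcK (wTerm n r w j)) hj
    exact_mod_cast (by unfold bB; omega : pcK (wTerm n r w j) ≤ bB n r Q w)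
  · refine (bd2_pcEval (n + r) (eCode n Q i)).mono ?_
    have h1 : pcK (eCode n Q i) ≤ natSum r (fun i => pcK (eCode n Q i)) :=
      le_natSum (fun i => pcK (eCode n Q i)) hi
    exact_mod_cast (by unfold bB; omega : pcK (eCode n Q i) ≤ bB n r Q w)

theorem BdG_proj {n r : ℕ} {z : Fin (n + r) → ℝ} (hz : z ∈ cube (n + r)) :
    (fun l => z (Fin.castAdd r l)) ∈ cube n := fun _ => hz _

theorem BdG_h (n r : ℕ) (Q : PCode) (z : Fin (n + r) → ℝ) :
    pcEval (n + r) (pcTrunc n Q) z = pcEval n Q fun l => z (Fin.castAdd r l) :=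
  pcEval_trunc (Nat.le_add_right n r) Q z

/-- The functions `h ^ 3 / EE_i`: `Bd2.cube_div` with `κ = B = bB n r Q w` (`le_mul_EE`, where `h ≤ bB` by the first part of `bd2_parts`), and
`18 * B ^ 3 * B ^ 3 = 18 * B ^ 6`. -/
theorem bd2_psi (n r : ℕ) (Q w : PCode) (hQ : ∀ y ∈ cube n, 0 < pcEval n Q y) {i : ℕ} (hi : i < r) :
    Bd2 (n + r) (fun z => pcEval (n + r) (pcTrunc n Q) z ^ 3 / pcEval (n + r) (eCode n Q i) z)
      (18 * (bB n r Q w : ℝ) ^ 6) := by
  obtain ⟨h1, -, -, h4⟩ := bd2_parts n r Q w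
  have hB1 : (1 : ℝ) ≤ bB n r Q w := by exact_mod_cast one_le_bB n r Q w
  have hpos : ∀ x ∈ cube (n + r), 0 < pcEval (n + r) (eCode n Q i) x := by
    intro x hx
    have := pcEval_eCode n r Q ⟨i, hi⟩ x
    rw [this]
    exact EE_pos (hQ _ (BdG_proj hx)) (hx _)
  have hκ : ∀ x ∈ cube (n + r), |pcEval (n + r) (pcTrunc n Q) x| ≤
      (bB n r Q w : ℝ) * pcEval (n + r) (eCode n Q i) x := by
    intro x hx
    obtain ⟨f1, f2, hf⟩ := h1
    have h5 := (hf x hx 0).1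
    rw [BdG_h] at h5 ⊢
    have h6 := hQ _ (BdG_proj hx)
    rw [abs_of_pos h6] at h5 ⊢
    have h7 := pcEval_eCode n r Q ⟨i, hi⟩ x
    rw [h7]
    exact le_mul_EE h6 hB1 h5 (hx _)
  have h8 := Bd2.cube_div h1 (h4 i hi) hpos hκ hB1 hB1
  refine h8.mono (le_of_eq ?_)
  ring

/-- With `B' := 18 * B ^ 6 ≥ B ≥ 1`: `Bd2.pow`, `Bd2.prod` give the bounds `(4 B')^(N - 3j)`, `(4 B')^j`, `(4 B')^j` for the three factors in the bracket
(`Bd2.mono` first), `Bd2.mul` three times gives a factor `64`, and `64 * B ≤ 4 * B'`, so the product has the bound `(4 B')^(1 + (N - 3j) + j + j) ≤ (4 B')^(N + 1)`. -/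
theorem bd2_term (n r N : ℕ) (Q w : PCode) (hQ : ∀ y ∈ cube n, 0 < pcEval n Q y)
    (hN : 3 * r + 3 ≤ N) {j : ℕ} (hj : j < r + 1) :
    Bd2 (n + r) (fun z => pcEval (n + r) (wTerm n r w j) z *
      (pcEval (n + r) (pcTrunc n Q) z ^ (N - 3 * j) *
        (pcEval (n + r) (pcTrunc n Q) z - 1) ^ j *
        ∏ i ∈ Finset.range j,
          (pcEval (n + r) (pcTrunc n Q) z ^ 3 / pcEval (n + r) (eCode n Q i) z)))
      ((4 * (18 * (bB n r Q w : ℝ) ^ 6)) ^ (N + 1)) := by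
  obtain ⟨h1, h2, h3, -⟩ := bd2_parts n r Q w
  have hB1 : (1 : ℝ) ≤ bB n r Q w := by exact_mod_cast one_le_bB n r Q w
  set B : ℝ := (bB n r Q w : ℝ) with hB
  have hB6 : B ≤ B ^ 6 := le_self_pow₀ hB1 (by norm_num)
  have hBB : B ≤ 18 * B ^ 6 := by linarith
  have h5 : Bd2 (n + r) (fun z => pcEval (n + r) (pcTrunc n Q) z ^ (N - 3 * j))
      ((4 * (18 * B ^ 6)) ^ (N - 3 * j)) := (h1.mono hBB).pow _
  have h6 : Bd2 (n + r) (fun z => (pcEval (n + r) (pcTrunc n Q) z - 1) ^ j)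
      ((4 * (18 * B ^ 6)) ^ j) := (h2.mono hBB).pow _
  have h7 : Bd2 (n + r) (fun z => ∏ i ∈ Finset.range j,
      (pcEval (n + r) (pcTrunc n Q) z ^ 3 / pcEval (n + r) (eCode n Q i) z))
      ((4 * (18 * B ^ 6)) ^ j) :=
    Bd2.prod (f := fun i z => pcEval (n + r) (pcTrunc n Q) z ^ 3 / pcEval (n + r) (eCode n Q i) z)
      fun i hi => bd2_psi n r Q w hQ (by omega)
  have h8 := (h3 j hj).mul ((h5.mul h6).mul h7)
  refine h8.mono ?_
  set P : ℝ := 4 * (18 * B ^ 6) with hP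
  have hP1 : 1 ≤ P := by linarith
  have hPB : 64 * B ≤ P := by linarith
  have h9 : 4 * B * (4 * (4 * P ^ (N - 3 * j) * P ^ j) * P ^ j) = 64 * B * P ^ (N - 3 * j + j + j) := by
    rw [pow_add, pow_add]
    ring
  rw [h9]
  calc 64 * B * P ^ (N - 3 * j + j + j) ≤ P * P ^ (N - 3 * j + j + j) :=
        mul_le_mul_of_nonneg_right hPB (by positivity)
    _ = P ^ (N - 3 * j + j + j + 1) := by ring
    _ ≤ P ^ (N + 1) := pow_le_pow_right₀ hP1 (by omega)

/-- `Bd2.congr` (with `ratio_eq`) and `Bd2.sum`: on the cube the term number `j` of the quotient is the one of `bd2_term`, as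
`∏ i : Fin r, (if i < j then EE_i else 1) = ∏ i ∈ range j, EE_i`, `h ^ N = h ^ (N - 3 j) * (h ^ 3) ^ j`. -/
theorem bd2_ratio (n r N : ℕ) (Q w : PCode) (hQ : ∀ y ∈ cube n, 0 < pcEval n Q y)
    (hN : 3 * r + 3 ≤ N) :
    Bd2 (n + r) (fun z => pcEval (n + r) (aCode n r N Q w) z / pcEval (n + r) (dCode n r Q) z)
      (cB n r N Q w) := by
  have h1 : Bd2 (n + r) (fun z => ∑ j ∈ Finset.range (r + 1), pcEval (n + r) (wTerm n r w j) z *
      (pcEval (n + r) (pcTrunc n Q) z ^ (N - 3 * j) *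
        (pcEval (n + r) (pcTrunc n Q) z - 1) ^ j *
        ∏ i ∈ Finset.range j,
          (pcEval (n + r) (pcTrunc n Q) z ^ 3 / pcEval (n + r) (eCode n Q i) z)))
      (((r + 1 : ℕ) : ℝ) * (4 * (18 * (bB n r Q w : ℝ) ^ 6)) ^ (N + 1)) :=
    Bd2.sum (f := fun j z => pcEval (n + r) (wTerm n r w j) z *
      (pcEval (n + r) (pcTrunc n Q) z ^ (N - 3 * j) *
        (pcEval (n + r) (pcTrunc n Q) z - 1) ^ j *
        ∏ i ∈ Finset.range j,
          (pcEval (n + r) (pcTrunc n Q) z ^ 3 / pcEval (n + r) (eCode n Q i) z)))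
      fun j hj => bd2_term n r N Q w hQ hN hj
  have h2 : (((r + 1 : ℕ) : ℝ) * (4 * (18 * (bB n r Q w : ℝ) ^ 6)) ^ (N + 1)) = (cB n r N Q w : ℝ) := by
    unfold cB
    push_cast
    ring
  rw [h2] at h1
  refine h1.congr fun z hz => ?_
  rw [ratio_eq n r N Q w hQ hz]
  refine Finset.sum_congr rfl fun j hj => ?_
  rw [Finset.mem_range] at hj
  rw [BdG_h]
  set H : ℝ := pcEval n Q fun l => z (Fin.castAdd r l) with hH
  have h3 : (∏ i : Fin r, if (i : ℕ) < j then EE H (z (Fin.natAdd n i)) else 1) =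
      ∏ i ∈ Finset.range j, pcEval (n + r) (eCode n Q i) z := by
    have h4 : (∏ i : Fin r, if (i : ℕ) < j then EE H (z (Fin.natAdd n i)) else 1) =
        ∏ i : Fin r, (fun i : ℕ => if i < j then pcEval (n + r) (eCode n Q i) z else 1) i := by
      refine Finset.prod_congr rfl fun i _ => ?_
      simp only
      rw [pcEval_eCode n r Q i z]
    rw [h4, Fin.prod_univ_eq_prod_range (fun i : ℕ => if i < j then pcEval (n + r) (eCode n Q i) z else 1) r,
      ← Finset.prod_filter]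
    refine Finset.prod_congr ?_ fun _ _ => rfl
    ext i
    simp only [Finset.mem_filter, Finset.mem_range]
    omega
  rw [h3, Finset.prod_div_distrib, Finset.prod_const, Finset.card_range]
  have h5 : H ^ N = H ^ (N - 3 * j) * (H ^ 3) ^ j := by
    rw [← pow_mul, ← pow_add]
    congr 1
    omega
  rw [h5]
  ring

end Pool.Agent.Lib.MP_bbe012_lc.HC
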