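import Mathlib
import Pool.Agent.Lib.MP_bbe012_lc.TotalComp

/-!
# The transformation of an integral over the whole space to the cube
-/

namespace Pool.Agent.Lib.MP_bbe012_lc.HC

open MeasureTheory Set

/-- The numerator and the denominator of the transformed integrand. -/
def prepR (R : ℕ × PCode × PCode) : ℕ × PCode × PCode :=
  (R.1, ((bdInt (R.1, (R.2.1, R.2.2), [])).2.1.1, (bdInt (R.1, (R.2.1, R.2.2), [])).2.1.2))

/-- `primrec_bdInt` (TotalComp.lean). -/
theorem primrec_prepR : Primrec prepR := by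
  have h1 : Primrec fun R : ℕ × PCode × PCode => ((R.1, (R.2.1, R.2.2), []) : IntCode) :=
    Primrec.pair Primrec.fst (Primrec.pair (Primrec.pair (Primrec.fst.comp Primrec.snd)
      (Primrec.snd.comp Primrec.snd)) (Primrec.const []))
  have h2 := primrec_bdInt.comp h1
  exact Primrec.pair Primrec.fst (Primrec.pair
    (Primrec.fst.comp (Primrec.fst.comp (Primrec.snd.comp h2)))
    (Primrec.snd.comp (Primrec.fst.comp (Primrec.snd.comp h2))))

private theorem Prep_eval (R : ℕ × PCode × PCode) (y : Fin R.1 → ℝ) :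
    pcEval R.1 (prepR R).2.2 y =
      ww y ^ (pcDeg R.2.1 + 2) * pcEval R.1 (sharp R.1 (pcDeg R.2.2) R.2.2) y := by
  change pcEval R.1 (pcMul (pcPow (wCode R.1) (pcDeg R.2.1 + 2))
    (sharp R.1 (pcDeg R.2.2) R.2.2)) y = _
  rw [pcEval_mul, pcEval_pow, pcEval_w]

private theorem Prep_nil (n : ℕ) : sysSet n [] = univ := by
  ext x
  simp [sysSet]

/-- `Q = w^(d+2) sharp(B)`, `pcEval_sharp`, `ww_pos`. -/
theorem prepR_pos (R : ℕ × PCode × PCode) (h : ∀ x : Fin R.1 → ℝ, 1 ≤ pcEval R.1 R.2.2 x) :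
    ∀ y ∈ cube R.1, 0 < pcEval R.1 (prepR R).2.2 y := by
  intro y hy
  rw [Prep_eval, pcEval_sharp le_rfl hy]
  have h1 := ww_pos hy
  have h2 : 0 < pcEval R.1 R.2.2 (phi y) := lt_of_lt_of_le one_pos (h (phi y))
  positivity

/-- `isBounded_cube`, `isOpen_cube` (Bd.lean). At a point outside the open cube, either some `|y_i| > 1`, so the complement is a neighbourhood, or some
`|y_i| = 1`, so `w(y) = 0` and the denominator vanishes. -/
theorem prepR_region (R : ℕ × PCode × PCode) (h : ∀ x : Fin R.1 → ℝ, 1 ≤ pcEval R.1 R.2.2 x) :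
    Region (pcPoly R.1 (prepR R).2.2) (cube R.1) := by
  refine ⟨isBounded_cube, fun x hx => prepR_pos R h x hx, fun x hx => ?_⟩
  by_cases hc : x ∈ cube R.1
  · exact Or.inl (isOpen_cube.mem_nhds hc)
  right
  have hx' : pcEval R.1 (prepR R).2.2 x ≠ 0 := hx
  rw [Prep_eval] at hx'
  have hw : ww x ≠ 0 := by
    intro h0
    apply hx'
    rw [h0, zero_pow (by omega), zero_mul]
  have hex : ∃ i, x i ∉ Ioo (-1 : ℝ) 1 := by
    by_contra hno
    push Not at hno
    exact hc hno
  obtain ⟨i, hi⟩ := hex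
  have hwi : 1 - x i ^ 2 ≠ 0 := Finset.prod_ne_zero_iff.mp hw i (Finset.mem_univ i)
  by_cases h1 : 1 < x i
  · have hopen : IsOpen {y : Fin R.1 → ℝ | 1 < y i} :=
      isOpen_lt continuous_const (continuous_apply i)
    refine Filter.mem_of_superset (hopen.mem_nhds h1) fun y hy hyc => ?_
    exact absurd (hyc i).2 (not_lt.mpr (le_of_lt hy))
  · have h2 : x i < -1 := by
      rw [mem_Ioo, not_and_or, not_lt, not_lt] at hi
      have h3 : x i ≤ -1 := by
        rcases hi with hi | hi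
        · exact hi
        · exact absurd (by rw [le_antisymm (not_lt.mp h1) hi]; norm_num) hwi
      refine lt_of_le_of_ne h3 fun h4 => hwi ?_
      rw [h4]
      norm_num
    have hopen : IsOpen {y : Fin R.1 → ℝ | y i < -1} :=
      isOpen_lt (continuous_apply i) continuous_const
    refine Filter.mem_of_superset (hopen.mem_nhds h2) fun y hy hyc => ?_
    exact absurd (hyc i).1 (not_lt.mpr (le_of_lt hy))

/-- `admissible_bdInt`, `value_bdInt` for the empty system: `sysSet n (bdSys n []) = cube n` (`mem_bdSys`). Compare `admissible_nil`, `value_nil` in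
Results/MP_bbe012_lc/DomainFree.lean. -/
theorem prepR_integral (R : ℕ × PCode × PCode) (h : ∀ x : Fin R.1 → ℝ, 1 ≤ pcEval R.1 R.2.2 x)
    (hi : Integrable fun x : Fin R.1 → ℝ => pcEval R.1 R.2.1 x / pcEval R.1 R.2.2 x) :
    IntegrableOn (fun y => pcEval R.1 (prepR R).2.1 y / pcEval R.1 (prepR R).2.2 y) (cube R.1) ∧
    ∫ y in cube R.1, pcEval R.1 (prepR R).2.1 y / pcEval R.1 (prepR R).2.2 y =
      ∫ x : Fin R.1 → ℝ, pcEval R.1 R.2.1 x / pcEval R.1 R.2.2 x := by
  have hne : pcPoly R.1 R.2.2 ≠ 0 := by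
    refine pcPoly_ne_zero_of_eval (n := R.1) (p := R.2.2) (x := 0) ?_
    have := h 0
    positivity
  have hadm : Admissible (R.1, (R.2.1, R.2.2), []) := by
    refine ⟨hne, ?_⟩
    have : IntegrableOn (fun x : Fin R.1 → ℝ => pcEval R.1 R.2.1 x / pcEval R.1 R.2.2 x)
        (sysSet R.1 []) := by
      rw [Prep_nil, integrableOn_univ]; exact hi
    exact this
  have hval : value (R.1, (R.2.1, R.2.2), []) =
      ∫ x : Fin R.1 → ℝ, pcEval R.1 R.2.1 x / pcEval R.1 R.2.2 x := by
    have : value (R.1, (R.2.1, R.2.2), []) =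
        ∫ x in sysSet R.1 [], pcEval R.1 R.2.1 x / pcEval R.1 R.2.2 x := rfl
    rw [this, Prep_nil, setIntegral_univ]
  have hdom : sysSet R.1 (bdSys R.1 []) = cube R.1 := by
    ext y
    rw [mem_bdSys, Prep_nil]
    simp
  have h1 := (admissible_bdInt hadm).2
  have h2 := value_bdInt (R.1, (R.2.1, R.2.2), [])
  have h3 : domain (bdInt (R.1, (R.2.1, R.2.2), [])) = cube R.1 := hdom
  rw [h3] at h1
  refine ⟨h1, ?_⟩
  rw [← hval, ← h2]
  unfold value
  rw [h3]
  rfl

end Pool.Agent.Lib.MP_bbe012_lc.HC
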