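import Mathlib
import Pool.Agent.Lib.MP_bbe012_lc.HC.Codes
import Pool.Agent.Lib.MP_bbe012_lc.Reduce

/-!
# Symmetrisation
-/

namespace Pool.Agent.Lib.MP_bbe012_lc.HC

open MeasureTheory Set

variable {m : ℕ}

/-- A fraction on the cube with positive denominator, the bound `C`, and the integral `v`. -/
structure Good (m : ℕ) (C v : ℝ) (s : PCode × PCode) : Prop where
  pos : ∀ z ∈ cube m, 0 < pcEval m s.2 z
  bd : Bd2 m (ratEval m s) C
  val : ∫ z in cube m, ratEval m s z = v

/-- The fraction is even in the coordinates `x_0, ..., x_(k-1)`. -/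
def Ev (m k : ℕ) (s : PCode × PCode) : Prop :=
  ∀ i : Fin m, (i : ℕ) < k → ∀ z ∈ cube m, ratEval m s (Function.update z i (-z i)) = ratEval m s z

theorem Sym_volume (m : ℕ) : volume (cube m) ≠ ⊤ := by
  have h : cube m ⊆ Metric.closedBall (0 : Fin m → ℝ) 1 := by
    intro y hy
    rw [mem_closedBall_zero_iff, pi_norm_le_iff_of_nonneg zero_le_one]
    intro i
    rw [Real.norm_eq_abs, abs_le]
    exact ⟨(hy i).1.le, (hy i).2.le⟩
  exact (Metric.isBounded_closedBall.subset h).measure_lt_top.ne

theorem Sym_integrable {f : (Fin m → ℝ) → ℝ} {C : ℝ} (hf : Measurable f) (h : Bd2 m f C) :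
    IntegrableOn f (cube m) := by
  obtain ⟨f1, f2, hb⟩ := h
  refine Measure.integrableOn_of_bounded (M := C) (Sym_volume m) hf.aestronglyMeasurable ?_
  rw [ae_restrict_iff' isOpen_cube.measurableSet]
  exact Filter.Eventually.of_forall fun x hx => by
    rw [Real.norm_eq_abs]
    exact (hb x hx 0).1

theorem Sym_ratMeas (s : PCode × PCode) : Measurable (ratEval m s) :=
  (measurable_pcEval m s.1).div (measurable_pcEval m s.2)

theorem Sym_flipMeas (i : Fin m) : Measurable (fun z : Fin m → ℝ => Function.update z i (-z i)) := by
  rw [measurable_pi_iff]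
  intro k
  by_cases hk : k = i
  · subst hk
    simp only [Function.update_self]
    exact (measurable_pi_apply k).neg
  · simp only [Function.update_of_ne hk]
    exact measurable_pi_apply k

theorem Sym_invol (i : Fin m) :
    Function.Involutive (fun z : Fin m → ℝ => Function.update z i (-z i)) := by
  intro z
  simp

theorem flip_mem_cube {z : Fin m → ℝ} (hz : z ∈ cube m) (i : Fin m) :
    Function.update z i (-z i) ∈ cube m := by
  intro k
  by_cases hk : k = i
  · subst hk
    rw [Function.update_self]
    have := hz k
    constructor <;> linarith [this.1, this.2]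
  · rw [Function.update_of_ne hk]
    exact hz k

/-- Induction on `p` (`pcEval_cons`): `(-x)^e = (-1)^e x^e`, `Finset.prod_update_of_mem` or `Function.update_apply`. -/
theorem pcEval_flip (p : PCode) (i : Fin m) (z : Fin m → ℝ) :
    pcEval m (pcFlip i p) z = pcEval m p (Function.update z i (-z i)) := by
  induction p with
  | nil => simp [pcFlip]
  | cons t p ih =>
    have e : pcFlip i (t :: p) = (if t.2.getD i 0 % 2 = 1 then qneg t.1 else t.1, t.2) :: pcFlip i p := rfl
    rw [e, pcEval_cons, pcEval_cons, ih]
    congr 1
    have h1 : ∏ k : Fin m, Function.update z i (-z i) k ^ t.2.getD k 0 =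
        (-1) ^ t.2.getD i 0 * ∏ k : Fin m, z k ^ t.2.getD k 0 := by
      rw [← Finset.mul_prod_erase Finset.univ (fun k : Fin m => z k ^ t.2.getD k 0) (Finset.mem_univ i),
        ← Finset.mul_prod_erase Finset.univ (fun k : Fin m => Function.update z i (-z i) k ^ t.2.getD k 0)
          (Finset.mem_univ i), Function.update_self, neg_pow, mul_assoc]
      congr 2
      refine Finset.prod_congr rfl fun k hk => ?_
      rw [Function.update_of_ne (Finset.ne_of_mem_erase hk)]
    rw [h1]
    by_cases h2 : t.2.getD i 0 % 2 = 1
    · have h3 : ((-1 : ℝ)) ^ t.2.getD i 0 = -1 := (Nat.odd_iff.2 h2).neg_one_pow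
      rw [if_pos h2, h3, qval_qneg]
      push_cast
      ring
    · have h3 : ((-1 : ℝ)) ^ t.2.getD i 0 = 1 :=
        (Nat.even_iff.2 (by omega)).neg_one_pow
      rw [if_neg h2, h3, one_mul]

/-- `(A/D + A'/D')/2 = (A D' + A' D) / (2 D D')`. -/
theorem ratEval_symStep {s : PCode × PCode} (h : ∀ z ∈ cube m, 0 < pcEval m s.2 z) (i : Fin m)
    {z : Fin m → ℝ} (hz : z ∈ cube m) :
    ratEval m (symStep i s) z =
      1 / 2 * (ratEval m s z + ratEval m s (Function.update z i (-z i))) := by
  have h1 := h z hz
  have h2 := h _ (flip_mem_cube hz i)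
  unfold HC.symStep ratEval
  simp only [pcEval_append, pcEval_mul, pcEval_nat, pcEval_flip]
  push_cast
  field_simp

/-- A fraction with bounded derivatives is integrable on the cube (it is continuous there: denominators positive; bounded by `C`). -/
theorem Good.integrable {C v : ℝ} {s : PCode × PCode} (h : Good m C v s) :
    IntegrableOn (ratEval m s) (cube m) := by
  exact Sym_integrable (Sym_ratMeas s) h.bd

/-- The reflection in one coordinate preserves the cube and the volume
(for example `MeasureTheory.volume_preserving_pi`, with `MeasureTheory.Measure.measurePreserving_neg`, or `Real.map_matrix_volume_pi_eq_smul_volume_pi`). -/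
theorem integral_flip (f : (Fin m → ℝ) → ℝ) (i : Fin m) :
    ∫ z in cube m, f (Function.update z i (-z i)) = ∫ z in cube m, f z := by
  set σ : (Fin m → ℝ) → (Fin m → ℝ) := fun z => Function.update z i (-z i) with hσ
  have hmp : MeasurePreserving σ volume volume := by
    have h1 := volume_preserving_pi (α' := fun _ : Fin m => ℝ) (β' := fun _ : Fin m => ℝ)
      (f := fun k => if k = i then (fun x : ℝ => -x) else id) (fun k => by
        split_ifs
        · exact Measure.measurePreserving_neg volume
        · exact MeasurePreserving.id volume)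
    have h2 : σ = fun a k => (if k = i then (fun x : ℝ => -x) else id) (a k) := by
      funext z k
      simp only [hσ]
      by_cases hk : k = i
      · subst hk
        simp
      · simp [Function.update_of_ne hk, hk]
    rw [h2]
    exact h1
  have hemb : MeasurableEmbedding σ :=
    (MeasurableEquiv.ofInvolutive σ (Sym_invol i) (Sym_flipMeas i)).measurableEmbedding
  have hpre : σ ⁻¹' cube m = cube m := by
    ext z
    constructor
    · intro hz
      have h3 := flip_mem_cube hz i
      have h4 : Function.update (σ z) i (-(σ z) i) = z := Sym_invol i z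
      rwa [h4] at h3
    · intro hz
      exact flip_mem_cube hz i
  have h5 := hmp.setIntegral_preimage_emb hemb f (cube m)
  rw [hpre] at h5
  exact h5

theorem Good.symStep {C v : ℝ} {s : PCode × PCode} (h : Good m C v s) (i : Fin m) :
    Good m C v (symStep i s) := by
  have hval : ∀ z ∈ cube m, ratEval m (HC.symStep i s) z =
      1 / 2 * (ratEval m s z + ratEval m s (Function.update z i (-z i))) :=
    fun z hz => ratEval_symStep h.pos i hz
  refine ⟨fun z hz => ?_, ?_, ?_⟩
  · have h1 := h.pos z hz
    have h2 := h.pos _ (flip_mem_cube hz i)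
    unfold HC.symStep
    simp only [pcEval_mul, pcEval_nat, pcEval_flip]
    push_cast
    positivity
  · have h1 := ((h.bd.add (h.bd.flip i)).smul (1 / 2)).mono (B' := C) (by
      rw [abs_of_pos (by norm_num : (0 : ℝ) < 1 / 2)]
      linarith)
    exact h1.congr fun z hz => (hval z hz).symm
  · rw [setIntegral_congr_fun isOpen_cube.measurableSet hval, integral_const_mul, integral_add,
      integral_flip (ratEval m s) i, h.val]
    · ring
    · exact h.integrable
    · exact Sym_integrable ((Sym_ratMeas s).comp (Sym_flipMeas i)) (h.bd.flip i)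

/-- The new fraction is even in `x_i`, and remains even in the coordinates in which it was even (the reflections commute). -/
theorem Ev.symStep {s : PCode × PCode} (hpos : ∀ z ∈ cube m, 0 < pcEval m s.2 z) {k : ℕ}
    (hk : k < m) (h : Ev m k s) : Ev m (k + 1) (symStep k s) := by
  intro i hi z hz
  have hz' := flip_mem_cube hz i
  have e1 := ratEval_symStep hpos ⟨k, hk⟩ hz'
  have e2 := ratEval_symStep hpos ⟨k, hk⟩ hz
  have e3 : HC.symStep ((⟨k, hk⟩ : Fin m) : ℕ) s = HC.symStep k s := rfl
  rw [e3] at e1 e2
  rw [e1, e2]
  by_cases hik : i = ⟨k, hk⟩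
  · have e4 : Function.update (Function.update z i (-z i)) i
        (-(Function.update z i (-z i)) i) = z := Sym_invol i z
    rw [← hik, e4]
    ring
  · have hik' : (i : ℕ) < k := by
      have : (i : ℕ) ≠ k := fun h => hik (Fin.ext h)
      omega
    have e4 : Function.update (Function.update z i (-z i)) ⟨k, hk⟩
        (-(Function.update z i (-z i)) ⟨k, hk⟩) =
        Function.update (Function.update z ⟨k, hk⟩ (-z ⟨k, hk⟩)) i
          (-(Function.update z ⟨k, hk⟩ (-z ⟨k, hk⟩)) i) := by
      rw [Function.update_of_ne (Ne.symm hik), Function.update_of_ne hik, Function.update_comm hik]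
    rw [e4, h i hik' z hz, h i hik' _ (flip_mem_cube hz ⟨k, hk⟩)]

theorem symN_good {C v : ℝ} {s : PCode × PCode} (h : Good m C v s) {k : ℕ} (hk : k ≤ m) :
    Good m C v (symN k s) ∧ Ev m k (symN k s) := by
  induction k with
  | zero => exact ⟨h, fun i hi => absurd hi (Nat.not_lt_zero _)⟩
  | succ k ih =>
    obtain ⟨h1, h2⟩ := ih (by omega)
    have e : symN (k + 1) s = HC.symStep k (symN k s) := rfl
    rw [e]
    exact ⟨h1.symStep ⟨k, by omega⟩, Ev.symStep h1.pos (by omega) h2⟩

/-- An even function depends on the absolute values only: change the signs one after the other. -/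
theorem Ev.abs {s : PCode × PCode} (h : Ev m m s) {y z : Fin m → ℝ} (hz : z ∈ cube m)
    (hyz : ∀ i, |y i| = |z i|) : ratEval m s y = ratEval m s z := by
  have key : ∀ k : ℕ, k ≤ m → (fun i : Fin m => if (i : ℕ) < k then y i else z i) ∈ cube m ∧
      ratEval m s (fun i : Fin m => if (i : ℕ) < k then y i else z i) = ratEval m s z := by
    intro k hk
    induction k with
    | zero =>
      have e : (fun i : Fin m => if (i : ℕ) < 0 then y i else z i) = z := by
        funext i
        exact if_neg (Nat.not_lt_zero _)
      rw [e]
      exact ⟨hz, rfl⟩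
    | succ k ih =>
      obtain ⟨h1, h2⟩ := ih (by omega)
      set w : Fin m → ℝ := fun i : Fin m => if (i : ℕ) < k then y i else z i with hw
      have hwk : w ⟨k, by omega⟩ = z ⟨k, by omega⟩ := by
        simp only [hw]
        exact if_neg (lt_irrefl k)
      rcases abs_eq_abs.1 (hyz ⟨k, by omega⟩) with h3 | h3
      · have e : (fun i : Fin m => if (i : ℕ) < k + 1 then y i else z i) = w := by
          funext i
          simp only [hw]
          by_cases hi : (i : ℕ) < k
          · rw [if_pos hi, if_pos (by omega)]
          · by_cases hi' : (i : ℕ) = k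
            · have : i = ⟨k, by omega⟩ := Fin.ext hi'
              rw [if_pos (by omega), if_neg hi, this]
              exact h3
            · rw [if_neg hi, if_neg (by omega)]
        rw [e]
        exact ⟨h1, h2⟩
      · have e : (fun i : Fin m => if (i : ℕ) < k + 1 then y i else z i) =
            Function.update w ⟨k, by omega⟩ (-w ⟨k, by omega⟩) := by
          funext i
          by_cases hi' : (i : ℕ) = k
          · have : i = ⟨k, by omega⟩ := Fin.ext hi'
            rw [this, Function.update_self, hwk]
            simp only [Nat.lt_succ_self, if_true]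
            exact h3
          · rw [Function.update_of_ne (fun h4 => hi' (by rw [h4]))]
            simp only [hw]
            by_cases hi : (i : ℕ) < k
            · rw [if_pos hi, if_pos (by omega)]
            · rw [if_neg hi, if_neg (by omega)]
        rw [e]
        exact ⟨flip_mem_cube h1 _, (h ⟨k, by omega⟩ (by show k < m; omega) w h1).trans h2⟩
  obtain ⟨-, h4⟩ := key m le_rfl
  have e : (fun i : Fin m => if (i : ℕ) < m then y i else z i) = y := by
    funext i
    exact if_pos i.2
  rw [e] at h4
  exact h4

end Pool.Agent.Lib.MP_bbe012_lc.HC
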