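import Mathlib
import Pool.Agent.Lib.MP_bbe012_lc.HC.Sym
import Pool.Agent.Lib.MP_bbe012_lc.HC.BdC
import Pool.Agent.Lib.MP_bbe012_lc.HC.LogB

/-!
# The convex body attached to a fraction
-/

namespace Pool.Agent.Lib.MP_bbe012_lc.HC

open MeasureTheory Set

variable {m : ℕ}

/-- The function whose graph bounds the body. -/
noncomputable def FF (m C : ℕ) (s : PCode × PCode) (z : Fin m → ℝ) : ℝ :=
  1 / 2 + ratEval m s z / (4 * (m + 1) * C) + 1 / (4 * (m + 1)) * ∑ i : Fin m, (1 / 3 - z i ^ 2)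

/-- `|ratEval| ≤ C` and `|1/3 - z^2| ≤ 2/3`. -/
theorem FF_mem {C : ℕ} (hC : 1 ≤ C) {v : ℝ} {s : PCode × PCode} (h : Good m C v s)
    {z : Fin m → ℝ} (hz : z ∈ cube m) : FF m C s z ∈ Ioo (0 : ℝ) 1 := by
  have hC' : (1 : ℝ) ≤ C := by exact_mod_cast hC
  have hm : (0 : ℝ) ≤ m := Nat.cast_nonneg m
  obtain ⟨f1, f2, hf⟩ := h.bd
  have h1 := (hf z hz 0).1
  have h2 : |∑ i : Fin m, (1 / 3 - z i ^ 2 : ℝ)| ≤ 2 / 3 * (m : ℝ) := by
    refine (Finset.abs_sum_le_sum_abs _ _).trans ?_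
    have h3 : ∀ i ∈ (Finset.univ : Finset (Fin m)), |(1 / 3 - z i ^ 2 : ℝ)| ≤ 2 / 3 := by
      intro i _
      have h4 := one_sub_sq_pos (hz i)
      rw [abs_le]
      constructor <;> nlinarith [sq_nonneg (z i)]
    refine (Finset.sum_le_sum h3).trans (le_of_eq ?_)
    rw [Finset.sum_const, Finset.card_univ, Fintype.card_fin, nsmul_eq_mul]
    ring
  have h5 : |ratEval m s z / (4 * (m + 1) * C)| ≤ 1 / (4 * (m + 1)) := by
    rw [abs_div, abs_of_pos (show (0 : ℝ) < 4 * (m + 1) * C by positivity), div_le_div_iff₀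
      (by positivity) (by positivity)]
    nlinarith
  have h6 : |1 / (4 * ((m : ℝ) + 1)) * ∑ i : Fin m, (1 / 3 - z i ^ 2)| ≤
      1 / (4 * ((m : ℝ) + 1)) * (2 / 3 * m) := by
    rw [abs_mul, abs_of_pos (show (0 : ℝ) < 1 / (4 * ((m : ℝ) + 1)) by positivity)]
    exact mul_le_mul_of_nonneg_left h2 (by positivity)
  have h7 : 1 / (4 * ((m : ℝ) + 1)) + 1 / (4 * ((m : ℝ) + 1)) * (2 / 3 * m) ≤ 1 / 4 := by
    rw [← sub_nonneg]
    have : 1 / 4 - (1 / (4 * ((m : ℝ) + 1)) + 1 / (4 * ((m : ℝ) + 1)) * (2 / 3 * m)) =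
        (m / 3) / (4 * ((m : ℝ) + 1)) := by
      field_simp
      ring
    rw [this]
    positivity
  have h8 := abs_le.1 h5
  have h9 := abs_le.1 h6
  unfold FF
  constructor <;> linarith [h8.1, h8.2, h9.1, h9.2]

private theorem VolA_eq {C : ℕ} (hC : 1 ≤ C) (s : PCode × PCode) (z : Fin m → ℝ) :
    FF m C s z = 1 / (4 * (m + 1) * C) * (ratEval m s z - C * ∑ i, z i ^ 2) +
      (1 / 2 + m / (12 * (m + 1))) := by
  have hC' : (1 : ℝ) ≤ C := by exact_mod_cast hC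
  have hm : (0 : ℝ) ≤ m := Nat.cast_nonneg m
  unfold FF
  rw [Finset.sum_sub_distrib, Finset.sum_const, Finset.card_univ, Fintype.card_fin, nsmul_eq_mul]
  have h1 : (m : ℝ) + 1 ≠ 0 := by positivity
  have h2 : (C : ℝ) ≠ 0 := by positivity
  field_simp
  ring

/-- `FF = 1/2 + m / (12 (m+1)) + 1 / (4 (m+1) C) * (ratEval - C ∑ z_i^2)`; `Bd2.concave`. -/
theorem FF_concave {C : ℕ} (hC : 1 ≤ C) {v : ℝ} {s : PCode × PCode} (h : Good m C v s) :
    ConcaveOn ℝ (cube m) (FF m C s) := by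
  have hC' : (1 : ℝ) ≤ C := by exact_mod_cast hC
  have h1 := (h.bd.concave.smul (show (0 : ℝ) ≤ 1 / (4 * (m + 1) * C) by positivity)).add_const
    (1 / 2 + (m : ℝ) / (12 * (m + 1)))
  have h2 : FF m C s = fun z => (1 / (4 * ((m : ℝ) + 1) * C)) • (ratEval m s z -
      C * ∑ i, z i ^ 2) + (1 / 2 + (m : ℝ) / (12 * (m + 1))) := by
    funext z
    rw [VolA_eq hC, smul_eq_mul]
  rw [h2]
  exact h1

/-- `integral_third`, `volume_cube`, `Good.integrable`, `h.val`. -/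
theorem integral_FF {C : ℕ} (hC : 1 ≤ C) {v : ℝ} {s : PCode × PCode} (h : Good m C v s) :
    IntegrableOn (FF m C s) (cube m) ∧
      ∫ z in cube m, FF m C s z = 2 ^ m / 2 + v / (4 * (m + 1) * C) := by
  have hC0 : 0 < C := hC
  have hvol : volume (cube m) ≠ ⊤ := isBounded_cube.measure_lt_top.ne
  have h1 : IntegrableOn (fun _ : Fin m → ℝ => (1 / 2 : ℝ)) (cube m) := integrableOn_const hvol
  have h2 : IntegrableOn (fun z : Fin m → ℝ => ratEval m s z / (4 * (m + 1) * C)) (cube m) :=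
    h.integrable.div_const _
  have hcont : Continuous fun z : Fin m → ℝ => ∑ i : Fin m, (1 / 3 - z i ^ 2) :=
    continuous_finsetSum _ fun i _ => continuous_const.sub ((continuous_apply i).pow 2)
  have h3' : IntegrableOn (fun z : Fin m → ℝ => ∑ i : Fin m, (1 / 3 - z i ^ 2)) (cube m) := by
    have hK : IsCompact (Metric.closedBall (0 : Fin m → ℝ) 1) := isCompact_closedBall _ _
    refine (hcont.continuousOn.integrableOn_compact hK).mono_set fun z hz => ?_
    rw [mem_closedBall_zero_iff, pi_norm_le_iff_of_nonneg zero_le_one]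
    intro i
    rw [Real.norm_eq_abs, abs_le]
    exact ⟨(hz i).1.le, (hz i).2.le⟩
  have h3 : IntegrableOn (fun z : Fin m → ℝ => 1 / (4 * ((m : ℝ) + 1)) *
      ∑ i : Fin m, (1 / 3 - z i ^ 2)) (cube m) := h3'.const_mul _
  have h12 : IntegrableOn (fun z : Fin m → ℝ => 1 / 2 + ratEval m s z / (4 * (m + 1) * C))
      (cube m) := h1.add h2
  have e1 : FF m C s = fun z => (1 / 2 + ratEval m s z / (4 * (m + 1) * C)) +
      1 / (4 * ((m : ℝ) + 1)) * ∑ i : Fin m, (1 / 3 - z i ^ 2) := rfl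
  refine ⟨by rw [e1]; exact h12.add h3, ?_⟩
  have e2 : volume.real (cube m) = 2 ^ m := by
    rw [measureReal_def, volume_cube, ENNReal.toReal_pow]
    norm_num
  have e3 : ∫ _z in cube m, (1 / 2 : ℝ) = 2 ^ m / 2 := by
    rw [setIntegral_const, e2, smul_eq_mul]
    ring
  have e4 : ∫ z in cube m, ratEval m s z / (4 * (m + 1) * C) = v / (4 * (m + 1) * C) := by
    rw [integral_div, h.val]
  rw [e1, integral_add h12 h3, integral_add h1 h2, e3, e4, integral_const_mul, integral_third]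
  ring

private theorem VolA_trunc (p : PCode) (z : Fin m → ℝ) (y : ℝ) :
    pcEval (m + 1) (pcTrunc m p) (Fin.snoc z y : Fin (m + 1) → ℝ) = pcEval m p z := by
  rw [pcEval_trunc (Nat.le_succ m)]
  congr 1
  funext i
  have h1 : (Fin.castLE (Nat.le_succ m) i : Fin (m + 1)) = i.castSucc := rfl
  rw [h1, Fin.snoc_castSucc]

private theorem VolA_sum (n R : ℕ) (g : ℕ → PCode) (x : Fin n → ℝ) :
    pcEval n (pcSumRange R g) x = ∑ i : Fin R, pcEval n (g i) x := by
  unfold pcEval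
  rw [pcPoly_sumRange, map_sum]

/-- `N = 12 (m+1) C D FF` and `T = 12 (m+1) C D` (values of `nCode` and `tCode`). -/
theorem pcEval_nCode {C : ℕ} (hC : 1 ≤ C) {v : ℝ} {s : PCode × PCode} (h : Good m C v s)
    {z : Fin m → ℝ} (hz : z ∈ cube m) (y : ℝ) :
    pcEval (m + 1) (nCode m C s) (Fin.snoc z y : Fin (m + 1) → ℝ) =
      12 * (m + 1) * C * pcEval m s.2 z * FF m C s z ∧
    pcEval (m + 1) (tCode m C s) (Fin.snoc z y : Fin (m + 1) → ℝ) =
      12 * (m + 1) * C * pcEval m s.2 z := by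
  have hC' : (1 : ℝ) ≤ C := by exact_mod_cast hC
  have hD := h.pos z hz
  constructor
  · unfold nCode
    rw [VolA_trunc, pcEval_append, pcEval_mul, pcEval_append, pcEval_nat, pcEval_mul, pcEval_nat,
      VolA_sum, pcEval_mul, pcEval_nat]
    have h1 : ∀ i : Fin m, pcEval m (pcNat 1 ++ pcNeg (pcMul (pcNat 3) (pcMul (pcVar i) (pcVar i)))) z
        = 3 * (1 / 3 - z i ^ 2) := by
      intro i
      rw [pcEval_append, pcEval_neg, pcEval_mul, pcEval_mul, pcEval_nat, pcEval_nat,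
        pcEval_var i.2]
      push_cast
      ring
    rw [Finset.sum_congr rfl fun i _ => h1 i, ← Finset.mul_sum]
    unfold FF ratEval
    have h2 : (m : ℝ) + 1 ≠ 0 := by positivity
    have h3 : (C : ℝ) ≠ 0 := by positivity
    have h4 := hD.ne'
    push_cast
    field_simp
    ring
  · unfold tCode
    rw [VolA_trunc, pcEval_mul, pcEval_nat]
    push_cast
    ring

/-- The body. `f = (12 (m+1) C D)^2 (FF^2 - y^2)`, `FF > 0`. -/
theorem mem_body {C : ℕ} (hC : 1 ≤ C) {v : ℝ} {s : PCode × PCode} (h : Good m C v s)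
    (z : Fin m → ℝ) (y : ℝ) :
    (Fin.snoc z y : Fin (m + 1) → ℝ) ∈ posCube (m + 1, fCode m C s) ↔
      z ∈ cube m ∧ |y| < FF m C s z := by
  have hC' : (1 : ℝ) ≤ C := by exact_mod_cast hC
  have hcube : (Fin.snoc z y : Fin (m + 1) → ℝ) ∈ cube (m + 1) ↔
      z ∈ cube m ∧ y ∈ Ioo (-1 : ℝ) 1 := by
    constructor
    · intro h1
      refine ⟨fun i => ?_, ?_⟩
      · have h2 := h1 i.castSucc
        rwa [Fin.snoc_castSucc] at h2
      · have h2 := h1 (Fin.last m)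
        rwa [Fin.snoc_last] at h2
    · rintro ⟨h1, h2⟩ i
      refine Fin.lastCases ?_ (fun j => ?_) i
      · rw [Fin.snoc_last]; exact h2
      · rw [Fin.snoc_castSucc]; exact h1 j
  have hval : ∀ _ : z ∈ cube m, (0 < pcEval (m + 1) (fCode m C s) (Fin.snoc z y : Fin (m + 1) → ℝ) ↔
      |y| < FF m C s z) := by
    intro hz
    have h1 := pcEval_nCode hC h hz y
    have hF := (FF_mem hC h hz).1
    have hD := h.pos z hz
    unfold fCode
    rw [pcEval_append, pcEval_neg, pcEval_mul, pcEval_mul, pcEval_mul, pcEval_mul,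
      pcEval_var (Nat.lt_succ_self m), h1.1, h1.2]
    have h2 : (Fin.snoc z y : Fin (m + 1) → ℝ) ⟨m, Nat.lt_succ_self m⟩ = y :=
      Fin.snoc_last (α := fun _ => ℝ) y z
    rw [h2]
    have hK : 0 < (12 * ((m : ℝ) + 1) * C * pcEval m s.2 z) := by positivity
    set K : ℝ := 12 * ((m : ℝ) + 1) * C * pcEval m s.2 z with hKdef
    have e : K * FF m C s z * (K * FF m C s z) + -(K * K * (y * y)) =
        K ^ 2 * (FF m C s z ^ 2 - y ^ 2) := by ring
    rw [e, mul_pos_iff_of_pos_left (by positivity), sub_pos, sq_lt_sq, abs_of_pos hF]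
  constructor
  · rintro ⟨h1, h2⟩
    have hz := (hcube.1 h1).1
    exact ⟨hz, (hval hz).1 h2⟩
  · rintro ⟨hz, hy⟩
    have h3 := (FF_mem hC h hz).2
    have h4 := abs_lt.1 (hy.trans h3)
    exact ⟨hcube.2 ⟨hz, ⟨h4.1, h4.2⟩⟩, (hval hz).2 hy⟩

end Pool.Agent.Lib.MP_bbe012_lc.HC
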