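import Mathlib
import Pool.Agent.Lib.MP_bbe012_lc.HC.VolA

/-!
# Volume, convexity and symmetry of the body
-/

namespace Pool.Agent.Lib.MP_bbe012_lc.HC

open MeasureTheory Set

variable {m : ℕ}

theorem VolB_measurableSet_cube (m : ℕ) : MeasurableSet (cube m) := by
  have h : cube m = ⋂ i : Fin m, {y : Fin m → ℝ | y i ∈ Ioo (-1 : ℝ) 1} := by
    ext y
    simp only [cube, mem_setOf_eq, mem_iInter]
  rw [h]
  exact MeasurableSet.iInter fun i => measurable_pi_apply i measurableSet_Ioo

theorem VolB_measurableSet_posCube (F : ℕ × PCode) : MeasurableSet (posCube F) :=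
  (VolB_measurableSet_cube F.1).inter
    (measurableSet_lt measurable_const (measurable_pcEval F.1 F.2))

/-- The volume of the body: `mem_body`, and the splitting of the last coordinate as in `volume_posSet_ineqs` (Volume.lean); the fibre over `z` is
`Ioo (-FF z) (FF z)`, and `∫⁻ z in cube m, ofReal (2 FF z) = ofReal (2 ∫ FF)` (`ofReal_integral_eq_lintegral_ofReal`, `integral_FF`). -/
theorem volume_body {C : ℕ} (hC : 1 ≤ C) {v : ℝ} {s : PCode × PCode} (h : Good m C v s) :
    volume (posCube (m + 1, fCode m C s)) =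
      ENNReal.ofReal (2 ^ m + v / (2 * (m + 1) * C)) := by
  classical
  have hmp := volume_preserving_piFinSuccAbove (fun _ : Fin (m + 1) => ℝ) (Fin.last m)
  have hm : MeasurableSet (posCube (m + 1, fCode m C s)) := VolB_measurableSet_posCube _
  have h1 : volume (posCube (m + 1, fCode m C s)) =
      ∫⁻ x in cube m, ENNReal.ofReal (2 * FF m C s x) := by
    rw [← hmp.symm.measure_preimage hm.nullMeasurableSet, Measure.volume_eq_prod,
      Measure.prod_apply_symm (hm.preimage (MeasurableEquiv.measurable _)),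
      ← lintegral_indicator (VolB_measurableSet_cube m)]
    refine lintegral_congr fun x => ?_
    have hsn : ∀ t : ℝ,
        (MeasurableEquiv.piFinSuccAbove (fun _ : Fin (m + 1) => ℝ) (Fin.last m)).symm (t, x)
        = Fin.snoc x t := by
      intro t
      ext i
      simp [MeasurableEquiv.piFinSuccAbove, Fin.insertNthEquiv]
    have hset : (fun t : ℝ => (t, x)) ⁻¹'
        ((MeasurableEquiv.piFinSuccAbove (fun _ : Fin (m + 1) => ℝ) (Fin.last m)).symm ⁻¹'
          posCube (m + 1, fCode m C s)) =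
        if x ∈ cube m then Ioo (-FF m C s x) (FF m C s x) else ∅ := by
      ext t
      rw [mem_preimage, mem_preimage, hsn]
      refine (mem_body hC h x t).trans ?_
      by_cases hx : x ∈ cube m
      · rw [if_pos hx]
        simp only [hx, true_and, mem_Ioo, abs_lt]
      · rw [if_neg hx]
        simp [hx]
    rw [hset]
    by_cases hx : x ∈ cube m
    · rw [if_pos hx, indicator_of_mem hx, Real.volume_Ioo]
      congr 1
      ring
    · rw [if_neg hx, indicator_of_notMem hx, measure_empty]
  obtain ⟨hint, hval⟩ := integral_FF hC h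
  rw [h1, ← ofReal_integral_eq_lintegral_ofReal (hint.const_mul 2), integral_const_mul, hval]
  · congr 1
    have hC0 : (C : ℝ) ≠ 0 := by
      have : 0 < C := hC
      positivity
    field_simp
    ring
  · refine (ae_restrict_iff' (VolB_measurableSet_cube m)).mpr (Filter.Eventually.of_forall ?_)
    intro z hz
    have := (FF_mem hC h hz).1
    show (0 : ℝ) ≤ 2 * FF m C s z
    linarith

/-- The body has half of the volume of the cube iff the integral is zero. -/
theorem half_iff {C : ℕ} (hC : 1 ≤ C) {v : ℝ} {s : PCode × PCode} (h : Good m C v s) :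
    2 * volume (posCube (m + 1, fCode m C s)) = 2 ^ (m + 1) ↔ v = 0 := by
  have hC0 : (0 : ℝ) < C := by exact_mod_cast hC
  have hden : (0 : ℝ) < 2 * (m + 1) * C := by positivity
  rw [volume_body hC h]
  constructor
  · intro he
    have h1 := congrArg ENNReal.toReal he
    rw [ENNReal.toReal_mul, ENNReal.toReal_pow, ENNReal.toReal_ofNat, pow_succ] at h1
    have h2 : (ENNReal.ofReal (2 ^ m + v / (2 * (m + 1) * C))).toReal = 2 ^ m := by linarith
    rw [ENNReal.toReal_ofReal'] at h2
    have h3 : (0 : ℝ) < 2 ^ m := by positivity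
    have h4 : 2 ^ m + v / (2 * ((m : ℝ) + 1) * C) = 2 ^ m := by
      rcases le_total (2 ^ m + v / (2 * ((m : ℝ) + 1) * C)) 0 with h5 | h5
      · rw [max_eq_right h5] at h2
        linarith
      · rwa [max_eq_left h5] at h2
    have h5 : v / (2 * ((m : ℝ) + 1) * C) = 0 := by linarith
    rcases div_eq_zero_iff.mp h5 with h6 | h6
    · exact h6
    · exact absurd h6 hden.ne'
  · intro hv
    rw [hv, zero_div, add_zero, ENNReal.ofReal_pow (by norm_num), ENNReal.ofReal_ofNat, pow_succ,
      mul_comm]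

/-- `mem_body` for arbitrary points. -/
theorem VolB_mem {C : ℕ} (hC : 1 ≤ C) {v : ℝ} {s : PCode × PCode} (h : Good m C v s)
    (x : Fin (m + 1) → ℝ) : x ∈ posCube (m + 1, fCode m C s) ↔
      (Fin.init x : Fin m → ℝ) ∈ cube m ∧ |x (Fin.last m)| < FF m C s (Fin.init x) := by
  have h1 := mem_body hC h (Fin.init x) (x (Fin.last m))
  rwa [Fin.snoc_init_self] at h1

/-- `mem_body`, `FF_concave`, convexity of the absolute value; write a point of `Fin (m + 1) → ℝ` as `Fin.snoc (Fin.init x) (x (Fin.last m))`. -/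
theorem convex_body {C : ℕ} (hC : 1 ≤ C) {v : ℝ} {s : PCode × PCode} (h : Good m C v s) :
    Convex ℝ (posCube (m + 1, fCode m C s)) := by
  intro x hx y hy a b ha hb hab
  obtain ⟨hx1, hx2⟩ := (VolB_mem hC h x).mp hx
  obtain ⟨hy1, hy2⟩ := (VolB_mem hC h y).mp hy
  refine (VolB_mem hC h (a • x + b • y)).mpr ?_
  have hc := FF_concave hC h
  have e1 : (Fin.init (a • x + b • y) : Fin m → ℝ) = a • Fin.init x + b • Fin.init y := rfl
  rw [e1]
  refine ⟨hc.1 hx1 hy1 ha hb hab, ?_⟩
  refine lt_of_lt_of_le ?_ (hc.2 hx1 hy1 ha hb hab)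
  show |a * x (Fin.last m) + b * y (Fin.last m)| <
    a * FF m C s (Fin.init x) + b * FF m C s (Fin.init y)
  have h1 : |a * x (Fin.last m) + b * y (Fin.last m)| ≤
      a * |x (Fin.last m)| + b * |y (Fin.last m)| := by
    refine (abs_add_le _ _).trans ?_
    rw [abs_mul, abs_mul, abs_of_nonneg ha, abs_of_nonneg hb]
  refine lt_of_le_of_lt h1 ?_
  rcases ha.lt_or_eq with ha' | ha'
  · exact add_lt_add_of_lt_of_le (mul_lt_mul_of_pos_left hx2 ha')
      (mul_le_mul_of_nonneg_left hy2.le hb)
  · have hb' : 0 < b := by linarith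
    exact add_lt_add_of_le_of_lt (mul_le_mul_of_nonneg_left hx2.le ha)
      (mul_lt_mul_of_pos_left hy2 hb')

/-- `mem_body` and `Ev.abs` (the values of `FF` depend on the absolute values of the coordinates only). -/
theorem symm_body {C : ℕ} (hC : 1 ≤ C) {v : ℝ} {s : PCode × PCode} (h : Good m C v s)
    (he : Ev m m s) {x y : Fin (m + 1) → ℝ} (hx : x ∈ posCube (m + 1, fCode m C s))
    (hxy : ∀ i, |y i| = |x i|) : y ∈ posCube (m + 1, fCode m C s) := by
  obtain ⟨hx1, hx2⟩ := (VolB_mem hC h x).mp hx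
  refine (VolB_mem hC h y).mpr ?_
  have h1 : ∀ i : Fin m, |(Fin.init y : Fin m → ℝ) i| = |(Fin.init x : Fin m → ℝ) i| :=
    fun i => hxy i.castSucc
  have h2 : (Fin.init y : Fin m → ℝ) ∈ cube m := by
    intro i
    have h3 := hx1 i
    have h4 := h1 i
    rw [mem_Ioo, ← abs_lt] at h3 ⊢
    rwa [h4]
  have h3 : FF m C s (Fin.init y) = FF m C s (Fin.init x) := by
    unfold FF
    rw [Ev.abs he hx1 h1]
    congr 2
    refine Finset.sum_congr rfl fun i _ => ?_
    rw [← sq_abs, h1 i, sq_abs]
  refine ⟨h2, ?_⟩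
  rw [h3, hxy]
  exact hx2

end Pool.Agent.Lib.MP_bbe012_lc.HC
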