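import Mathlib
import Pool.Agent.Lib.MP_bbe012_lc.HC.BdG
import Pool.Agent.Lib.MP_bbe012_lc.HC.Sum
import Pool.Agent.Lib.MP_bbe012_lc.HC.VolB
import Pool.Agent.Lib.MP_bbe012_lc.HC.Prep

/-!
# The instance attached to a certificate
-/

namespace Pool.Agent.Lib.MP_bbe012_lc.HC

open MeasureTheory Set

/-- A fraction with positive denominator and bounded values is integrable on the cube. -/
theorem Main_integrable {m : ℕ} {A D : PCode} {B : ℝ} (hD : ∀ z ∈ cube m, 0 < pcEval m D z)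
    (hbd : Bd2 m (fun z => pcEval m A z / pcEval m D z) B) :
    IntegrableOn (fun z => pcEval m A z / pcEval m D z) (cube m) :=
  Good.integrable (m := m) (s := (A, D)) (C := B)
    (v := ∫ z in cube m, ratEval m (A, D) z) ⟨hD, hbd, rfl⟩

/-- The fraction attached to a certificate. `bd2_ratio`, `dCode_pos`, `integral_ratio`, `mem_hcSearch`, `prepR_pos`, `prepR_region`, `prepR_integral`;
integrability as in `Good.integrable`. -/
theorem ratCert_good {R : ℕ × PCode × PCode} (h : ∀ x : Fin R.1 → ℝ, 1 ≤ pcEval R.1 R.2.2 x)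
    (hi : Integrable fun x : Fin R.1 → ℝ => pcEval R.1 R.2.1 x / pcEval R.1 R.2.2 x) {c : HC}
    (hc : hcCheck R.1 (prepR R).2.1 (prepR R).2.2 c) :
    Good (mOf (prepR R) c) (cOf (prepR R) c)
      (∫ x : Fin R.1 → ℝ, pcEval R.1 R.2.1 x / pcEval R.1 R.2.2 x) (ratCert (prepR R) c) := by
  obtain ⟨⟨⟨r, N⟩, K⟩, ⟨A, w⟩, gs⟩ := c
  have hN : 3 * r + 3 ≤ N := (hcCheck_iff _ _ _ _ _ _ _ _ _).mp hc |>.1
  have hpos := prepR_pos R h
  have hbd : Bd2 (R.1 + r) (fun z => pcEval (R.1 + r) (aCode R.1 r N (prepR R).2.2 w) z /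
      pcEval (R.1 + r) (dCode R.1 r (prepR R).2.2) z) (cB R.1 r N (prepR R).2.2 w) :=
    bd2_ratio R.1 r N (prepR R).2.2 w hpos hN
  have hD : ∀ z ∈ cube (R.1 + r), 0 < pcEval (R.1 + r) (dCode R.1 r (prepR R).2.2) z :=
    fun z hz => dCode_pos R.1 r (prepR R).2.2 hpos hz
  have hI : IntegrableOn (fun z => pcEval (R.1 + r) (aCode R.1 r N (prepR R).2.2 w) z /
      pcEval (R.1 + r) (dCode R.1 r (prepR R).2.2) z) (cube (R.1 + r)) :=
    Main_integrable hD hbd
  refine ⟨hD, hbd, ?_⟩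
  have h1 := integral_ratio (n := R.1) hc (prepR_region R h) (prepR_integral R h hi).1 hI
  exact h1.trans (prepR_integral R h hi).2

/-- The polynomial attached to a certificate. `symN_good`, `convex_body`, `symm_body`, `half_iff`. -/
theorem coinOf_spec {R : ℕ × PCode × PCode} (h : ∀ x : Fin R.1 → ℝ, 1 ≤ pcEval R.1 R.2.2 x)
    (hi : Integrable fun x : Fin R.1 → ℝ => pcEval R.1 R.2.1 x / pcEval R.1 R.2.2 x) {c : HC}
    (hc : c ∈ hcSearch (prepR R)) :
    (Convex ℝ (posCube (coinOf (prepR R) c)) ∧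
      ∀ x ∈ posCube (coinOf (prepR R) c), ∀ y, (∀ i, |y i| = |x i|) →
        y ∈ posCube (coinOf (prepR R) c)) ∧
    (2 * volume (posCube (coinOf (prepR R) c)) = 2 ^ (coinOf (prepR R) c).1 ↔
      ∫ x : Fin R.1 → ℝ, pcEval R.1 R.2.1 x / pcEval R.1 R.2.2 x = 0) := by
  have hg := ratCert_good h hi (mem_hcSearch hc)
  have hs := symN_good hg le_rfl
  have hC : 1 ≤ cOf (prepR R) c := one_le_cB _ _ _ _ _
  exact ⟨⟨convex_body hC hs.1, fun x hx y hxy => symm_body hC hs.1 hs.2 hx hxy⟩,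
    half_iff hC hs.1⟩

/-- The bounded fraction attached to a certificate. -/
theorem bddOf_spec {R : ℕ × PCode × PCode} (h : ∀ x : Fin R.1 → ℝ, 1 ≤ pcEval R.1 R.2.2 x)
    (hi : Integrable fun x : Fin R.1 → ℝ => pcEval R.1 R.2.1 x / pcEval R.1 R.2.2 x) {c : HC}
    (hc : c ∈ hcSearch (prepR R)) :
    (∀ x ∈ cube (bddOf (prepR R) c).1, 0 < pcEval (bddOf (prepR R) c).1 (bddOf (prepR R) c).2.2 x ∧
      |pcEval (bddOf (prepR R) c).1 (bddOf (prepR R) c).2.1 x| ≤
        pcEval (bddOf (prepR R) c).1 (bddOf (prepR R) c).2.2 x) ∧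
    (∫ x in cube (bddOf (prepR R) c).1, pcEval (bddOf (prepR R) c).1 (bddOf (prepR R) c).2.1 x /
      pcEval (bddOf (prepR R) c).1 (bddOf (prepR R) c).2.2 x = 0 ↔
      ∫ x : Fin R.1 → ℝ, pcEval R.1 R.2.1 x / pcEval R.1 R.2.2 x = 0) := by
  have hg := ratCert_good h hi (mem_hcSearch hc)
  have hC : 1 ≤ cOf (prepR R) c := one_le_cB _ _ _ _ _
  have hC' : (0 : ℝ) < (cOf (prepR R) c : ℝ) := by exact_mod_cast hC
  set m := mOf (prepR R) c with hm
  set A := (ratCert (prepR R) c).1 with hA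
  set D := (ratCert (prepR R) c).2 with hD
  have e1 : ∀ x : Fin m → ℝ, pcEval m (pcMul (pcNat (cOf (prepR R) c)) D) x =
      (cOf (prepR R) c : ℝ) * pcEval m D x := fun x => by rw [pcEval_mul, pcEval_nat]
  have hval : ∫ x in cube m, pcEval m A x / pcEval m D x =
      ∫ x : Fin R.1 → ℝ, pcEval R.1 R.2.1 x / pcEval R.1 R.2.2 x := hg.val
  change (∀ x ∈ cube m, 0 < pcEval m (pcMul (pcNat (cOf (prepR R) c)) D) x ∧
      |pcEval m A x| ≤ pcEval m (pcMul (pcNat (cOf (prepR R) c)) D) x) ∧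
    (∫ x in cube m, pcEval m A x / pcEval m (pcMul (pcNat (cOf (prepR R) c)) D) x = 0 ↔
      ∫ x : Fin R.1 → ℝ, pcEval R.1 R.2.1 x / pcEval R.1 R.2.2 x = 0)
  refine ⟨fun x hx => ?_, ?_⟩
  · have hp : 0 < pcEval m D x := hg.pos x hx
    obtain ⟨f1, f2, hf⟩ := hg.bd
    have hb : |pcEval m A x / pcEval m D x| ≤ (cOf (prepR R) c : ℝ) := (hf x hx 0).1
    rw [e1]
    refine ⟨by positivity, ?_⟩
    rw [abs_div, abs_of_pos hp, div_le_iff₀ hp] at hb
    exact hb
  · rw [← hval]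
    have e2 : ∀ x : Fin m → ℝ, pcEval m A x / pcEval m (pcMul (pcNat (cOf (prepR R) c)) D) x =
        (cOf (prepR R) c : ℝ)⁻¹ * (pcEval m A x / pcEval m D x) := by
      intro x
      rw [e1, mul_comm (cOf (prepR R) c : ℝ), ← div_div, div_eq_mul_inv _ (cOf (prepR R) c : ℝ),
        mul_comm]
    simp only [e2]
    rw [integral_const_mul]
    constructor
    · intro h0
      rcases mul_eq_zero.mp h0 with h1 | h1
      · exact absurd h1 (inv_ne_zero hC'.ne')
      · exact h1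
    · intro h0
      rw [h0, mul_zero]

/-- `dom_hcSearch`: the denominator is positive on the cube, so it is not the zero polynomial (`pcPoly_ne_zero_of_eval`). -/
theorem dom_search {R : ℕ × PCode × PCode} (h : ∀ x : Fin R.1 → ℝ, 1 ≤ pcEval R.1 R.2.2 x) :
    (hcSearch (prepR R)).Dom :=
  dom_hcSearch (pcPoly_ne_zero_of_eval (x := 0) (prepR_pos R h 0 (zero_mem_cube _)).ne')

end Pool.Agent.Lib.MP_bbe012_lc.HC
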