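import Mathlib
import Pool.Agent.Lib.MP_bbe012_lc.HC.VolA

/-!
# The polynomial which defines the body is even in each variable
-/

namespace Pool.Agent.Lib.MP_bbe012_lc.HC

open Set

variable {m : ℕ}

/-- The polynomial `p` is even in the coordinates `x_0, ..., x_(k-1)`. -/
def EvP (m k : ℕ) (p : PCode) : Prop :=
  ∀ i : Fin m, (i : ℕ) < k → ∀ z : Fin m → ℝ,
    pcEval m p (Function.update z i (-z i)) = pcEval m p z

/-- A polynomial even in all coordinates depends on the absolute values only. -/
theorem EvP.abs {p : PCode} (h : EvP m m p) {y z : Fin m → ℝ} (hyz : ∀ i, |y i| = |z i|) :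
    pcEval m p y = pcEval m p z := by
  have key : ∀ k : ℕ, k ≤ m →
      pcEval m p (fun i : Fin m => if (i : ℕ) < k then y i else z i) = pcEval m p z := by
    intro k hk
    induction k with
    | zero =>
      have e : (fun i : Fin m => if (i : ℕ) < 0 then y i else z i) = z := by
        funext i
        exact if_neg (Nat.not_lt_zero _)
      rw [e]
    | succ k ih =>
      have h2 := ih (by omega)
      set w : Fin m → ℝ := fun i : Fin m => if (i : ℕ) < k then y i else z i with hw
      have hwk : w ⟨k, by omega⟩ = z ⟨k, by omega⟩ := by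
        simp only [hw]
        exact if_neg (lt_irrefl k)
      rcases abs_eq_abs.1 (hyz ⟨k, by omega⟩) with h3 | h3
      · have e : (fun i : Fin m => if (i : ℕ) < k + 1 then y i else z i) = w := by
          funext i
          simp only [hw]
          by_cases hi : (i : ℕ) < k
          · rw [if_pos hi, if_pos (by omega)]
          · by_cases hi' : (i : ℕ) = k
            · have : i = ⟨k, by omega⟩ := Fin.ext hi'
              rw [if_pos (by omega), if_neg hi, this]
              exact h3
            · rw [if_neg hi, if_neg (by omega)]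
        rw [e]
        exact h2
      · have e : (fun i : Fin m => if (i : ℕ) < k + 1 then y i else z i) =
            Function.update w ⟨k, by omega⟩ (-w ⟨k, by omega⟩) := by
          funext i
          by_cases hi' : (i : ℕ) = k
          · have : i = ⟨k, by omega⟩ := Fin.ext hi'
            rw [this, Function.update_self, hwk]
            simp only [Nat.lt_succ_self, if_true]
            exact h3
          · rw [Function.update_of_ne (fun h4 => hi' (by rw [h4]))]
            simp only [hw]
            by_cases hi : (i : ℕ) < k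
            · rw [if_pos hi, if_pos (by omega)]
            · rw [if_neg hi, if_neg (by omega)]
        rw [e]
        exact (h ⟨k, by omega⟩ (by show k < m; omega) w).trans h2
  have h4 := key m le_rfl
  have e : (fun i : Fin m => if (i : ℕ) < m then y i else z i) = y := by
    funext i
    exact if_pos i.2
  rw [e] at h4
  exact h4

theorem symStep_evP {s : PCode × PCode} {k : ℕ} (hk : k < m) (h1 : EvP m k s.1)
    (h2 : EvP m k s.2) : EvP m (k + 1) (symStep k s).1 ∧ EvP m (k + 1) (symStep k s).2 := by
  have hflip : ∀ (p : PCode) (z : Fin m → ℝ), pcEval m (pcFlip k p) z =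
      pcEval m p (Function.update z ⟨k, hk⟩ (-z ⟨k, hk⟩)) :=
    fun p z => pcEval_flip p ⟨k, hk⟩ z
  have hinv : ∀ z : Fin m → ℝ, Function.update (Function.update z ⟨k, hk⟩ (-z ⟨k, hk⟩)) ⟨k, hk⟩
      (-(Function.update z ⟨k, hk⟩ (-z ⟨k, hk⟩)) ⟨k, hk⟩) = z := by
    intro z
    rw [Function.update_self, Function.update_idem, neg_neg, Function.update_eq_self]
  have hcomm : ∀ (i : Fin m), i ≠ ⟨k, hk⟩ → ∀ z : Fin m → ℝ,
      Function.update (Function.update z i (-z i)) ⟨k, hk⟩
        (-(Function.update z i (-z i)) ⟨k, hk⟩) =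
      Function.update (Function.update z ⟨k, hk⟩ (-z ⟨k, hk⟩)) i
        (-(Function.update z ⟨k, hk⟩ (-z ⟨k, hk⟩)) i) := by
    intro i hik z
    rw [Function.update_of_ne (Ne.symm hik), Function.update_of_ne hik, Function.update_comm hik]
  have hlt : ∀ i : Fin m, (i : ℕ) < k + 1 → i ≠ ⟨k, hk⟩ → (i : ℕ) < k := by
    intro i hi hik
    have : (i : ℕ) ≠ k := fun h => hik (Fin.ext h)
    omega
  constructor
  · intro i hi z
    change pcEval m (pcMul s.1 (pcFlip k s.2) ++ pcMul (pcFlip k s.1) s.2) _ =
      pcEval m (pcMul s.1 (pcFlip k s.2) ++ pcMul (pcFlip k s.1) s.2) z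
    simp only [pcEval_append, pcEval_mul, hflip]
    by_cases hik : i = ⟨k, hk⟩
    · rw [hik, hinv]
      ring
    · rw [hcomm i hik, h1 i (hlt i hi hik), h1 i (hlt i hi hik), h2 i (hlt i hi hik),
        h2 i (hlt i hi hik)]
  · intro i hi z
    change pcEval m (pcMul (pcNat 2) (pcMul s.2 (pcFlip k s.2))) _ =
      pcEval m (pcMul (pcNat 2) (pcMul s.2 (pcFlip k s.2))) z
    simp only [pcEval_mul, hflip, pcEval_nat]
    by_cases hik : i = ⟨k, hk⟩
    · rw [hik, hinv]
      ring
    · rw [hcomm i hik, h2 i (hlt i hi hik), h2 i (hlt i hi hik)]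

theorem symN_evP (s : PCode × PCode) {k : ℕ} (hk : k ≤ m) :
    EvP m k (symN k s).1 ∧ EvP m k (symN k s).2 := by
  induction k with
  | zero => exact ⟨fun i hi => absurd hi (Nat.not_lt_zero _), fun i hi => absurd hi (Nat.not_lt_zero _)⟩
  | succ k ih =>
    obtain ⟨h1, h2⟩ := ih (by omega)
    exact symStep_evP (by omega) h1 h2

theorem pcEval_trunc_init (p : PCode) (x : Fin (m + 1) → ℝ) :
    pcEval (m + 1) (pcTrunc m p) x = pcEval m p fun i => x i.castSucc :=
  pcEval_trunc (Nat.le_succ m) p x

theorem pcEval_sumRange' (n R : ℕ) (g : ℕ → PCode) (x : Fin n → ℝ) :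
    pcEval n (pcSumRange R g) x = ∑ i : Fin R, pcEval n (g i) x := by
  unfold pcEval
  rw [pcPoly_sumRange, map_sum]

theorem fCode_even (m C : ℕ) (s : PCode × PCode) (x y : Fin (m + 1) → ℝ)
    (hxy : ∀ i, |y i| = |x i|) :
    pcEval (m + 1) (fCode m C (symN m s)) y = pcEval (m + 1) (fCode m C (symN m s)) x := by
  obtain ⟨h1, h2⟩ := symN_evP (m := m) s le_rfl
  have hxy' : ∀ i : Fin m, |y i.castSucc| = |x i.castSucc| := fun i => hxy i.castSucc
  have e1 := h1.abs (y := fun i => y i.castSucc) (z := fun i => x i.castSucc) hxy'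
  have e2 := h2.abs (y := fun i => y i.castSucc) (z := fun i => x i.castSucc) hxy'
  have e3 : ∀ i : Fin (m + 1), y i * y i = x i * x i := fun i => by
    rw [← abs_mul_abs_self (y i), hxy i, abs_mul_abs_self]
  have e4 : ∀ i : Fin m, pcEval m (pcNat 1 ++ pcNeg (pcMul (pcNat 3) (pcMul (pcVar i) (pcVar i))))
      (fun i => y i.castSucc) =
      pcEval m (pcNat 1 ++ pcNeg (pcMul (pcNat 3) (pcMul (pcVar i) (pcVar i))))
      (fun i => x i.castSucc) := by
    intro i
    simp only [pcEval_append, pcEval_neg, pcEval_mul, pcEval_nat, pcEval_var i.2]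
    rw [e3 (⟨i, i.2⟩ : Fin m).castSucc]
  unfold fCode nCode tCode
  simp only [pcEval_append, pcEval_neg, pcEval_mul, pcEval_nat, pcEval_trunc_init,
    pcEval_sumRange', pcEval_var (Nat.lt_succ_self m)]
  simp only [pcEval_append, pcEval_neg, pcEval_mul, pcEval_nat] at e4
  rw [e1, e2, e3, Finset.sum_congr rfl fun i _ => e4 i]

end Pool.Agent.Lib.MP_bbe012_lc.HC
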